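import Pool.Agent.MP_cb84d8_pr.PT.Basic

/-! PROJECT POTTS: the counting lemma of Burton and Keane for blocks. -/

open Finset

namespace Pool.Agent.MP_cb84d8_pr.PT

noncomputable section
open Classical

namespace RBkc

theorem avoid {α F : Finset Edge} {y z : Site} (h : ∀ b ∈ ends F, ¬ reach α y b)
    (k : reach α y z) : reach (α \ F) y z := by
  induction k with
  | refl => exact Relation.ReflTransGen.refl
  | @tail u w a l ih =>
    obtain ⟨e, he, l⟩ := l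
    refine ih.tail ⟨e, mem_sdiff.2 ⟨he, fun c => h u (mem_ends.2 ⟨e, c, ?_⟩) a⟩, l⟩
    exact l.elim (fun l => Or.inl l.1) fun l => Or.inr l.2

theorem avoid' {ω E F : Finset Edge} {y z : Site} (h : ∀ b ∈ ends F, ¬ reach (ω \ E) y b)
    (k : reach (ω \ E) y z) : reach (ω \ F) y z :=
  (avoid h k).mono (sdiff_subset_sdiff sdiff_subset subset_rfl)

theorem two {α F : Finset Edge} {y : Fin 3 → Site} (hy : ∀ k l, k ≠ l → ¬ reach α (y k) (y l))
    (hF : ∀ a ∈ ends F, ∀ b ∈ ends F, reach α a b) :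
    ∃ k l, k ≠ l ∧ (∀ b ∈ ends F, ¬ reach α (y k) b) ∧ ∀ b ∈ ends F, ¬ reach α (y l) b := by
  have h : ∀ k l, k ≠ l →
      (∀ b ∈ ends F, ¬ reach α (y k) b) ∨ ∀ b ∈ ends F, ¬ reach α (y l) b := fun k l hkl => by
    by_contra c
    simp only [not_or, not_forall, not_not] at c
    obtain ⟨⟨a, a1, a2⟩, b, b1, b2⟩ := c
    exact hy k l hkl (a2.trans ((hF a a1 b b1).trans b2.symm))
  rcases h 0 1 (by decide) with a | a
  · rcases h 1 2 (by decide) with b | b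
    · exact ⟨0, 1, by decide, a, b⟩
    · exact ⟨0, 2, by decide, a, b⟩
  · rcases h 0 2 (by decide) with b | b
    · exact ⟨0, 1, by decide, b, a⟩
    · exact ⟨1, 2, by decide, a, b⟩

theorem conn {ω E F : Finset Edge} (d : Disjoint (ends E) (ends F)) (h : E ⊆ ω)
    (c : ∀ a ∈ ends E, ∀ b ∈ ends E, reach E a b) :
    ∀ a ∈ ends E, ∀ b ∈ ends E, reach (ω \ F) a b := fun a ha b hb =>
  (c a ha b hb).mono fun e he => mem_sdiff.2 ⟨h he, fun k => disjoint_left.1 d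
    (mem_ends.2 ⟨e, he, Or.inl rfl⟩) (mem_ends.2 ⟨e, k, Or.inl rfl⟩)⟩

end RBkc

open RBkc in
theorem rbkc : BKC := by
  intro ι I E ω Y hd hc hy
  induction I using Finset.strongInductionOn generalizing Y with
  | _ I ih =>
  rcases I.eq_empty_or_nonempty with rfl | hI
  · simp
  choose! y y1 y2 using hy
  obtain ⟨⟨i, k₀⟩, hi, hm⟩ := exists_min_image (I ×ˢ (univ : Finset (Fin 3)))
    (fun p => (Y.filter (reach (ω \ E p.1) (y p.1 p.2))).card) (hI.product univ_nonempty)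
  replace hi : i ∈ I := (mem_product.1 hi).1
  have key := ih (I.erase i) (erase_ssubset hi) (Y.filter fun z => ¬ reach (ω \ E i) (y i k₀) z)
    (fun a ha b hb => hd a (mem_of_mem_erase ha) b (mem_of_mem_erase hb))
    (fun a ha => hc a (mem_of_mem_erase ha)) fun j hj => ?_
  · have := card_lt_card (filter_ssubset.2 ⟨y i k₀, (y1 i hi k₀).1, not_not.2 .refl⟩ :
      (Y.filter fun z => ¬ reach (ω \ E i) (y i k₀) z) ⊂ Y)
    have := card_erase_add_one hi
    omega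
  obtain ⟨hji, hj⟩ := mem_erase.1 hj
  have c1 := conn (hd i hi j hj hji.symm) (hc i hi).1 (hc i hi).2
  have c2 := conn (hd j hj i hi hji) (hc j hj).1 (hc j hj).2
  have A : ∀ b ∈ ends (E j), ¬ reach (ω \ E i) (y i k₀) b := fun b hb c => by
    obtain ⟨k, l, hkl, a1, a2⟩ := two (y2 j hj) c1
    have r : ∀ m, (∀ b ∈ ends (E i), ¬ reach (ω \ E j) (y j m) b) →
        reach (ω \ E i) (y i k₀) (y j m) := fun m a =>
      let ⟨_, u, hu, t⟩ := y1 j hj m
      c.trans ((c2 b hb u hu).trans (avoid' a t.symm).symm)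
    refine (hm (j, k) (mem_product.2 ⟨hj, mem_univ _⟩)).not_gt (card_lt_card ⟨fun z hz => ?_,
      fun s => y2 j hj k l hkl (mem_filter.1 (s (mem_filter.2 ⟨(y1 j hj l).1, r l a2⟩))).2⟩)
    exact mem_filter.2 ⟨(mem_filter.1 hz).1, (r k a1).trans (avoid' a1 (mem_filter.1 hz).2)⟩
  obtain ⟨m, hm0, B⟩ : ∃ m, k₀ ≠ m ∧ ∀ b ∈ ends (E j), ¬ reach (ω \ E i) (y i m) b := by
    obtain ⟨k, l, hkl, a1, a2⟩ := two (y2 i hi) c2
    by_cases e : k₀ = k
    · exact ⟨l, e ▸ hkl, a2⟩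
    · exact ⟨k, e, a1⟩
  have C : reach (ω \ E j) (y i k₀) (y i m) := by
    obtain ⟨_, u, hu, t⟩ := y1 i hi k₀
    obtain ⟨_, u', hu', t'⟩ := y1 i hi m
    exact (avoid' A t.symm).trans ((c1 u hu u' hu').trans (avoid' B t'.symm).symm)
  obtain ⟨z, z1, z2⟩ : ∃ z : Fin 3 → Site, (∀ k, z k ∈ Y.filter fun z =>
      ¬ reach (ω \ E i) (y i k₀) z) ∧ ∀ k, reach (ω \ E j) (y j k) (z k) := by
    refine ⟨fun k => if reach (ω \ E i) (y i k₀) (y j k) then y i m else y j k, fun k => ?_,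
      fun k => ?_⟩ <;> beta_reduce <;> split_ifs with e
    · exact mem_filter.2 ⟨(y1 i hi m).1, y2 i hi _ _ hm0⟩
    · exact mem_filter.2 ⟨(y1 j hj k).1, e⟩
    · exact (avoid' A e).symm.trans C
    · exact .refl
  refine ⟨z, fun k => ⟨z1 k, ?_⟩, fun k l hkl c =>
    y2 j hj k l hkl ((z2 k).trans (c.trans (z2 l).symm))⟩
  obtain ⟨_, u, hu, t⟩ := y1 j hj k
  exact ⟨u, hu, t.trans (z2 k)⟩

end

end Pool.Agent.MP_cb84d8_pr.PT
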