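import Pool.Agent.MP_cb84d8_pr.PT.Basic

/-! PROJECT POTTS, row CNT: six arms at many blocks are impossible. -/

open Finset Filter Topology MeasureTheory

namespace Pool.Agent.MP_cb84d8_pr.PT

noncomputable section
open Classical

namespace RCnt

theorem card_bx {N : ℤ} (h : 0 ≤ N) : ((box N).card : ℤ) = (2 * N + 1) ^ 2 := by
  rw [box, card_product, Nat.cast_mul, Int.card_Icc, Int.toNat_of_nonneg (by omega)]
  ring

theorem corner {n : ℤ} {z : Site} (h : z ∈ box n) : reach (touching (box n)) (-n, -n) z := by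
  obtain ⟨a, b⟩ := z
  obtain ⟨h1, h2, h3, h4⟩ := mem_box.1 h
  have H : ∀ a, -n ≤ a → a ≤ n → reach (touching (box n)) (-n, -n) (a, -n) := fun a k => by
    induction a, k using Int.leInduction with
    | base => exact fun _ => Relation.ReflTransGen.refl
    | succ a k ih =>
      exact fun l => (ih (by omega)).tail ⟨((a, -n), false),
        mem_touching.2 (Or.inl (mem_box.2 (by simp only; omega))), Or.inl ⟨rfl, rfl⟩⟩
  have V : ∀ b, -n ≤ b → b ≤ n → reach (touching (box n)) (-n, -n) (a, b) := fun b k => by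
    induction b, k using Int.leInduction with
    | base => exact fun _ => H a h1 h2
    | succ b k ih =>
      exact fun l => (ih (by omega)).tail ⟨((a, b), true),
        mem_touching.2 (Or.inl (mem_box.2 (by simp only at h1 h2 ⊢; omega))), Or.inl ⟨rfl, rfl⟩⟩
  exact V b h3 h4

theorem conn {n : ℤ} {z : Site} (h : z ∈ ends (touching (box n))) :
    reach (touching (box n)) (-n, -n) z := by
  obtain ⟨e, he, k⟩ := mem_ends.1 h
  rcases mem_touching.1 he with l | l <;> rcases k with rfl | rfl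
  · exact corner l
  · exact (corner l).tail ⟨e, he, Or.inl ⟨rfl, rfl⟩⟩
  · exact (corner l).tail ⟨e, he, Or.inr ⟨rfl, rfl⟩⟩
  · exact corner l

theorem ends_shift {n : ℤ} {x a : Site}
    (h : a ∈ ends ((touching (box n)).map (shiftE x).toEmbedding)) :
    ∃ z ∈ ends (touching (box n)), a = z + x := by
  rw [(aut_shift x).ends] at h
  obtain ⟨z, hz, rfl⟩ := mem_map.1 h
  exact ⟨z, hz, rfl⟩

theorem ends_box {n : ℤ} {z : Site} (h : z ∈ ends (touching (box n))) : z ∈ box (n + 1) := by
  obtain ⟨e, he, rfl | rfl⟩ := mem_ends.1 h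
  exacts [(ends_touching he).1, (ends_touching he).2]

theorem sep {n i j a b : ℤ} (h : a + (2 * n + 3) * i = b + (2 * n + 3) * j) (h1 : -(n + 1) ≤ a)
    (h2 : a ≤ n + 1) (h3 : -(n + 1) ≤ b) (h4 : b ≤ n + 1) : i = j := by
  rcases lt_trichotomy i j with k | k | k
  · nlinarith
  · exact k
  · nlinarith

theorem bnd {d i M : ℤ} (hd : 0 ≤ d) (h1 : -M ≤ i) (h2 : i ≤ M) : |d * i| ≤ d * M :=
  abs_le.2 ⟨by nlinarith, by nlinarith⟩

end RCnt

open RCnt in
theorem rcnt : BKC → ENC → CNT := by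
  intro bkc enc pr hp n c hn hc h
  have n0 : (0 : ℝ) ≤ n := by exact_mod_cast hn
  obtain ⟨m, hm⟩ := exists_nat_gt ((8 * (2 * (n : ℝ) + 3) + 8 * n + 16) / c)
  obtain ⟨M, hM⟩ : ∃ M : ℤ, M = m := ⟨_, rfl⟩
  obtain ⟨L, hL⟩ : ∃ L : ℤ, L = (2 * n + 3) * M + n + 1 := ⟨_, rfl⟩
  have M0 : 0 ≤ M := by omega
  have L0 : 0 ≤ L := by rw [hL]; positivity
  obtain ⟨x, hx⟩ : ∃ x : Site → Site, x = fun i => ((2 * n + 3) * i.1, (2 * n + 3) * i.2) :=
    ⟨_, rfl⟩
  have xb : ∀ i ∈ box M, |(x i).1| + n + 1 ≤ L ∧ |(x i).2| + n + 1 ≤ L := fun i hi => by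
    obtain ⟨a, b, c, d⟩ := mem_box.1 hi
    have := bnd (d := 2 * n + 3) (by omega) a b
    have := bnd (d := 2 * n + 3) (by omega) c d
    simp only [hx]
    omega
  have lB : Loc fun ω => six n (2 * L + 2) ω ∧ touching (box n) ⊆ ω := (loc_six _ _).and (loc_sub _)
  have key := hp.cnt Site (box M) (fun i ω => six n (2 * L + 2)
    (ω.map (shiftE (-x i)).toEmbedding) ∧ touching (box n) ⊆ ω.map (shiftE (-x i)).toEmbedding)
    (box (L + 1) \ box L).card (fun i _ => lB.map _) fun ω => by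
      refine bkc Site _ (fun i => (touching (box n)).map (shiftE (x i)).toEmbedding)
        (ω ∩ touching (box L)) _ (fun i _ j _ hij => disjoint_left.2 fun a ha hb => hij ?_)
        (fun i hi => ⟨fun e he => ?_, fun a ha b hb => ?_⟩) fun i hi => ?_
      · obtain ⟨z, hz, rfl⟩ := ends_shift ha
        obtain ⟨z', hz', e⟩ := ends_shift hb
        obtain ⟨a1, a2, a3, a4⟩ := mem_box.1 (ends_box hz)
        obtain ⟨b1, b2, b3, b4⟩ := mem_box.1 (ends_box hz')
        rw [hx] at e
        exact Prod.ext (sep (congrArg Prod.fst e) a1 a2 b1 b2) (sep (congrArg Prod.snd e) a3 a4 b3 b4)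
      · simp only [mem_filter] at hi
        obtain ⟨hi1, -, hi2⟩ := hi
        obtain ⟨f, hf, rfl⟩ := mem_map.1 he
        obtain ⟨g, hg, rfl⟩ := mem_map.1 (hi2 hf)
        obtain ⟨b1, b2⟩ := xb i hi1
        refine mem_inter.2 ⟨?_, mem_touching.2 ((mem_touching.1 hf).imp ?_ ?_)⟩
        · have : (shiftE (x i)).toEmbedding ((shiftE (-x i)).toEmbedding g) = g :=
            Prod.ext (neg_add_cancel_right g.1 (x i)) rfl
          rwa [this]
        · simp only [Equiv.coe_toEmbedding, shift1, shiftS_apply, mem_box, Prod.fst_add,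
            Prod.snd_add, abs_eq_max_neg] at b1 b2 ⊢
          omega
        · simp only [Equiv.coe_toEmbedding, shift2, shiftS_apply, mem_box, Prod.fst_add,
            Prod.snd_add, abs_eq_max_neg] at b1 b2 ⊢
          omega
      · obtain ⟨z, hz, rfl⟩ := ends_shift ha
        obtain ⟨z', hz', rfl⟩ := ends_shift hb
        exact (aut_shift (x i)).reach.2 (Relation.ReflTransGen.trans (conn hz).symm (conn hz'))
      · simp only [mem_filter] at hi
        obtain ⟨hi1, hi2, -⟩ := hi
        exact enc n (2 * L + 2) L (x i) ω hn (xb i hi1).1 (xb i hi1).2 le_rfl hi2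
  have low := card_nsmul_le_sum (box M) _ c fun i _ =>
    (h (2 * L + 2) (by omega)).trans_eq (hp.inv _ _ (aut_shift (-x i)) _ lB).symm
  have c1 : ((box M).card : ℝ) = (2 * m + 1) ^ 2 := by
    have := card_bx M0
    rw [hM] at this ⊢
    exact_mod_cast this
  have c2 : ((box (L + 1) \ box L).card : ℝ) = 8 * ((2 * n + 3) * m + n + 1) + 8 := by
    have a1 := card_sdiff_add_card_eq_card (box_mono (show L ≤ L + 1 by omega))
    have a2 := card_bx L0
    have a3 := card_bx (show 0 ≤ L + 1 by omega)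
    have a4 : ((box (L + 1) \ box L).card : ℤ) = 8 * ((2 * n + 3) * m + n + 1) + 8 := by
      rw [← hM, ← hL]
      have := congrArg (Nat.cast : ℕ → ℤ) a1
      rw [Nat.cast_add, a2, a3] at this
      linarith
    exact_mod_cast a4
  have fin := low.trans key
  rw [nsmul_eq_mul, c1, c2] at fin
  rw [div_lt_iff₀ hc] at hm
  have m1 : (1 : ℝ) ≤ m := by
    rcases Nat.eq_zero_or_pos m with rfl | k
    · simp only [Nat.cast_zero, zero_mul] at hm
      linarith
    · exact_mod_cast k
  nlinarith [mul_le_mul_of_nonneg_left hm.le (show (0 : ℝ) ≤ m by linarith),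
    mul_pos hc (show (0 : ℝ) < m by linarith), mul_nonneg n0 (show (0 : ℝ) ≤ m - 1 by linarith)]

end

end Pool.Agent.MP_cb84d8_pr.PT
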