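import Pool.Agent.MP_cb84d8_pr.PT.Basic

/-! Row COND: conditioning on the edges outside a subset. -/

open Finset

namespace Pool.Agent.MP_cb84d8_pr.PT

noncomputable section
open Classical

namespace RCond

theorem split {F F₀ : Finset Edge} (h : F₀ ⊆ F) (G : Finset Edge → Finset Edge → ℝ) :
    ∑ ω ∈ F.powerset, G (ω ∩ F₀) (ω \ F₀) =
      ∑ ξ ∈ (F \ F₀).powerset, ∑ η ∈ F₀.powerset, G η ξ := by
  rw [← sum_product' (f := fun ξ η => G η ξ)]
  refine sum_nbij' (fun ω => (ω \ F₀, ω ∩ F₀)) (fun p => p.2 ∪ p.1) ?_ ?_ ?_ ?_ fun _ _ => rfl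
  · intro ω hω
    exact mem_product.2 ⟨mem_powerset.2 (sdiff_subset_sdiff (mem_powerset.1 hω) subset_rfl),
      mem_powerset.2 inter_subset_right⟩
  · intro p hp
    obtain ⟨a, b⟩ := mem_product.1 hp
    exact mem_powerset.2 (union_subset ((mem_powerset.1 b).trans h)
      ((mem_powerset.1 a).trans sdiff_subset))
  · intro ω _
    ext e
    simp only [mem_union, mem_inter, mem_sdiff]
    tauto
  · intro p hp
    obtain ⟨a, b⟩ := mem_product.1 hp
    have a' : ∀ e ∈ p.1, e ∉ F₀ := fun e k => (mem_sdiff.1 (mem_powerset.1 a k)).2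
    have b' : ∀ e ∈ p.2, e ∈ F₀ := fun e k => mem_powerset.1 b k
    refine Prod.ext ?_ ?_
    · ext e
      simp only [mem_union, mem_sdiff]
      exact ⟨fun k => k.1.resolve_left fun l => k.2 (b' e l), fun k => ⟨Or.inr k, a' e k⟩⟩
    · ext e
      simp only [mem_union, mem_inter]
      exact ⟨fun k => k.1.resolve_right fun l => a' e l k.2, fun k => ⟨Or.inl k, b' e k⟩⟩

theorem fw_split (v Q : ℝ) (Λ : Finset Site) (F₀ ω : Finset Edge) :
    fw v Q Λ ∅ ω = v ^ (ω \ F₀).card * fw v Q Λ (ω \ F₀) (ω ∩ F₀) := by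
  have e : ω ∩ F₀ ∪ ω \ F₀ = ω := by
    ext e
    simp only [mem_union, mem_inter, mem_sdiff]
    tauto
  unfold fw
  rw [union_empty, e, ← card_sdiff_add_card_inter ω F₀, pow_add, mul_assoc]

end RCond

open RCond in
theorem rcond : COND := by
  intro v Q c F F₀ Λ f g hv hQ hF hg h
  have pos : ∀ (F ξ : Finset Edge), 0 < ∑ ω ∈ F.powerset, fw v Q Λ ξ ω := fun F ξ =>
    sum_pos (fun _ _ => mul_pos (pow_pos hv _) (pow_pos hQ _)) ⟨∅, empty_mem_powerset _⟩
  unfold fk
  rw [← mul_div_assoc]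
  refine div_le_div_of_nonneg_right ?_ (pos _ _).le
  simp only [fw_split v Q Λ F₀]
  rw [split hF fun η ξ => v ^ ξ.card * fw v Q Λ ξ η * (f η * g ξ),
    split hF fun η ξ => v ^ ξ.card * fw v Q Λ ξ η * g ξ, mul_sum]
  refine sum_le_sum fun ξ hξ => ?_
  have k := h ξ (mem_powerset.1 hξ)
  unfold fk at k
  rw [div_le_iff₀ (pos _ _)] at k
  have k2 := mul_le_mul_of_nonneg_left k (mul_nonneg (pow_pos hv ξ.card).le (hg ξ))
  refine le_of_eq_of_le ?_ (k2.trans_eq ?_)
  · rw [mul_sum]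
    exact sum_congr rfl fun _ _ => by ring
  · simp only [mul_sum]
    exact sum_congr rfl fun _ _ => by ring

end

end Pool.Agent.MP_cb84d8_pr.PT
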