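import Pool.Agent.MP_cb84d8_pr.PT.Basic

/-! PROJECT POTTS: planar duality at the self-dual point. -/

open Finset

namespace Pool.Agent.MP_cb84d8_pr.PT

noncomputable section
open Classical

namespace RDua

theorem card_cmpt (hc : CARD) (Λ : Finset Site) (ω : Finset Edge) :
    (cmpt Λ ⊤ ω).card = 2 ^ kk Λ ω := by
  have := hc Bool true Λ ω (cmpt Λ ⊤ ω) fun σ => by
    unfold cmpt
    rw [mem_filter, mem_fill]
    rfl
  simpa using this

theorem euler (hc : CARD) {N : ℤ} {ω : Finset Edge} (hω : ω ⊆ touching (box N)) :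
    ω.card + kk (box N) ω = (box N).card + kk (dbox N) (dualOf (touching (box N)) ω) := by
  have h1 := card_cmpt_primal (box N) ω
  rw [← card_cmpt_dual hω, card_cmpt hc, card_cmpt hc] at h1
  have h2 : (2 : ℕ) ^ (ω.card + kk (box N) ω) =
      2 ^ ((box N).card + kk (dbox N) (dualOf (touching (box N)) ω)) := by
    rw [pow_add, pow_add]
    exact_mod_cast h1
  exact Nat.pow_right_injective le_rfl h2

theorem ends_sub (N : ℤ) :
    ends ((touching (box N)).map dual.toEmbedding) ⊆ insert (-N - 1, -N - 1) (dbox N) := by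
  intro x hx
  obtain ⟨e', he', h⟩ := mem_ends.1 hx
  obtain ⟨e, he, rfl⟩ := mem_map.1 he'
  have k := mem_inn.1 (dual_touching.2 he)
  have : x ∈ gsq (-N - 1) N := by
    rcases h with rfl | rfl
    · exact k.1
    · exact k.2
  rw [mem_gsq] at this
  rw [mem_insert, mem_dbox, Prod.ext_iff]
  dsimp only
  omega

theorem sum_dual (hc : CARD) {Q : ℝ} (hQ : 0 ≤ Q) (N : ℤ) (H : Finset Edge → ℝ) :
    √Q ^ (touching (box N)).card * ∑ ω ∈ (touching (box N)).powerset,
        fw √Q Q (box N) ∅ ω * H (dualOf (touching (box N)) ω) =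
      Q ^ (box N).card * ∑ ω ∈ ((touching (box N)).map dual.toEmbedding).powerset,
        fw √Q Q (dbox N) ∅ ω * H ω := by
  rw [mul_sum, mul_sum]
  refine sum_nbij' (dualOf (touching (box N)))
    (fun ω' => (touching (box N)).filter fun e => dual e ∉ ω') ?_ ?_ ?_ ?_ ?_
  · intro ω _
    exact mem_powerset.2 (map_subset_map.2 sdiff_subset)
  · intro ω _
    exact mem_powerset.2 (filter_subset _ _)
  · intro ω hω
    ext e
    simp only [mem_filter, mem_dualOf]
    have : e ∈ ω → e ∈ touching (box N) := fun h => mem_powerset.1 hω h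
    tauto
  · intro ω hω
    ext e'
    obtain ⟨e, rfl⟩ := dual.surjective e'
    simp only [mem_filter, mem_dualOf]
    have : dual e ∈ ω → e ∈ touching (box N) := fun h => by
      simpa using mem_powerset.1 hω h
    tauto
  · intro ω hω
    rw [mem_powerset] at hω
    have h1 := congrArg (Q ^ ·) (euler hc hω)
    have h2 : (dualOf (touching (box N)) ω).card + ω.card = (touching (box N)).card := by
      rw [dualOf, card_map, card_sdiff_add_card_eq_card hω]
    have h3 : Q ^ ω.card = √Q ^ ω.card * √Q ^ ω.card := by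
      rw [← mul_pow, Real.mul_self_sqrt hQ]
    simp only [pow_add] at h1
    unfold fw
    rw [union_empty, union_empty, ← h2, pow_add]
    calc _ = √Q ^ (dualOf (touching (box N)) ω).card * (√Q ^ ω.card * √Q ^ ω.card *
          Q ^ kk (box N) ω) * H (dualOf (touching (box N)) ω) := by ring
      _ = _ := by rw [← h3, h1]; ring

end RDua

theorem rdua : CARD → IRR → DUA := fun hc hi Q N H hQ _ => by
  have q0 : 0 < Q := by linarith
  have s0 : 0 < √Q := Real.sqrt_pos.2 q0
  rw [← hi.fr q0 (RDua.ends_sub N), fk_of_kk (Λ' := dbox N) (ξ' := ∅) q0 1 fun ω hω => by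
    rw [union_empty]
    exact hi.one _ _ _ (by simp [dbox]) ((ends_mono hω).trans (RDua.ends_sub N))]
  have h1 := RDua.sum_dual hc q0.le N H
  have h2 := RDua.sum_dual hc q0.le N fun _ => 1
  simp only [mul_one] at h2
  unfold wr fk
  rw [← mul_div_mul_left _ _ (pow_pos s0 (touching (box N)).card).ne', h1, h2,
    mul_div_mul_left _ _ (pow_pos q0 _).ne']

end

end Pool.Agent.MP_cb84d8_pr.PT
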