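import Pool.Agent.MP_cb84d8_pr.PT.Basic

/-! PROJECT POTTS: one block with six arms has three separate exits. -/

open Finset

namespace Pool.Agent.MP_cb84d8_pr.PT

noncomputable section
open Classical

namespace REnc

theorem half_ends {n : ℤ} {a b c : Bool} {z : Site} (h : z ∈ half true (-n) n a b c) :
    z ∈ box (n + 1) ∧ z ∈ ends (touching (box n)) := by
  obtain ⟨u, v⟩ := z
  obtain ⟨h1, h2, h3, h4, -⟩ := mem_filter.1 h
  rw [mem_gsq] at h1
  refine ⟨mem_box.2 (by omega), mem_ends.2 ?_⟩
  cases a <;> cases b <;> simp only [Bool.false_eq_true, if_true, if_false] at h1 h2 h3 h4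
  · exact ⟨((u, v), true), by simp only [mem_touching, mem_box, tip_true]; omega, Or.inl rfl⟩
  · exact ⟨((u, v - 1), true), by simp only [mem_touching, mem_box, tip_true]; omega,
      Or.inr (by simp)⟩
  · exact ⟨((u, v), false), by simp only [mem_touching, mem_box, tip_false]; omega, Or.inl rfl⟩
  · exact ⟨((u - 1, v), false), by simp only [mem_touching, mem_box, tip_false]; omega,
      Or.inr (by simp)⟩

theorem map_eq (x : Site) (ω T : Finset Edge) :
    (ω \ T.map (shiftE x).toEmbedding).map (shiftE (-x)).toEmbedding =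
      ω.map (shiftE (-x)).toEmbedding \ T := by
  ext e
  have h : (shiftE x).symm ((shiftE (-x)).symm e) = e := by
    obtain ⟨u, b⟩ := e
    simp [shiftE]
  simp only [mem_map_equiv, mem_sdiff, h]

theorem exit {n r L : ℤ} {x : Site} {ω : Finset Edge} {a b c : Bool} (h1 : |x.1| + n + 1 ≤ L)
    (h2 : |x.2| + n + 1 ≤ L) (h3 : 2 * L + 2 ≤ r) (hn : 0 ≤ n)
    (h : arm true (-n) n r a b c (ω.map (shiftE (-x)).toEmbedding)) :
    ∃ p ∈ half true (-n) n a b c, ∃ y ∈ box (L + 1) \ box L,
      reach ((ω ∩ touching (box L)) \ (touching (box n)).map (shiftE x).toEmbedding)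
        (shiftS x p) y := by
  obtain ⟨p, hp, k⟩ := h
  have e : p = shiftS (-x) (shiftS x p) := by simp [shiftS_apply]
  have k1 : exits ((box L).map (shiftS (-x)).toEmbedding)
      ((ω \ (touching (box n)).map (shiftE x).toEmbedding).map (shiftE (-x)).toEmbedding)
      (shiftS (-x) (shiftS x p)) := by
    rw [← e, map_eq]
    refine exits_mono (fun y hy => ?_) subset_rfl k
    obtain ⟨u, hu, rfl⟩ := mem_map.1 hy
    simp only [mem_box, mem_gsq, Equiv.coe_toEmbedding, shiftS_apply, Prod.fst_add, Prod.snd_add,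
      Prod.fst_neg, Prod.snd_neg, abs_eq_max_neg] at hu h1 h2 ⊢
    omega
  obtain ⟨y, y1, y2⟩ := exits_loc.1 ((aut_shift (-x)).exits.1 k1)
  refine ⟨p, hp, y, mem_sdiff.2 ⟨?_, y1⟩, y2.mono fun e he => ?_⟩
  · rcases reach_end y2 with rfl | l
    · have := (half_ends hp).1
      simp only [mem_box, shiftS_apply, Prod.fst_add, Prod.snd_add, abs_eq_max_neg] at this h1 h2 ⊢
      omega
    · obtain ⟨e, he, rfl | rfl⟩ := mem_ends.1 l
      exacts [(ends_touching (mem_inter.1 he).2).1, (ends_touching (mem_inter.1 he).2).2]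
  · simp only [mem_inter, mem_sdiff] at he ⊢
    tauto

end REnc

open REnc in
theorem renc : TOP → ENC := by
  intro top n r L x ω hn h1 h2 h3 ⟨a1, a2, a3, ⟨d₁, b1, c1⟩, ⟨d₂, b2, c2⟩, ⟨d₃, b3, c3⟩⟩
  obtain ⟨p₁, p1, y₁, q1, r1⟩ := exit h1 h2 h3 hn a1
  obtain ⟨p₂, p2, y₂, q2, r2⟩ := exit h1 h2 h3 hn a2
  obtain ⟨p₃, p3, y₃, q3, r3⟩ := exit h1 h2 h3 hn a3
  have hx := abs_nonneg x.1
  have hB : box (2 * L + 2) ⊆ gsq (-n - 1 - r) (n + r) := fun y hy => by
    simp only [mem_box, mem_gsq] at hy ⊢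
    omega
  have T := top n (2 * L + 2) ((ω ∩ touching (box L)).map (shiftE (-x)).toEmbedding) _ d₁ d₂ d₃
    p₁ p₂ p₃ hn (by omega) (fun e he => ?_) (fun e he => ?_) b1 b2 b3
    (exits_mono hB subset_rfl c1) (exits_mono hB subset_rfl c2) (exits_mono hB subset_rfl c3)
    p1 p2 p3
  · rw [← map_eq] at T
    have s : ∀ p, shiftS (-x) (shiftS x p) = p := fun p => by simp [shiftS_apply]
    have key : ∀ {p p' y y'}, ¬ reach (((ω ∩ touching (box L)) \ (touching (box n)).map
        (shiftE x).toEmbedding).map (shiftE (-x)).toEmbedding) p p' →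
        reach ((ω ∩ touching (box L)) \ (touching (box n)).map (shiftE x).toEmbedding)
          (shiftS x p) y →
        reach ((ω ∩ touching (box L)) \ (touching (box n)).map (shiftE x).toEmbedding)
          (shiftS x p') y' →
        ¬ reach ((ω ∩ touching (box L)) \ (touching (box n)).map (shiftE x).toEmbedding) y y' :=
      fun {p p' y y'} k u u' l => k (by
        rw [← s p, ← s p']
        exact (aut_shift (-x)).reach.2 (Relation.ReflTransGen.trans u
          (Relation.ReflTransGen.trans l u'.symm)))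
    have en : ∀ {a b c p}, p ∈ half true (-n) n a b c →
        shiftS x p ∈ ends ((touching (box n)).map (shiftE x).toEmbedding) := fun k => by
      rw [(aut_shift x).ends]
      exact mem_map_of_mem _ (half_ends k).2
    have k12 := key T.1 r1 r2
    have k13 := key T.2.1 r1 r3
    have k23 := key T.2.2 r2 r3
    refine ⟨![y₁, y₂, y₃], fun k => ?_, fun k l e => ?_⟩
    · fin_cases k
      exacts [⟨q1, _, en p1, r1⟩, ⟨q2, _, en p2, r2⟩, ⟨q3, _, en p3, r3⟩]
    · fin_cases k <;> fin_cases l
      exacts [absurd rfl e, k12, k13, fun u => k12 u.symm, absurd rfl e, k23,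
        fun u => k13 u.symm, fun u => k23 u.symm, absurd rfl e]
  · obtain ⟨e, he', rfl⟩ := mem_map.1 he
    have := ends_touching (mem_inter.1 he').2
    simp only [Equiv.coe_toEmbedding, shift1, shift2, mem_box, shiftS_apply, Prod.fst_add,
      Prod.snd_add, Prod.fst_neg, Prod.snd_neg, abs_eq_max_neg] at this h1 h2 ⊢
    omega
  · obtain ⟨e1, e2⟩ := mem_sdiff.1 he
    exact ⟨fun k => (mem_filter.1 e1).2 (map_subset_map.2 inter_subset_left k),
      fun k => e2 (by simpa [rem] using dual_touching.2 k)⟩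

end

end Pool.Agent.MP_cb84d8_pr.PT
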