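import Pool.Agent.MP_cb84d8_pr.PT.Spec

/-! PROJECT POTTS: basic facts. -/

open Finset Filter Topology MeasureTheory

namespace Pool.Agent.MP_cb84d8_pr.PT

noncomputable section
open Classical

theorem ind_pos {P : Prop} (h : P) : ind P = 1 := if_pos h
theorem ind_neg {P : Prop} (h : ¬ P) : ind P = 0 := if_neg h
theorem ind_nonneg (P : Prop) : 0 ≤ ind P := by unfold ind; split_ifs <;> norm_num
theorem ind_le_one (P : Prop) : ind P ≤ 1 := by unfold ind; split_ifs <;> norm_num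
theorem ind_mono {P R : Prop} (h : P → R) : ind P ≤ ind R := by
  by_cases a : P
  · rw [ind_pos a, ind_pos (h a)]
  · rw [ind_neg a]; exact ind_nonneg _
theorem ind_congr {P R : Prop} (h : P ↔ R) : ind P = ind R := by rw [propext h]
theorem ind_and (P R : Prop) : ind (P ∧ R) = ind P * ind R := by
  by_cases a : P <;> by_cases b : R <;> simp [ind, a, b]
theorem ind_not (P : Prop) : ind (¬ P) = 1 - ind P := by by_cases a : P <;> simp [ind, a]

section fk
variable {v Q : ℝ} {F ξ : Finset Edge} {Λ : Finset Site} {f g : Finset Edge → ℝ}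

theorem fw_pos (hv : 0 < v) (hQ : 0 < Q) (Λ : Finset Site) (ξ ω : Finset Edge) :
    0 < fw v Q Λ ξ ω := by unfold fw; positivity

theorem fZ_pos (hv : 0 < v) (hQ : 0 < Q) (F : Finset Edge) (Λ : Finset Site) (ξ : Finset Edge) :
    0 < ∑ ω ∈ F.powerset, fw v Q Λ ξ ω :=
  sum_pos (fun _ _ => fw_pos hv hQ _ _ _) ⟨∅, empty_mem_powerset _⟩

theorem fk_mono (hv : 0 < v) (hQ : 0 < Q) (h : ∀ ω ⊆ F, f ω ≤ g ω) :
    fk v Q F Λ ξ f ≤ fk v Q F Λ ξ g :=
  div_le_div_of_nonneg_right (sum_le_sum fun ω hω =>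
    mul_le_mul_of_nonneg_left (h ω (mem_powerset.1 hω)) (fw_pos hv hQ _ _ _).le)
    (fZ_pos hv hQ _ _ _).le

theorem fk_congr (h : ∀ ω ⊆ F, f ω = g ω) : fk v Q F Λ ξ f = fk v Q F Λ ξ g := by
  unfold fk
  rw [sum_congr rfl fun ω hω => by rw [h ω (mem_powerset.1 hω)]]

theorem fk_const (hv : 0 < v) (hQ : 0 < Q) (c : ℝ) : fk v Q F Λ ξ (fun _ => c) = c := by
  unfold fk
  rw [← sum_mul, mul_div_cancel_left₀ _ (fZ_pos hv hQ _ _ _).ne']

theorem fk_add : fk v Q F Λ ξ (fun ω => f ω + g ω) = fk v Q F Λ ξ f + fk v Q F Λ ξ g := by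
  unfold fk
  simp only [mul_add, sum_add_distrib, add_div]

theorem fk_cmul (c : ℝ) : fk v Q F Λ ξ (fun ω => c * f ω) = c * fk v Q F Λ ξ f := by
  unfold fk
  rw [← mul_div_assoc, mul_sum]
  simp only [mul_left_comm c]

theorem fk_neg : fk v Q F Λ ξ (fun ω => - f ω) = - fk v Q F Λ ξ f := by
  simpa using fk_cmul (v := v) (Q := Q) (F := F) (Λ := Λ) (ξ := ξ) (f := f) (-1)

theorem fk_sub : fk v Q F Λ ξ (fun ω => f ω - g ω) = fk v Q F Λ ξ f - fk v Q F Λ ξ g := by
  simp only [sub_eq_add_neg]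
  rw [fk_add, fk_neg]

theorem fk_sum {ι : Type*} (s : Finset ι) (f : ι → Finset Edge → ℝ) :
    fk v Q F Λ ξ (fun ω => ∑ i ∈ s, f i ω) = ∑ i ∈ s, fk v Q F Λ ξ (f i) := by
  unfold fk
  simp only [mul_sum]
  rw [sum_comm, sum_div]

theorem fk_nonneg (hv : 0 < v) (hQ : 0 < Q) (h : ∀ ω ⊆ F, 0 ≤ f ω) : 0 ≤ fk v Q F Λ ξ f :=
  (fk_const (F := F) (Λ := Λ) (ξ := ξ) hv hQ 0).ge.trans (fk_mono hv hQ h)

theorem fk_le_const (hv : 0 < v) (hQ : 0 < Q) {c : ℝ} (h : ∀ ω ⊆ F, f ω ≤ c) :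
    fk v Q F Λ ξ f ≤ c := (fk_mono hv hQ h).trans (fk_const hv hQ c).le

/-- Equal weights up to a constant give equal means. -/
theorem fk_of_kk {Λ' : Finset Site} {ξ' : Finset Edge} (hQ : 0 < Q) (a : ℕ)
    (h : ∀ ω ⊆ F, kk Λ (ω ∪ ξ) = kk Λ' (ω ∪ ξ') + a) : fk v Q F Λ ξ f = fk v Q F Λ' ξ' f := by
  have e : ∀ ω ∈ F.powerset, fw v Q Λ ξ ω = Q ^ a * fw v Q Λ' ξ' ω := fun ω hω => by
    unfold fw
    rw [h ω (mem_powerset.1 hω), pow_add]
    ring
  unfold fk
  rw [sum_congr rfl e, sum_congr rfl fun ω hω => by rw [e ω hω, mul_assoc], ← mul_sum, ← mul_sum,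
    mul_div_mul_left _ _ (pow_pos hQ a).ne']

end fk

theorem mem_ends {F : Finset Edge} {x : Site} : x ∈ ends F ↔ ∃ e ∈ F, e.1 = x ∨ tip e = x := by
  simp only [ends, mem_union, mem_image]
  exact ⟨fun h => h.elim (fun ⟨e, a, b⟩ => ⟨e, a, Or.inl b⟩) fun ⟨e, a, b⟩ => ⟨e, a, Or.inr b⟩,
    fun ⟨e, a, b⟩ => b.imp (fun b => ⟨e, a, b⟩) fun b => ⟨e, a, b⟩⟩

theorem ends_mono {F F' : Finset Edge} (h : F ⊆ F') : ends F ⊆ ends F' := fun _ hx =>
  let ⟨e, a, b⟩ := mem_ends.1 hx; mem_ends.2 ⟨e, h a, b⟩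

/-- The free measure may be computed in any larger set of sites. -/
theorem IRR.fr (h : IRR) {v Q : ℝ} (hQ : 0 < Q) {F : Finset Edge} {Λ : Finset Site}
    (hΛ : ends F ⊆ Λ) (f : Finset Edge → ℝ) : fk v Q F Λ ∅ f = fr v Q F f :=
  fk_of_kk hQ _ fun ω hω => by
    rw [union_empty]; exact h.big _ _ _ (ends_mono hω) hΛ

theorem mem_gsq {s t : ℤ} {x : Site} : x ∈ gsq s t ↔ s ≤ x.1 ∧ x.1 ≤ t ∧ s ≤ x.2 ∧ x.2 ≤ t := by
  simp [gsq, and_assoc]

theorem gsq_box (n : ℤ) : gsq (-n) n = box n := rfl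

theorem sq_box (n : ℕ) : sq n = box n := rfl

theorem mem_inn {s t : ℤ} {e : Edge} : e ∈ inn s t ↔ e.1 ∈ gsq s t ∧ tip e ∈ gsq s t := by
  rw [inn, mem_filter, mem_touching]
  tauto

theorem dual_touching {n : ℤ} {e : Edge} : dual e ∈ inn (-n - 1) n ↔ e ∈ touching (box n) := by
  obtain ⟨⟨a, b⟩, _ | _⟩ := e <;>
    simp only [mem_inn, mem_gsq, mem_touching, mem_box, dual_true, dual_false, tip_true,
      tip_false] <;> omega

theorem ends_touching {n : ℤ} {e : Edge} (h : e ∈ touching (box n)) :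
    e.1 ∈ box (n + 1) ∧ tip e ∈ box (n + 1) := by
  obtain ⟨⟨a, b⟩, _ | _⟩ := e <;>
    simp only [mem_touching, mem_box, tip_true, tip_false] at h ⊢ <;> omega

theorem exits_mono {Λ Λ' : Finset Site} {ω ω' : Finset Edge} {x : Site} (hΛ : Λ' ⊆ Λ)
    (hω : ω ⊆ ω') (h : exits Λ ω x) : exits Λ' ω' x :=
  let ⟨y, a, b⟩ := h; ⟨y, fun k => a (hΛ k), b.mono hω⟩

/-- The first exit uses only edges that meet `Λ`. -/
theorem exits_loc {Λ : Finset Site} {ω : Finset Edge} {x : Site} :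
    exits Λ ω x ↔ exits Λ (ω ∩ touching Λ) x := by
  refine ⟨?_, exits_mono subset_rfl inter_subset_left⟩
  rintro ⟨y, a, b⟩
  induction b using Relation.ReflTransGen.head_induction_on with
  | refl => exact ⟨y, a, Relation.ReflTransGen.refl⟩
  | @head u w h _ ih =>
    by_cases k : u ∈ Λ
    · obtain ⟨z, c, d⟩ := ih
      obtain ⟨e, he, h⟩ := h
      refine ⟨z, c, Relation.ReflTransGen.head ⟨e, mem_inter.2 ⟨he, mem_touching.2 ?_⟩, h⟩ d⟩
      rcases h with h | h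
      · exact Or.inl (h.1 ▸ k)
      · exact Or.inr (h.2 ▸ k)
    · exact ⟨u, k, Relation.ReflTransGen.refl⟩

/-- A path ends at its start or at an end of an edge. -/
theorem reach_end {ω : Finset Edge} {x y : Site} (h : reach ω x y) : y = x ∨ y ∈ ends ω := by
  cases h with
  | refl => exact Or.inl rfl
  | tail _ h =>
    obtain ⟨e, he, h⟩ := h
    exact Or.inr (mem_ends.2 ⟨e, he, h.elim (fun k => Or.inr k.2) fun k => Or.inl k.1⟩)

section aut
variable {φ : Site ≃ Site} {ψ : Edge ≃ Edge}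

theorem Aut.symm (h : Aut φ ψ) : Aut φ.symm ψ.symm := fun e => by
  have := h (ψ.symm e)
  rw [Equiv.apply_symm_apply] at this
  rcases this with ⟨a, b⟩ | ⟨a, b⟩
  · exact Or.inl ⟨by rw [a, Equiv.symm_apply_apply], by rw [b, Equiv.symm_apply_apply]⟩
  · exact Or.inr ⟨by rw [b, Equiv.symm_apply_apply], by rw [a, Equiv.symm_apply_apply]⟩

theorem Aut.trans {φ' : Site ≃ Site} {ψ' : Edge ≃ Edge} (h : Aut φ ψ) (h' : Aut φ' ψ') :
    Aut (φ.trans φ') (ψ.trans ψ') := fun e => by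
  rcases h e with ⟨a, b⟩ | ⟨a, b⟩ <;> rcases h' (ψ e) with ⟨c, d⟩ | ⟨c, d⟩ <;>
    simp only [Equiv.trans_apply, c, d, a, b, and_self, true_or, or_true]

theorem Aut.lnk (h : Aut φ ψ) {ω : Finset Edge} {a b : Site} :
    lnk (ω.map ψ.toEmbedding) (φ a) (φ b) ↔ lnk ω a b := by
  constructor
  · rintro ⟨_, he, k⟩
    obtain ⟨e, he', rfl⟩ := mem_map.1 he
    refine ⟨e, he', ?_⟩
    rcases h e with ⟨c, d⟩ | ⟨c, d⟩ <;>
      simp only [Equiv.coe_toEmbedding, c, d, EmbeddingLike.apply_eq_iff_eq] at k <;> tauto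
  · rintro ⟨e, he, k⟩
    refine ⟨ψ e, mem_map.2 ⟨e, he, rfl⟩, ?_⟩
    rcases h e with ⟨c, d⟩ | ⟨c, d⟩ <;> simp only [c, d, EmbeddingLike.apply_eq_iff_eq] <;> tauto

theorem Aut.reach (h : Aut φ ψ) {ω : Finset Edge} {a b : Site} :
    reach (ω.map ψ.toEmbedding) (φ a) (φ b) ↔ reach ω a b := by
  constructor
  · intro k
    have : ∀ y, MP_cb84d8_pr.reach (ω.map ψ.toEmbedding) (φ a) y →
        MP_cb84d8_pr.reach ω a (φ.symm y) := fun y k => by
      induction k with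
      | refl => rw [Equiv.symm_apply_apply]; exact Relation.ReflTransGen.refl
      | tail _ l ih => exact ih.tail (h.lnk.1 (by simpa using l))
    simpa using this _ k
  · intro k
    induction k with
    | refl => exact Relation.ReflTransGen.refl
    | tail _ l ih => exact ih.tail (h.lnk.2 l)

theorem Aut.exits (h : Aut φ ψ) {Λ : Finset Site} {ω : Finset Edge} {a : Site} :
    exits (Λ.map φ.toEmbedding) (ω.map ψ.toEmbedding) (φ a) ↔ exits Λ ω a := by
  constructor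
  · rintro ⟨y, b, c⟩
    obtain ⟨y, rfl⟩ := φ.surjective y
    exact ⟨y, fun k => b (mem_map.2 ⟨y, k, rfl⟩), h.reach.1 c⟩
  · rintro ⟨y, b, c⟩
    exact ⟨φ y, by simpa using b, h.reach.2 c⟩

theorem Aut.touching (h : Aut φ ψ) (Λ : Finset Site) :
    touching (Λ.map φ.toEmbedding) = (touching Λ).map ψ.toEmbedding := by
  ext e
  obtain ⟨e, rfl⟩ := ψ.surjective e
  rcases h e with ⟨c, d⟩ | ⟨c, d⟩ <;> simp [mem_touching, c, d, or_comm]

theorem Aut.ends (h : Aut φ ψ) (F : Finset Edge) :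
    ends (F.map ψ.toEmbedding) = (ends F).map φ.toEmbedding := by
  ext x
  obtain ⟨x, rfl⟩ := φ.surjective x
  simp only [mem_ends, mem_map_equiv, Equiv.symm_apply_apply]
  constructor
  · rintro ⟨e, a, b⟩
    obtain ⟨e, rfl⟩ := ψ.surjective e
    refine ⟨e, by simpa using a, ?_⟩
    rcases h e with ⟨c, d⟩ | ⟨c, d⟩ <;>
      simp only [c, d, EmbeddingLike.apply_eq_iff_eq] at b <;> tauto
  · rintro ⟨e, a, b⟩
    refine ⟨ψ e, by simpa using a, ?_⟩
    rcases h e with ⟨c, d⟩ | ⟨c, d⟩ <;> simp only [c, d, EmbeddingLike.apply_eq_iff_eq] <;> tauto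

theorem aut_shift (d : Site) : Aut (shiftS d) (shiftE d) := fun e => Or.inl ⟨shift1 d e, shift2 d e⟩

theorem aut_swap : Aut (Equiv.prodComm _ _) swapE := fun e => Or.inl ⟨swap1 e, swap2 e⟩

/-- The reflection `(a, b) ↦ (s - a, b)`. -/
def reflS (s : ℤ) : Site ≃ Site := Equiv.prodCongr (Equiv.subLeft s) (Equiv.refl _)

def reflE (s : ℤ) : Edge ≃ Edge :=
  Function.Involutive.toPerm (fun e => ((s - e.1.1 - (if e.2 then 0 else 1), e.1.2), e.2))
    (by rintro ⟨⟨a, b⟩, _ | _⟩ <;> simp; ring)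

theorem reflS_apply (s : ℤ) (x : Site) : reflS s x = (s - x.1, x.2) := rfl

theorem aut_refl (s : ℤ) : Aut (reflS s) (reflE s) := by
  rintro ⟨⟨a, b⟩, _ | _⟩ <;> simp [reflE, reflS_apply, sub_add_eq_sub_sub]

theorem shiftS_apply (d x : Site) : shiftS d x = x + d := rfl

end aut

section loc
variable {A B : Ev}

theorem Loc.of {F : Finset Edge} (h : ∀ ω, A ω ↔ A (ω ∩ F)) {F' : Finset Edge} (k : F ⊆ F')
    (ω : Finset Edge) : A ω ↔ A (ω ∩ F') := by
  rw [h (ω ∩ F'), inter_assoc, inter_eq_right.2 k]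
  exact h ω

theorem loc_const (P : Prop) : Loc fun _ => P := ⟨∅, fun _ => Iff.rfl⟩

theorem Loc.not (h : Loc A) : Loc fun ω => ¬ A ω := h.imp fun _ k ω => not_congr (k ω)

theorem Loc.and (h : Loc A) (h' : Loc B) : Loc fun ω => A ω ∧ B ω :=
  let ⟨F, a⟩ := h; let ⟨G, b⟩ := h'
  ⟨F ∪ G, fun ω => and_congr (Loc.of a subset_union_left ω) (Loc.of b subset_union_right ω)⟩

theorem Loc.or (h : Loc A) (h' : Loc B) : Loc fun ω => A ω ∨ B ω :=
  let ⟨F, a⟩ := h; let ⟨G, b⟩ := h'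
  ⟨F ∪ G, fun ω => or_congr (Loc.of a subset_union_left ω) (Loc.of b subset_union_right ω)⟩

theorem loc_ex {ι : Type*} {I : Finset ι} {A : ι → Ev} (h : ∀ i ∈ I, Loc (A i)) :
    Loc fun ω => ∃ i ∈ I, A i ω := by
  induction I using Finset.induction_on with
  | empty => simpa using loc_const False
  | insert a I _ ih =>
    simpa using (h a (mem_insert_self _ _)).or (ih fun i k => h i (mem_insert_of_mem k))

theorem loc_exits (Λ : Finset Site) (x : Site) : Loc fun ω => exits Λ ω x :=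
  ⟨touching Λ, fun _ => exits_loc⟩

theorem loc_sub (E : Finset Edge) : Loc fun ω => E ⊆ ω := ⟨E, fun _ => by simp [subset_inter_iff]⟩

theorem loc_inter (F : Finset Edge) (A : Ev) : Loc fun ω => A (ω ∩ F) :=
  ⟨F, fun _ => by simp⟩

theorem Loc.sdiff (h : Loc A) (E : Finset Edge) : Loc fun ω => A (ω \ E) :=
  h.imp fun F k ω => by
    beta_reduce
    rw [k (ω \ E), show ω \ E ∩ F = (ω ∩ F) \ E by ext; simp; tauto]

theorem Loc.map (h : Loc A) (ψ : Edge ≃ Edge) : Loc fun ω => A (ω.map ψ.toEmbedding) :=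
  let ⟨F, k⟩ := h
  ⟨F.map ψ.symm.toEmbedding, fun ω => by
    beta_reduce
    rw [k (ω.map _), show ω.map ψ.toEmbedding ∩ F = (ω ∩ F.map ψ.symm.toEmbedding).map ψ.toEmbedding
      by ext; simp]⟩

theorem loc_du (F : Finset Edge) (A : Ev) : Loc fun ω => A (du F ω) :=
  ⟨F.map dual.symm.toEmbedding, fun ω => by
    beta_reduce
    rw [show du F (ω ∩ F.map dual.symm.toEmbedding) = du F ω from
      filter_congr fun e he => by simp [he]]⟩

theorem loc_arm (j : Bool) (s t r : ℤ) (a b c : Bool) : Loc (arm j s t r a b c) :=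
  loc_ex fun z _ => (loc_exits _ z).sdiff _

theorem inc_arm (j : Bool) (s t r : ℤ) (a b c : Bool) : Inc (arm j s t r a b c) :=
  fun _ _ h ⟨z, k, l⟩ => ⟨z, k, exits_mono subset_rfl (sdiff_subset_sdiff h subset_rfl) l⟩

theorem loc_darm (n r : ℤ) (a b c : Bool) : Loc (darm n r a b c) := loc_du _ _

theorem loc_six (n r : ℤ) : Loc (six n r) :=
  (loc_arm ..).and ((loc_arm ..).and ((loc_arm ..).and ((loc_darm ..).and
    ((loc_darm ..).and (loc_darm ..)))))

variable {pr : Ev → ℝ}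

theorem Fn0.congr (h : ∀ ω, A ω ↔ B ω) : pr A = pr B := by
  rw [show A = B from funext fun ω => propext (h ω)]

theorem Fn0.mono (h : Fn0 pr) (a : Loc A) (b : Loc B) (k : ∀ ω, A ω → B ω) : pr A ≤ pr B := by
  have := h.nn _ (b.and a.not)
  rw [h.add B A b a, Fn0.congr (pr := pr) (A := fun ω => B ω ∧ A ω) (B := A)
    fun ω => ⟨And.right, fun l => ⟨k ω l, l⟩⟩]
  linarith

theorem Fn0.compl (h : Fn0 pr) (a : Loc A) : pr (fun ω => ¬ A ω) = 1 - pr A := by
  have := h.add _ A (loc_const True) a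
  simp only [true_and, h.one] at this
  linarith

theorem Fn0.le_one (h : Fn0 pr) (a : Loc A) : pr A ≤ 1 := by
  have := h.compl a
  have := h.nn _ a.not
  linarith

theorem Fn0.or_le (h : Fn0 pr) (a : Loc A) (b : Loc B) :
    pr (fun ω => A ω ∨ B ω) ≤ pr A + pr B := by
  rw [h.add _ A (a.or b) a]
  exact add_le_add (h.mono ((a.or b).and a) a fun _ k => k.2)
    (h.mono ((a.or b).and a.not) b fun _ k => k.1.resolve_left k.2)

theorem Fn0.and_ge (h : Fn0 pr) (a : Loc A) (b : Loc B) :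
    pr A + pr B - 1 ≤ pr fun ω => A ω ∧ B ω := by
  have := h.add A B a b
  have := h.mono (a.and b.not) b.not fun _ k => k.2
  have := h.compl b
  linarith

theorem Fn0.ex_le (h : Fn0 pr) {ι : Type*} {I : Finset ι} {A : ι → Ev} (a : ∀ i ∈ I, Loc (A i)) :
    pr (fun ω => ∃ i ∈ I, A i ω) ≤ ∑ i ∈ I, pr (A i) := by
  induction I using Finset.induction_on with
  | empty =>
    have := h.compl (loc_const True)
    simp only [not_true, h.one] at this
    simp [this]
  | insert x I hx ih =>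
    have b := fun i k => a i (mem_insert_of_mem k)
    simp only [mem_insert, exists_eq_or_imp, sum_insert hx]
    exact (h.or_le (a x (mem_insert_self _ _)) (loc_ex b)).trans (add_le_add le_rfl (ih b))

end loc

section pav
variable {q : ℕ} [NeZero q] {β : ℝ} {Λ : Finset Site} {f g : Col q → ℝ}

theorem mem_pfill {σ : Col q} : σ ∈ pfill q Λ ↔ ∀ x, x ∉ Λ → σ x = 0 := by
  simp only [pfill, mem_image, mem_univ, true_and]
  refine ⟨fun ⟨s, e⟩ x hx => by rw [← e]; simp [hx], fun h => ⟨fun x => σ x, funext fun x => ?_⟩⟩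
  split_ifs with k
  · rfl
  · exact (h x k).symm

omit [NeZero q] in
theorem pw_pos (β : ℝ) (Λ : Finset Site) (σ : Col q) : 0 < pw β Λ σ := Real.exp_pos _

theorem pZ_pos (β : ℝ) (Λ : Finset Site) : 0 < ∑ σ ∈ pfill q Λ, pw β Λ σ :=
  sum_pos (fun _ _ => pw_pos _ _ _) ⟨fun _ => 0, mem_pfill.2 fun _ _ => rfl⟩

theorem pav_mono (h : ∀ σ ∈ pfill q Λ, f σ ≤ g σ) : pav β Λ f ≤ pav β Λ g :=
  div_le_div_of_nonneg_right (sum_le_sum fun σ hσ =>
    mul_le_mul_of_nonneg_left (h σ hσ) (pw_pos _ _ _).le) (pZ_pos _ _).le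

theorem pav_const (c : ℝ) : pav (q := q) β Λ (fun _ => c) = c := by
  unfold pav
  rw [← sum_mul, mul_div_cancel_left₀ _ (pZ_pos _ _).ne']

theorem pav_add : pav β Λ (fun σ => f σ + g σ) = pav β Λ f + pav β Λ g := by
  unfold pav
  simp only [mul_add, sum_add_distrib, add_div]

theorem pav_cmul (c : ℝ) : pav β Λ (fun σ => c * f σ) = c * pav β Λ f := by
  unfold pav
  rw [← mul_div_assoc, mul_sum]
  simp only [mul_left_comm c]

theorem pav_sum {ι : Type*} (s : Finset ι) (f : ι → Col q → ℝ) :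
    pav β Λ (fun σ => ∑ i ∈ s, f i σ) = ∑ i ∈ s, pav β Λ (f i) := by
  unfold pav
  simp only [mul_sum]
  rw [sum_comm, sum_div]

theorem hb_nonneg (β : ℝ) (σ : Col q) (x : Site) (c : Fin q) : 0 ≤ hb β σ x c := by
  unfold hb
  positivity

theorem hb_sum (β : ℝ) (σ : Col q) (x : Site) : ∑ c, hb β σ x c = 1 := by
  unfold hb
  rw [← sum_div, div_self (sum_pos (fun _ _ => Real.exp_pos _) univ_nonempty).ne']

omit [NeZero q] in
theorem hb_congr (β : ℝ) {σ σ' : Col q} {x : Site} (h : ∀ y, Adj y x → σ y = σ' y) :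
    hb β σ x = hb β σ' x := by
  have : nb σ x = nb σ' x := funext fun c => congrArg card (filter_congr fun y hy => by
    rw [h y]
    simp only [mem_insert, mem_singleton] at hy
    rcases hy with rfl | rfl | rfl | rfl <;> simp [Adj])
  unfold hb
  rw [this]

theorem beta_pos (h : Real.log (1 + √q) ≤ β) : 0 < β ∧ √(q : ℝ) ≤ Real.exp β - 1 ∧ (1 : ℝ) ≤ q := by
  have h1 : (1 : ℝ) ≤ q := by exact_mod_cast NeZero.one_le
  have h2 : 0 < √(q : ℝ) := Real.sqrt_pos.2 (by linarith)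
  have h3 := (Real.log_le_iff_le_exp (by linarith)).1 h
  exact ⟨(Real.log_pos (by linarith)).trans_le h, by linarith, h1⟩

theorem eps_pos (h : 0 < β) : 0 < eps β := by
  have := Real.exp_pos (-β)
  refine pow_pos (sub_pos.2 ((Real.sqrt_lt' one_pos).2 (by linarith))) _

end pav

theorem crossing_of_path {good : Site → Prop} {m N : ℤ} (h : m ≤ N) {x y : Site} (hx : x ∈ box m)
    (hy : y ∉ box N) (hp : Relation.ReflTransGen (fun a b => Near a b ∧ good a ∧ good b) x y) :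
    crossing good m N := by
  have key : crossing good m N ∨ (x ∉ box m ∧ Relation.ReflTransGen
      (fun a b => Near a b ∧ (good a ∧ a ∉ box (m - 1)) ∧ (good b ∧ b ∉ box (m - 1))) x y) := by
    clear hx
    induction hp using Relation.ReflTransGen.head_induction_on with
    | refl => exact Or.inr ⟨fun h' => hy (box_mono h h'), Relation.ReflTransGen.refl⟩
    | @head a b hab _ ih =>
      rcases ih with ih | ⟨hb, ih⟩
      · exact Or.inl ih
      · have ha : a ∉ box (m - 1) := by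
          have := hab.1
          simp only [mem_box, Near, abs_le] at this hb ⊢
          omega
        have hb' : b ∉ box (m - 1) := fun h' => hb (box_mono (by omega) h')
        have := Relation.ReflTransGen.head ⟨hab.1, ⟨hab.2.1, ha⟩, hab.2.2, hb'⟩ ih
        by_cases ha' : a ∈ box m
        · exact Or.inl ⟨a, ha', y, hy, this⟩
        · exact Or.inr ⟨ha', this⟩
  exact key.resolve_right fun h => h.1 hx

theorem crossing.mono {good good' : Site → Prop} {m N : ℤ}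
    (h : ∀ a, a ∉ box (m - 1) → good a → good' a) (hc : crossing good m N) :
    crossing good' m N := by
  obtain ⟨x, hx, y, hy, hp⟩ := hc
  exact ⟨x, hx, y, hy, rtg_mono (fun a b h' => ⟨h'.1, ⟨h a h'.2.1.2 h'.2.1.1, h'.2.1.2⟩,
    h b h'.2.2.2 h'.2.2.1, h'.2.2.2⟩) hp⟩

theorem crossing.grow {good : Site → Prop} {m m' N : ℤ} (h : m ≤ m') (h' : m' ≤ N)
    (hc : crossing good m N) : crossing good m' N := by
  obtain ⟨x, hx, y, hy, hp⟩ := hc
  exact crossing_of_path h' (box_mono h hx) hy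
    (rtg_mono (fun a b h' => ⟨h'.1, h'.2.1.1, h'.2.2.1⟩) hp)

/-- A crossing may be stopped at its first exit. -/
theorem crossing_cut {good : Site → Prop} {m N : ℤ} (h : m ≤ N) (hc : crossing good m N) :
    crossing (fun a => a ∈ box (N + 1) ∧ good a) m N := by
  obtain ⟨x, hx, y, hy, hp⟩ := hc
  refine ⟨x, hx, ?_⟩
  have hx' := box_mono h hx
  clear hx
  induction hp using Relation.ReflTransGen.head_induction_on with
  | refl => exact absurd hx' hy
  | @head a b hab _ ih =>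
    have hb : b ∈ box (N + 1) := by
      have := hab.1
      simp only [mem_box, Near, abs_le] at this hx' ⊢
      omega
    have l : Near a b ∧ ((a ∈ box (N + 1) ∧ good a) ∧ a ∉ box (m - 1)) ∧
        (b ∈ box (N + 1) ∧ good b) ∧ b ∉ box (m - 1) :=
      ⟨hab.1, ⟨⟨box_mono (by omega) hx', hab.2.1.1⟩, hab.2.1.2⟩, ⟨hb, hab.2.2.1⟩, hab.2.2.2⟩
    by_cases k : b ∈ box N
    · obtain ⟨z, c, d⟩ := ih k
      exact ⟨z, c, Relation.ReflTransGen.head l d⟩
    · exact ⟨b, k, Relation.ReflTransGen.single l⟩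

end

end Pool.Agent.MP_cb84d8_pr.PT
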