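import Mathlib.MeasureTheory.Measure.Prokhorov
import Mathlib.MeasureTheory.Measure.LevyProkhorovMetric
import Mathlib.MeasureTheory.Measure.Portmanteau
import Pool.Agent.MP_cb84d8_pr.PT.Basic

/-! PROJECT POTTS: an ordered state exists. -/

open Finset Filter Topology MeasureTheory

namespace Pool.Agent.MP_cb84d8_pr.PT

noncomputable section
open Classical

variable {q : ℕ} [NeZero q]

/-- The finite volume measure. -/
def exo_gam (q : ℕ) [NeZero q] (β : ℝ) (Λ : Finset Site) : Measure (Col q) :=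
  ∑ σ ∈ pfill q Λ, ENNReal.ofReal (pw β Λ σ / ∑ ξ ∈ pfill q Λ, pw β Λ ξ) • Measure.dirac σ

theorem exo_real (β : ℝ) (Λ : Finset Site) {A : Set (Col q)} (hA : MeasurableSet A) :
    exo_gam q β Λ A = ENNReal.ofReal (pav β Λ (A.indicator 1)) := by
  have hw : ∀ σ : Col q, 0 ≤ pw β Λ σ / ∑ ξ ∈ pfill q Λ, pw β Λ ξ :=
    fun σ => div_nonneg (pw_pos _ _ _).le (pZ_pos _ _).le
  have hi : ∀ σ : Col q, 0 ≤ A.indicator (1 : Col q → ℝ) σ :=
    fun σ => Set.indicator_nonneg (fun _ _ => zero_le_one) σ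
  unfold exo_gam pav
  rw [Measure.finsetSum_apply, sum_div, ENNReal.ofReal_sum_of_nonneg fun σ _ =>
    div_nonneg (mul_nonneg (pw_pos _ _ _).le (hi σ)) (pZ_pos _ _).le]
  refine sum_congr rfl fun σ _ => ?_
  rw [Measure.smul_apply, Measure.dirac_apply' _ hA, smul_eq_mul]
  by_cases h : σ ∈ A <;> simp [h]

theorem exo_prob (β : ℝ) (Λ : Finset Site) : IsProbabilityMeasure (exo_gam q β Λ) :=
  ⟨by rw [exo_real _ _ MeasurableSet.univ, Set.indicator_univ,
    show (1 : Col q → ℝ) = fun _ => 1 from rfl, pav_const, ENNReal.ofReal_one]⟩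

omit [NeZero q] in
theorem exo_clopen (K : Finset Site) (τ : Col q) : IsClopen (cyl K τ) := by
  have : cyl K τ = ⋂ x ∈ K, (fun σ : Col q => σ x) ⁻¹' {τ x} := by
    ext σ
    simp [cyl]
  rw [this]
  exact isClopen_biInter_finset fun x _ =>
    (isClopen_discrete _).preimage (continuous_apply x)

theorem rexo : EXO := by
  intro q _ β
  let P : ℕ → ProbabilityMeasure (Col q) := fun N => ⟨exo_gam q β (sq N), exo_prob _ _⟩
  obtain ⟨μ, N, hN, hμ⟩ := CompactSpace.tendsto_subseq P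
  refine ⟨μ, inferInstance, N, hN.tendsto_atTop, fun K τ => ?_⟩
  have hc := exo_clopen K τ
  have h1 := ProbabilityMeasure.tendsto_measure_of_isClopen_of_tendsto hμ hc
  have h2 := (NNReal.continuous_coe.tendsto _).comp h1
  have h0 : ∀ Λ : Finset Site, 0 ≤ pav β Λ ((cyl K τ).indicator 1) := fun Λ =>
    (pav_const (q := q) (β := β) (Λ := Λ) 0).ge.trans
      (pav_mono fun σ _ => Set.indicator_nonneg (fun _ _ => zero_le_one) σ)
  refine h2.congr fun k => ?_
  change ((exo_gam q β (sq (N k))) (cyl K τ)).toReal = _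
  rw [exo_real _ _ hc.isOpen.measurableSet, ENNReal.toReal_ofReal (h0 _)]

end

end Pool.Agent.MP_cb84d8_pr.PT
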