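import Pool.Agent.MP_cb84d8_pr.PT.Basic

/-! Row EXP: a path of the dynamics exists. -/

namespace Pool.Agent.MP_cb84d8_pr.PT

noncomputable section
open Classical

namespace RExp

variable {q : ℕ}

/-- The colour given at the last ring. -/
def out (σ₀ : Col q) (E : Site → ℕ → ℝ) (v : Site × ℕ → Fin q) (t : ℝ) : Col q := fun x =>
  if h : ∃ n, ring E x n ≤ t ∧ t < ring E x (n + 1) then v (x, h.choose) else σ₀ x

variable {σ₀ : Col q} {E : Site → ℕ → ℝ} {v : Site × ℕ → Fin q} {t : ℝ} {x : Site}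

theorem out_zero (h : Regular E) (ht : t < ring E x 0) : out σ₀ E v t x = σ₀ x :=
  dif_neg fun ⟨n, a, _⟩ => (((h.strictMono x).monotone n.zero_le).trans a).not_gt ht

theorem out_ring (h : Regular E) {n : ℕ} (a : ring E x n ≤ t) (b : t < ring E x (n + 1)) :
    out σ₀ E v t x = v (x, n) := by
  have k : ∃ n, ring E x n ≤ t ∧ t < ring E x (n + 1) := ⟨n, a, b⟩
  have c := (h.strictMono x).lt_iff_lt.1 (k.choose_spec.1.trans_lt b)
  have d := (h.strictMono x).lt_iff_lt.1 (a.trans_lt k.choose_spec.2)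
  rw [out, dif_pos k, show k.choose = n by omega]

end RExp

open RExp in
theorem rexp : PCK → EXP := by
  intro pck q _ β σ₀ E U h hU
  obtain ⟨v, hv⟩ : ∃ v : Site × ℕ → Fin q, ∀ r, v r = pick (hb β (out σ₀ E
      (fun s => if rel E s r then v s else 0) (ring E r.1 r.2)) r.1) (U r) :=
    ⟨h.wf.fix fun r g => pick (hb β (out σ₀ E (fun s => if k : rel E s r then g s k else 0)
      (ring E r.1 r.2)) r.1) (U r), fun r => by rw [h.wf.fix_eq]; rfl⟩
  refine ⟨out σ₀ E v, fun x => ⟨fun t _ ht => out_zero h.reg ht, fun n t a b c => ?_⟩⟩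
  have e : hb β (out σ₀ E (fun s => if rel E s (x, n) then v s else 0) (ring E x n)) x =
      hb β (out σ₀ E v (ring E x n)) x := hb_congr β fun y hy => by
    have hne : y ≠ x := fun k => by simp [k, Adj] at hy
    by_cases k : ∃ m, ring E y m ≤ ring E x n ∧ ring E x n < ring E y (m + 1)
    · obtain ⟨m, k1, k2⟩ := k
      rw [out_ring h.reg k1 k2, out_ring h.reg k1 k2]
      exact if_pos ⟨hy, k1.lt_of_ne (h.dis y x hne m n)⟩
    · rw [out, out, dif_neg k, dif_neg k]
  rw [out_ring h.reg a b, hv, e]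
  exact (pck q _ (hb_nonneg β _ x) (hb_sum β _ x)).1 _ (hU _) c

end

end Pool.Agent.MP_cb84d8_pr.PT
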