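import Pool.Agent.MP_cb84d8_pr.PT.Basic

/-! PROJECT POTTS: row FIN, dual connections are short in finite volume. -/

open Finset Filter Topology MeasureTheory

namespace Pool.Agent.MP_cb84d8_pr.PT

noncomputable section
open Classical

theorem rfin : HOL → DUA → LIM → FN0 → FN1 → FN2 → ZH → FIN := by
  intro hol dua lim f0 f1 f2 zh v Q ε m hQ hv hε hm
  have q0 : 0 < √Q := Real.sqrt_pos.2 (by linarith)
  have h0 := f0 √Q Q q0 hQ
  have c0 : (0 : ℝ) < (box (m + 1)).card := by
    exact_mod_cast card_pos.2 ⟨0, mem_box.2 (by simp only [Prod.fst_zero, Prod.snd_zero]; omega)⟩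
  obtain ⟨r, hr⟩ := zh _ h0 (f1 √Q Q q0 hQ) (f2 Q hQ) _ (div_pos hε c0)
  have ar := le_abs_self r
  have a0 := abs_nonneg r
  refine ⟨m + 1 + |r|, by linarith, fun N hN => ?_⟩
  obtain ⟨A, hA⟩ : ∃ A : Ev, A = fun ζ => ∃ f ∈ box (m + 1), exits (box (m + 1 + |r|)) ζ f :=
    ⟨_, rfl⟩
  have lA : Loc A := hA ▸ loc_ex fun f _ => loc_exits _ f
  have iA : Inc A := hA ▸ fun _ _ h ⟨f, a, b⟩ => ⟨f, a, exits_mono subset_rfl h b⟩
  have s1 := hol.hol √Q v Q (touching (box N)) (touching (box N)) ∅ ∅ (box N) (box N)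
    (fun ω => - ind (A (dualOf (touching (box N)) ω))) q0 hv hQ subset_rfl subset_rfl subset_rfl
    (disjoint_empty_right _) fun a b h => neg_le_neg (ind_mono (iA _ _
      (map_subset_map.2 (sdiff_subset_sdiff subset_rfl h))))
  rw [fk_neg, fk_neg, neg_le_neg_iff] at s1
  have s2 := dua Q N (fun ζ => ind (A ζ)) hQ (by linarith)
  have s3 := (lim √Q Q A q0 hQ lA).2 iA ((touching (box N)).map dual.toEmbedding)
  have s4 : prf √Q Q A ≤ ε := by
    rw [hA]
    refine (h0.ex_le fun f _ => loc_exits _ f).trans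
      ((sum_le_card_nsmul _ _ (ε / (box (m + 1)).card) fun f hf => ?_).trans ?_)
    · refine le_trans ?_ hr
      rw [← h0.inv _ _ (aut_shift (-f)) _ (loc_exits (box r) 0)]
      refine h0.mono (loc_exits _ f) ((loc_exits (box r) 0).map _) fun ω k => ?_
      have k' := (aut_shift (-f)).exits.2 k
      rw [shiftS_apply, add_neg_cancel] at k'
      refine exits_mono (fun z hz => mem_map.2 ⟨z + f, ?_, ?_⟩) subset_rfl k'
      · simp only [mem_box, Prod.fst_add, Prod.snd_add] at hz hf ⊢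
        omega
      · rw [Equiv.coe_toEmbedding, shiftS_apply, add_neg_cancel_right]
    · rw [nsmul_eq_mul, mul_div_cancel₀ _ c0.ne']
  rw [wr] at s2 ⊢
  have e := s1.trans (s2.le.trans (s3.trans s4))
  rwa [hA] at e

end

end Pool.Agent.MP_cb84d8_pr.PT
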