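import Pool.Agent.MP_cb84d8_pr.PT.Basic

/-! PROJECT POTTS: the first properties of the free limit. -/

open Finset Filter Topology

namespace Pool.Agent.MP_cb84d8_pr.PT

noncomputable section
open Classical

namespace RFn0

theorem fr_map (hI : IRR) {φ : Site ≃ Site} {ψ : Edge ≃ Edge} (h : Aut φ ψ) (v Q : ℝ)
    (G : Finset Edge) (f : Finset Edge → ℝ) :
    fr v Q G (fun ω => f (ω.map ψ.toEmbedding)) = fr v Q (G.map ψ.toEmbedding) f := by
  have key : ∀ g : Finset Edge → ℝ, ∑ ω ∈ G.powerset, fw v Q (ends G) ∅ ω * g (ω.map ψ.toEmbedding)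
      = ∑ ω ∈ (G.map ψ.toEmbedding).powerset, fw v Q (ends (G.map ψ.toEmbedding)) ∅ ω * g ω := by
    intro g
    refine sum_nbij' (fun ω => ω.map ψ.toEmbedding) (fun ω => ω.map ψ.symm.toEmbedding)
      (fun ω hω => ?_) (fun ω hω => ?_) (fun ω _ => ?_) (fun ω _ => ?_) fun ω _ => ?_
    · exact mem_powerset.2 (map_subset_map.2 (mem_powerset.1 hω))
    · refine mem_powerset.2 fun e he => ?_
      simpa using mem_powerset.1 hω (mem_map_equiv.1 he)
    · ext e
      simp
    · ext e
      simp
    · simp only [fw, union_empty, card_map, h.ends, hI.aut φ ψ h]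
  have k1 := key fun _ => 1
  simp only [mul_one] at k1
  unfold fr fk
  rw [key, k1]

theorem tend (ψ : Edge ≃ Edge) :
    Tendsto (fun G : Finset Edge => G.map ψ.toEmbedding) atTop atTop :=
  tendsto_atTop_atTop.2 fun b => ⟨b.map ψ.symm.toEmbedding, fun _ ha e he =>
    mem_map_equiv.2 (ha (by simpa using he))⟩

end RFn0

open RFn0 in
theorem rfn0 : IRR → HOL → LIM → FN0 := by
  intro hI hH hL v Q hv hQ
  have h0 : 0 < Q := by linarith
  have T := fun A hA => (hL v Q A hv hQ hA).1
  refine ⟨?_, fun A hA => ?_, fun A B hA hB => ?_, fun ι I A M hA hM => ?_,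
    fun φ ψ h A hA => ?_, fun A B hA hB dA dB => ?_⟩
  · refine tendsto_nhds_unique (T _ (loc_const True)) (tendsto_const_nhds.congr fun G => ?_)
    rw [ind_pos trivial]
    exact (fk_const hv h0 1).symm
  · exact ge_of_tendsto' (T A hA) fun G => fk_nonneg hv h0 fun _ _ => ind_nonneg _
  · refine tendsto_nhds_unique (T A hA)
      (((T _ (hA.and hB)).add (T _ (hA.and hB.not))).congr fun G => ?_)
    refine fk_add.symm.trans (fk_congr fun ω _ => ?_)
    rw [ind_and, ind_and, ind_not]
    ring
  · refine le_of_tendsto' (tendsto_finsetSum I fun i hi => T _ (hA i hi)) fun G => ?_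
    refine (fk_sum I fun i ω => ind (A i ω)).ge.trans (fk_le_const hv h0 fun ω _ => ?_)
    refine le_trans (le_of_eq ?_) (Nat.cast_le.2 (hM ω))
    simp only [ind, sum_boole]
  · exact tendsto_nhds_unique (T _ (hA.map ψ))
      (((T A hA).comp (tend ψ)).congr fun G => (fr_map hI h v Q G fun ω => ind (A ω)).symm)
  · refine le_of_tendsto_of_tendsto' ((T A hA).mul (T B hB)) (T _ (hA.and hB)) fun G => ?_
    simp only [ind_and]
    exact hH.fkg v Q G _ _ _ hv hQ (fun a b k => ind_mono (dA a b k))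
      fun a b k => ind_mono (dB a b k)

end

end Pool.Agent.MP_cb84d8_pr.PT
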