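import Pool.Agent.MP_cb84d8_pr.PT.Basic

/-! PROJECT POTTS: row FN1 (finite energy and mixing of the free limit). -/

open Finset Filter Topology

namespace Pool.Agent.MP_cb84d8_pr.PT

noncomputable section
open Classical

namespace RFn1

theorem key (hI : IRR) (hH : HOL) (hC : COND) {v Q : ℝ} (hv : 0 < v) (hQ : 1 ≤ Q)
    {F G : Finset Edge} (hG : F ⊆ G) {f : Finset Edge → ℝ} (hf : Antitone f) {A : Ev}
    (hA : Out F A) :
    fr v Q G (fun ω => f (ω ∩ F) * ind (A ω)) ≤ fr v Q F f * fr v Q G fun ω => ind (A ω) := by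
  have hQ0 : 0 < Q := by linarith
  have e : ∀ ω, ind (A ω) = ind (A (ω \ F)) := fun ω => ind_congr (hA ω)
  have := hC v Q (fr v Q F f) G F (ends G) f (fun ω => ind (A ω)) hv hQ0 hG
    (fun _ => ind_nonneg _) fun ξ hξ => by
      have h := hH.hol v v Q F F ∅ ξ (ends G) (ends G) (fun ω => - f ω) hv le_rfl hQ subset_rfl
        subset_rfl (empty_subset _) (disjoint_sdiff.mono_right hξ) hf.neg
      rw [fk_neg, fk_neg, hI.fr hQ0 (ends_mono hG)] at h
      linarith
  simp only [← e] at this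
  exact this

theorem pos {v Q : ℝ} (hv : 0 < v) (hQ : 0 < Q) (E : Finset Edge) :
    0 < fr v Q E fun ω => ind (E ⊆ ω) := by
  refine div_pos (sum_pos' (fun ω _ => mul_nonneg (fw_pos hv hQ _ _ _).le (ind_nonneg _))
    ⟨E, mem_powerset_self _, ?_⟩) (fZ_pos hv hQ _ _ _)
  beta_reduce
  rw [ind_pos (Subset.refl E), mul_one]
  exact fw_pos hv hQ _ _ _

end RFn1

theorem rfn1 : IRR → HOL → COND → LIM → FN1 := by
  intro hI hH hC hL v Q hv hQ
  have hQ0 : 0 < Q := by linarith
  refine ⟨fun E => ⟨_, RFn1.pos hv hQ0 E, fun A hA ho => ?_⟩, fun D hD hd ε hε => ?_⟩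
  · refine le_of_tendsto_of_tendsto ((hL v Q A hv hQ hA).1.const_mul _)
      (hL v Q _ hv hQ (hA.and (loc_sub E))).1 ((eventually_ge_atTop E).mono fun G hG => ?_)
    have := RFn1.key hI hH hC hv hQ (F := E) (G := G) hG (f := fun ω => - ind (E ⊆ ω))
      (fun a b h => neg_le_neg (ind_mono fun k => k.trans h)) ho
    have e : (fun ω => - ind (E ⊆ ω ∩ E) * ind (A ω)) = fun ω => - ind (A ω ∧ E ⊆ ω) := by
      funext ω
      rw [ind_and, ind_congr (show E ⊆ ω ∩ E ↔ E ⊆ ω by simp [subset_inter_iff])]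
      ring
    rw [e] at this
    unfold fr at this ⊢
    rw [fk_neg, fk_neg] at this
    linarith
  · obtain ⟨S, hS⟩ := id hD
    obtain ⟨F, h1, h2⟩ := ((eventually_ge_atTop S).and ((hL v Q D hv hQ hD).1.eventually
      (eventually_le_nhds (lt_add_of_pos_right _ hε)))).exists
    refine ⟨F, fun A hA ho => le_of_tendsto_of_tendsto (hL v Q _ hv hQ (hD.and hA)).1
      ((hL v Q A hv hQ hA).1.const_mul _) ((eventually_ge_atTop F).mono fun G hG => ?_)⟩
    have := RFn1.key hI hH hC hv hQ (F := F) (G := G) hG (f := fun ω => ind (D ω))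
      (fun a b h => ind_mono (hd a b h)) ho
    have e : (fun ω => ind (D (ω ∩ F)) * ind (A ω)) = fun ω => ind (D ω ∧ A ω) := by
      funext ω
      rw [ind_and, ind_congr (Loc.of hS h1 ω)]
    rw [e] at this
    exact this.trans (mul_le_mul_of_nonneg_right h2 (fk_nonneg hv hQ0 fun _ _ => ind_nonneg _))

end

end Pool.Agent.MP_cb84d8_pr.PT
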