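import Pool.Agent.MP_cb84d8_pr.PT.Basic

/-! PROJECT POTTS: the free limit at the self-dual point is dominated by its dual. -/

open Finset Filter Topology MeasureTheory

namespace Pool.Agent.MP_cb84d8_pr.PT

noncomputable section
open Classical

namespace RFn2

theorem ev_mem (e : Edge) : ∀ᶠ N : ℤ in atTop, e ∈ touching (box N) := by
  filter_upwards [eventually_ge_atTop (|e.1.1| + |e.1.2|)] with N hN
  refine mem_touching.2 (Or.inl (mem_box.2 ?_))
  have := abs_nonneg e.1.1
  have := abs_nonneg e.1.2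
  have := le_abs_self e.1.1
  have := le_abs_self e.1.2
  have := neg_abs_le e.1.1
  have := neg_abs_le e.1.2
  omega

theorem tend_map (ψ : Edge ≃ Edge) :
    Tendsto (fun N : ℤ => (touching (box N)).map ψ.toEmbedding) atTop atTop := by
  refine tendsto_atTop.2 fun F => ?_
  have : ∀ᶠ N : ℤ in atTop, ∀ e ∈ F, ψ.symm e ∈ touching (box N) :=
    (eventually_all_finset F).2 fun e _ => ev_mem _
  filter_upwards [this] with N hN e he
  exact mem_map_equiv.2 (hN e he)

theorem tend : Tendsto (fun N : ℤ => touching (box N)) atTop atTop := by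
  simpa using tend_map (Equiv.refl _)

theorem dual_dual (e : Edge) : dual (dual e) = shiftE (-1, -1) e := by
  obtain ⟨⟨a, b⟩, _ | _⟩ := e <;> simp [shiftE, sub_eq_add_neg]

theorem du_dualOf {F T : Finset Edge} (h : ∀ e ∈ F, (shiftE (-1, -1)).symm e ∈ T)
    (ω : Finset Edge) : du F (dualOf T ω) = ω.map (shiftE (-1, -1)).toEmbedding ∩ F := by
  ext e
  have k : dual.symm e = dual ((shiftE (-1, -1)).symm e) := by
    rw [Equiv.symm_apply_eq, dual_dual, Equiv.apply_symm_apply]
  rw [du, mem_filter, k, mem_dualOf, mem_inter, mem_map_equiv]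
  constructor
  · rintro ⟨a, b⟩
    exact ⟨by_contra fun c => b ⟨h e a, c⟩, a⟩
  · rintro ⟨a, b⟩
    exact ⟨b, fun c => c.2 a⟩

theorem box_ends (N : ℤ) : box N ⊆ ends (touching (box N)) := fun x hx =>
  mem_ends.2 ⟨(x, true), mem_touching.2 (Or.inl hx), Or.inl rfl⟩

end RFn2

open RFn2 in
theorem rfn2 : IRR → HOL → DUA → LIM → FN0 → FN2 := by
  intro _ hH hD hL h0 Q hQ F A hA
  have hv : 0 < √Q := Real.sqrt_pos.2 (by linarith)
  have l1 := ((hL √Q Q _ hv hQ (loc_du F A)).1).comp (tend_map dual)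
  have l2 := ((hL √Q Q _ hv hQ ((loc_inter F A).map (shiftE (-1, -1)))).1).comp tend
  rw [(h0 √Q Q hv hQ).inv _ _ (aut_shift (-1, -1)) _ (loc_inter F A)] at l2
  refine le_of_tendsto_of_tendsto l2 l1 ?_
  have : ∀ᶠ N : ℤ in atTop, ∀ e ∈ F, (shiftE (-1, -1)).symm e ∈ touching (box N) :=
    (eventually_all_finset F).2 fun e _ => ev_mem _
  filter_upwards [this, eventually_ge_atTop (0 : ℤ)] with N hN hN0
  simp only [Function.comp]
  rw [← hD Q N (fun ω => ind (A (du F ω))) hQ hN0]
  simp only [du_dualOf hN]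
  exact hH.hol _ _ _ _ _ _ _ _ _ _ hv le_rfl hQ subset_rfl (box_ends N) subset_rfl
    (disjoint_empty_right _) fun ω ω' h => ind_mono (hA _ _ (inter_subset_inter_right
      (map_subset_map.2 h)))

end

end Pool.Agent.MP_cb84d8_pr.PT
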