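import Pool.Agent.MP_cb84d8_pr.PT.Basic

/-! PROJECT POTTS: comparison of boundary conditions and positive association. -/

open Finset

namespace Pool.Agent.MP_cb84d8_pr.PT

noncomputable section
open Classical

namespace RHol

theorem four {F F' : Finset Edge} (hF : F ⊆ F') {f₁ f₂ f₃ f₄ : Finset Edge → ℝ}
    (h₁ : ∀ a, 0 ≤ f₁ a) (h₂ : ∀ a, 0 ≤ f₂ a) (h₃ : ∀ a, 0 ≤ f₃ a) (h₄ : ∀ a, 0 ≤ f₄ a)
    (h : ∀ a ⊆ F, ∀ b, f₁ a * f₂ b ≤ f₃ (a ∩ b) * f₄ (a ∪ b)) :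
    (∑ a ∈ F.powerset, f₁ a) * ∑ a ∈ F'.powerset, f₂ a ≤
      (∑ a ∈ F.powerset, f₃ a) * ∑ a ∈ F'.powerset, f₄ a := by
  have k := Finset.four_functions_theorem (f₁ := fun a => if a ⊆ F then f₁ a else 0) F'
    (fun a => by
      beta_reduce
      split_ifs
      exacts [h₁ a, le_rfl]) h₂ h₃ h₄ (fun a _ b _ => by
      split_ifs with c
      · exact h a c b
      · rw [zero_mul]
        exact mul_nonneg (h₃ _) (h₄ _)) (powerset_mono.2 hF) subset_rfl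
  rw [sum_congr rfl fun a ha => if_pos (mem_powerset.1 ha)] at k
  refine k.trans (mul_le_mul (sum_le_sum_of_subset_of_nonneg (fun x hx => ?_) fun _ _ _ => h₃ _)
    (sum_le_sum_of_subset_of_nonneg (fun x hx => ?_) fun _ _ _ => h₄ _)
    (sum_nonneg fun _ _ => h₄ _) (sum_nonneg fun _ _ => h₃ _))
  · obtain ⟨a, ha, b, -, rfl⟩ := mem_infs.1 hx
    exact mem_powerset.2 (inter_subset_left.trans (mem_powerset.1 ha))
  · obtain ⟨a, ha, b, hb, rfl⟩ := mem_sups.1 hx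
    exact mem_powerset.2 (union_subset ((mem_powerset.1 ha).trans hF) (mem_powerset.1 hb))

theorem wt (S : SUP) {v v' Q : ℝ} {ξ ξ' a : Finset Edge} {Λ Λ' : Finset Site} (h0 : 0 < v)
    (hv : v ≤ v') (hQ : 1 ≤ Q) (hΛ : Λ' ⊆ Λ) (hξ : ξ ⊆ ξ') (hd : Disjoint a ξ') (b : Finset Edge) :
    fw v Q Λ ξ a * fw v' Q Λ' ξ' b ≤ fw v Q Λ ξ (a ∩ b) * fw v' Q Λ' ξ' (a ∪ b) := by
  have k := S Λ Λ' (a ∪ ξ) (b ∪ ξ') hΛ
  have e1 : (a ∪ ξ) ∩ (b ∪ ξ') = a ∩ b ∪ ξ := by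
    ext x
    have := @hξ x
    have := @disjoint_left.1 hd x
    simp only [mem_inter, mem_union]
    tauto
  have e2 : a ∪ ξ ∪ (b ∪ ξ') = a ∪ b ∪ ξ' := by
    ext x
    have := @hξ x
    simp only [mem_union]
    tauto
  rw [e1, e2] at k
  have h1 := h0.trans_le hv
  have h2 := one_pos.trans_le hQ
  unfold fw
  rw [mul_mul_mul_comm, mul_mul_mul_comm (v ^ _) _ (v' ^ (a ∪ b).card), ← pow_add Q, ← pow_add Q,
    ← card_sdiff_add_card_inter a b, ← card_sdiff_add_card a b, pow_add v, pow_add v',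
    mul_left_comm (v ^ (a ∩ b).card), ← mul_assoc (v' ^ (a \ b).card)]
  gcongr

end RHol

open RHol in
theorem rhol : SUP → HOL := fun S => by
  refine ⟨fun v v' Q F F' ξ ξ' Λ Λ' f h0 hv hQ hF hΛ hξ hd hf => ?_,
    fun v Q F Λ f g h0 hQ hf hg => ?_⟩
  · have h1 := h0.trans_le hv
    have h2 := one_pos.trans_le hQ
    have p : ∀ a, 0 ≤ f a - f ∅ := fun a => sub_nonneg.2 (hf (empty_subset a))
    have k : fk v Q F Λ ξ (fun ω => f ω - f ∅) ≤ fk v' Q F' Λ' ξ' fun ω => f ω - f ∅ := by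
      unfold fk
      rw [div_le_div_iff₀ (fZ_pos h0 h2 _ _ _) (fZ_pos h1 h2 _ _ _), mul_comm _ (∑ _ ∈ F.powerset, _)]
      refine four hF (fun a => mul_nonneg (fw_pos h0 h2 _ _ _).le (p a))
        (fun a => (fw_pos h1 h2 _ _ _).le) (fun a => (fw_pos h0 h2 _ _ _).le)
        (fun a => mul_nonneg (fw_pos h1 h2 _ _ _).le (p a)) fun a ha b => ?_
      rw [mul_right_comm, ← mul_assoc]
      exact mul_le_mul (wt S h0 hv hQ hΛ hξ (hd.mono_left ha) b)
        (sub_le_sub_right (hf subset_union_left) _) (p a)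
        (mul_pos (fw_pos h0 h2 _ _ _) (fw_pos h1 h2 _ _ _)).le
    rw [fk_sub, fk_sub, fk_const h0 h2, fk_const h1 h2] at k
    linarith
  · have h2 := one_pos.trans_le hQ
    have p : ∀ a, 0 ≤ f ∅ - f a := fun a => sub_nonneg.2 (hf (empty_subset a))
    have r : ∀ a, 0 ≤ g ∅ - g a := fun a => sub_nonneg.2 (hg (empty_subset a))
    have w := fun a => (fw_pos h0 h2 Λ ∅ a).le
    have Z := fZ_pos h0 h2 F Λ ∅
    have k : fk v Q F Λ ∅ (fun ω => f ∅ - f ω) * fk v Q F Λ ∅ (fun ω => g ∅ - g ω) ≤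
        fk v Q F Λ ∅ fun ω => (f ∅ - f ω) * (g ∅ - g ω) := by
      unfold fk
      rw [div_mul_div_comm]
      refine le_trans ?_ (mul_div_mul_left _ _ Z.ne').le
      refine div_le_div_of_nonneg_right (four subset_rfl (fun a => mul_nonneg (w a) (p a))
        (fun a => mul_nonneg (w a) (r a)) w
        (fun a => mul_nonneg (w a) (mul_nonneg (p a) (r a))) fun a _ b => ?_) (mul_pos Z Z).le
      rw [mul_mul_mul_comm, ← mul_assoc (fw v Q Λ ∅ (a ∩ b))]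
      exact mul_le_mul (wt S h0 le_rfl hQ subset_rfl subset_rfl (disjoint_empty_right a) b)
        (mul_le_mul (sub_le_sub_left (hf subset_union_left) _)
          (sub_le_sub_left (hg subset_union_right) _) (r _) (p _))
        (mul_nonneg (p _) (r _)) (mul_nonneg (w _) (w _))
    have e : (fun ω => (f ∅ - f ω) * (g ∅ - g ω)) =
        fun ω => f ω * g ω + (f ∅ * g ∅ - (f ∅ * g ω + g ∅ * f ω)) := funext fun ω => by ring
    rw [e, fk_add, fk_sub, fk_sub, fk_sub, fk_add, fk_cmul, fk_cmul, fk_cmul, fk_const h0 h2,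
      fk_const h0 h2] at k
    linarith

end

end Pool.Agent.MP_cb84d8_pr.PT
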