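import Pool.Agent.MP_cb84d8_pr.PT.Basic

/-! The Potts measure in finite volume is invariant under the heat-bath kernel. -/

open Finset

namespace Pool.Agent.MP_cb84d8_pr.PT

noncomputable section
open Classical

namespace RInv

variable {q : ℕ} [NeZero q]

omit [NeZero q] in
theorem nb_eq (σ : Col q) (x : Site) (c : Fin q) : (nb σ x c : ℝ) =
    (if c = σ (x.1 + 1, x.2) then 1 else 0) + (if c = σ (x.1, x.2 + 1) then 1 else 0) +
      (if σ (x.1 - 1, x.2) = c then 1 else 0) + (if σ (x.1, x.2 - 1) = c then 1 else 0) := by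
  unfold nb
  rw [card_filter, Nat.cast_sum, sum_insert (by simp [Prod.ext_iff]; omega),
    sum_insert (by simp [Prod.ext_iff]), sum_insert (by simp [Prod.ext_iff]; omega),
    sum_singleton]
  simp only [Nat.cast_ite, Nat.cast_one, Nat.cast_zero, @eq_comm _ c]
  ring

omit [NeZero q] in
theorem pw_update (β : ℝ) {Λ : Finset Site} {x : Site} (hx : x ∈ Λ) (σ : Col q) (c : Fin q) :
    pw β Λ (Function.update σ x c) =
      Real.exp (β * ∑ e ∈ touching Λ \ star x, if σ e.1 = σ (tip e) then (1 : ℝ) else 0) *
        Real.exp (β * nb σ x c) := by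
  have hs : star x ⊆ touching Λ := subset_biUnion_of_mem star hx
  unfold pw
  rw [← Real.exp_add, ← mul_add, card_filter, Nat.cast_sum, ← sum_sdiff hs]
  simp only [Nat.cast_ite, Nat.cast_one, Nat.cast_zero]
  congr 3
  · refine sum_congr rfl fun e he => ?_
    have he' : e ∉ star x := (Finset.mem_sdiff.1 he).2
    rw [mem_star, not_or] at he'
    simp only [Function.update_of_ne he'.1, Function.update_of_ne he'.2]
  · obtain ⟨i, j⟩ := x
    rw [sum_star, nb_eq]
    simp only [tip_true, tip_false, sub_add_cancel, Function.update_self]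
    rw [Function.update_of_ne (by simp), Function.update_of_ne (by simp),
      Function.update_of_ne (by simp), Function.update_of_ne (by simp)]

omit [NeZero q] in
theorem balance (β : ℝ) {Λ : Finset Site} {x : Site} (hx : x ∈ Λ) (σ : Col q) (c : Fin q) :
    pw β Λ σ * hb β σ x c =
      pw β Λ (Function.update σ x c) * hb β (Function.update σ x c) x (σ x) := by
  have h1 := pw_update β hx σ (σ x)
  rw [Function.update_eq_self] at h1
  have h2 : hb β (Function.update σ x c) x = hb β σ x :=
    hb_congr β fun y hy => Function.update_of_ne (by rintro rfl; simp [Adj] at hy) _ _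
  rw [h2, pw_update β hx σ c, h1]
  unfold hb
  ring

end RInv

theorem rinv : INV := by
  intro q _ β Λ x F hx
  unfold pav
  congr 1
  have key : ∑ p ∈ pfill q Λ ×ˢ (univ : Finset (Fin q)),
      pw β Λ p.1 * hb β p.1 x p.2 * F (Function.update p.1 x p.2) =
      ∑ p ∈ pfill q Λ ×ˢ (univ : Finset (Fin q)), pw β Λ p.1 * hb β p.1 x p.2 * F p.1 := by
    have hm : ∀ p ∈ pfill q Λ ×ˢ (univ : Finset (Fin q)),
        (Function.update p.1 x p.2, p.1 x) ∈ pfill q Λ ×ˢ (univ : Finset (Fin q)) := by
      intro p hp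
      refine mem_product.2 ⟨mem_pfill.2 fun y hy => ?_, mem_univ _⟩
      have hne : y ≠ x := fun h => hy (h ▸ hx)
      simp only [Function.update_of_ne hne]
      exact mem_pfill.1 (mem_product.1 hp).1 y hy
    refine sum_nbij' (fun p => (Function.update p.1 x p.2, p.1 x))
      (fun p => (Function.update p.1 x p.2, p.1 x)) hm hm (fun p _ => by simp) (fun p _ => by simp)
      fun p _ => ?_
    rw [RInv.balance β hx p.1 p.2]
  rw [sum_product, sum_product] at key
  calc ∑ σ ∈ pfill q Λ, pw β Λ σ * pheat β x F σ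
      = ∑ σ ∈ pfill q Λ, ∑ c, pw β Λ σ * hb β σ x c * F (Function.update σ x c) := by
        refine sum_congr rfl fun σ _ => ?_
        unfold pheat
        simp only [mul_sum, mul_assoc]
    _ = ∑ σ ∈ pfill q Λ, ∑ c, pw β Λ σ * hb β σ x c * F σ := key
    _ = ∑ σ ∈ pfill q Λ, pw β Λ σ * F σ := by
        refine sum_congr rfl fun σ _ => ?_
        rw [← sum_mul, ← mul_sum, hb_sum, mul_one]

end

end Pool.Agent.MP_cb84d8_pr.PT
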