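import Pool.Agent.MP_cb84d8_pr.PT.Basic

/-! PROJECT POTTS: the row IRR (four identities for the number of inner clusters). -/

open Finset

namespace Pool.Agent.MP_cb84d8_pr.PT

noncomputable section
open Classical

namespace RIrr

theorem card_image_le_of {α β γ : Type*} [Nonempty α] [DecidableEq β] [DecidableEq γ]
    (S : Finset α) (f : α → β) (g : α → γ)
    (h : ∀ x ∈ S, ∀ y ∈ S, g x = g y → f x = f y) : (S.image f).card ≤ (S.image g).card := by
  refine le_trans (card_le_card ?_)
    (card_image_le (s := S.image g) (f := fun b => f (Function.invFunOn g (S : Set α) b)))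
  intro b hb
  obtain ⟨x, hx, rfl⟩ := mem_image.1 hb
  have e : ∃ a ∈ (S : Set α), g a = g x := ⟨x, hx, rfl⟩
  exact mem_image.2 ⟨g x, mem_image_of_mem g hx,
    h _ (Function.invFunOn_mem e) _ hx (Function.invFunOn_eq e)⟩

theorem card_image_eq_of {α β γ : Type*} [Nonempty α] [DecidableEq β] [DecidableEq γ]
    (S : Finset α) (f : α → β) (g : α → γ)
    (h : ∀ x ∈ S, ∀ y ∈ S, f x = f y ↔ g x = g y) : (S.image f).card = (S.image g).card :=
  le_antisymm (card_image_le_of S f g fun x a y b => (h x a y b).2)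
    (card_image_le_of S g f fun x a y b => (h x a y b).1)

theorem rfl' (ω : Finset Edge) (x : Site) : reach ω x x := Relation.ReflTransGen.refl

theorem tr {ω : Finset Edge} {x y z : Site} (a : reach ω x y) (b : reach ω y z) : reach ω x z :=
  Relation.ReflTransGen.trans a b

theorem reach_eq {ω : Finset Edge} {x y : Site} : reach ω x = reach ω y ↔ reach ω x y :=
  ⟨fun h => h ▸ rfl' ω y, fun h => funext fun _ => propext ⟨tr h.symm, tr h⟩⟩

theorem kk_eq (Λ : Finset Site) (ω : Finset Edge) :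
    kk Λ ω = ((Λ.filter fun x => ¬ exits Λ ω x).image (reach ω)).card := by
  unfold kk
  refine card_image_eq_of _ (fun x => Λ.filter (reach ω x)) (reach ω)
    fun x _ y hy => ⟨fun h => reach_eq.2 ?_, fun h => ?_⟩
  swap
  · exact filter_congr fun z _ => by rw [h]
  have : y ∈ Λ.filter (reach ω x) := h ▸ mem_filter.2 ⟨(mem_filter.1 hy).1, rfl' ω y⟩
  exact (mem_filter.1 this).2

theorem kk_in {Λ : Finset Site} {ω : Finset Edge} (h : ends ω ⊆ Λ) :
    kk Λ ω = (Λ.image (reach ω)).card := by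
  rw [kk_eq, filter_true_of_mem]
  rintro x hx ⟨y, a, b⟩
  rcases reach_end b with rfl | c
  · exact a hx
  · exact a (h c)

theorem big (Λ Λ' : Finset Site) (ω : Finset Edge) (h : ends ω ⊆ Λ') (h' : Λ' ⊆ Λ) :
    kk Λ ω = kk Λ' ω + (Λ \ Λ').card := by
  have key : ∀ x ∈ Λ \ Λ', ∀ y, reach ω x = reach ω y → x = y := fun x hx y e => by
    rcases reach_end (reach_eq.1 e).symm with c | c
    · exact c
    · exact absurd (h c) (mem_sdiff.1 hx).2
  have e1 : Λ.image (reach ω) = Λ'.image (reach ω) ∪ (Λ \ Λ').image (reach ω) := by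
    rw [← image_union, union_sdiff_of_subset h']
  rw [kk_in (h.trans h'), kk_in h, e1, card_union_of_disjoint,
    card_image_of_injOn fun x hx y _ e => key x hx y e]
  refine disjoint_left.2 fun b hb hb' => ?_
  obtain ⟨y, hy, rfl⟩ := mem_image.1 hb
  obtain ⟨x, hx, e⟩ := mem_image.1 hb'
  exact (mem_sdiff.1 hx).2 (key x hx y e ▸ hy)

theorem far (Λ : Finset Site) (ω ξ : Finset Edge) (h : Disjoint ξ (touching Λ)) :
    kk Λ (ω ∪ ξ) = kk Λ ω := by
  have ex : ∀ x, exits Λ (ω ∪ ξ) x ↔ exits Λ ω x := fun x => by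
    rw [exits_loc, union_inter_distrib_right, disjoint_iff_inter_eq_empty.1 h, union_empty]
    exact exits_loc.symm
  rw [kk_eq, kk_eq, filter_congr fun x _ => not_congr (ex x)]
  refine congrArg card (image_congr fun x hx => funext fun y => propext
    ⟨fun k => ?_, fun k => k.mono subset_union_left⟩)
  have hx' := (mem_filter.1 hx).2
  induction k with
  | refl => exact rfl' ω x
  | @tail u w _ l ih =>
    have hu : u ∈ Λ := by
      by_contra c
      exact hx' ⟨u, c, ih⟩
    obtain ⟨e, he, l⟩ := l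
    have ht : e ∈ touching Λ := mem_touching.2 (l.elim (fun k => Or.inl (k.1 ▸ hu))
      fun k => Or.inr (k.2 ▸ hu))
    have : e ∈ ω := (mem_union.1 he).resolve_right fun k => disjoint_left.1 h k ht
    exact Relation.ReflTransGen.tail ih ⟨e, this, l⟩

theorem one (Λ : Finset Site) (c : Site) (ω : Finset Edge) (hc : c ∉ Λ)
    (h : ends ω ⊆ insert c Λ) : kk (insert c Λ) ω = kk Λ ω + 1 := by
  have ex : ∀ x ∈ Λ, exits Λ ω x ↔ reach ω x c := fun x hx => by
    refine ⟨fun ⟨y, a, b⟩ => ?_, fun k => ⟨c, hc, k⟩⟩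
    rcases reach_end b with rfl | d
    · exact absurd hx a
    · exact (mem_insert.1 (h d)).resolve_right a ▸ b
  have e1 : (insert c Λ).image (reach ω) =
      insert (reach ω c) ((Λ.filter fun x => ¬ exits Λ ω x).image (reach ω)) := by
    ext b
    simp only [mem_image, mem_insert, mem_filter]
    constructor
    · rintro ⟨x, rfl | hx, rfl⟩
      · exact Or.inl rfl
      · by_cases k : exits Λ ω x
        · exact Or.inl (reach_eq.2 ((ex x hx).1 k))
        · exact Or.inr ⟨x, ⟨hx, k⟩, rfl⟩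
    · rintro (rfl | ⟨x, hx, rfl⟩)
      · exact ⟨c, Or.inl rfl, rfl⟩
      · exact ⟨x, Or.inr hx.1, rfl⟩
  rw [kk_in h, kk_eq, e1, card_insert_of_notMem]
  intro k
  obtain ⟨x, hx, e⟩ := mem_image.1 k
  exact (mem_filter.1 hx).2 ((ex x (mem_filter.1 hx).1).2 (reach_eq.1 e))

theorem aut (φ : Site ≃ Site) (ψ : Edge ≃ Edge) (h : Aut φ ψ) (Λ : Finset Site)
    (ω : Finset Edge) : kk (Λ.map φ.toEmbedding) (ω.map ψ.toEmbedding) = kk Λ ω := by
  have e1 : ((Λ.map φ.toEmbedding).filter fun x =>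
      ¬ exits (Λ.map φ.toEmbedding) (ω.map ψ.toEmbedding) x) =
      (Λ.filter fun x => ¬ exits Λ ω x).image φ := by
    ext x
    obtain ⟨x, rfl⟩ := φ.surjective x
    simp only [mem_filter, mem_map_equiv, Equiv.symm_apply_apply, h.exits, mem_image,
      EmbeddingLike.apply_eq_iff_eq, exists_eq_right]
  rw [kk_eq, kk_eq, e1, image_image]
  exact card_image_eq_of _ _ _ fun x _ y _ => by
    simp only [Function.comp, reach_eq, h.reach]

end RIrr

theorem rirr : IRR := ⟨RIrr.big, RIrr.far, RIrr.one, RIrr.aut⟩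

end

end Pool.Agent.MP_cb84d8_pr.PT
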