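import Pool.Agent.MP_cb84d8_pr.PT.Basic

/-! PROJECT POTTS: the colours in a finite set at one time depend on finitely many rings. -/

open Finset Filter Topology MeasureTheory

namespace Pool.Agent.MP_cb84d8_pr.PT

noncomputable section
open Classical

namespace RLcd

variable {E : Site → ℕ → ℝ}

theorem fin_rings (hE : Regular E) (Λ : Finset Site) (t : ℝ) :
    {r : Site × ℕ | r.1 ∈ Λ ∧ ring E r.1 r.2 ≤ t}.Finite := by
  choose M hM using fun x => hE.2 x t
  refine ((Λ.biUnion fun x => {x} ×ˢ range (M x)).finite_toSet).subset ?_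
  rintro ⟨x, n⟩ ⟨h1, h2⟩
  simp only [coe_biUnion, Set.mem_iUnion, mem_coe, mem_product, mem_singleton, mem_range]
  exact ⟨x, h1, rfl, (hE.strictMono x).lt_iff_lt.1 (h2.trans_lt (hM x))⟩

theorem fin_anc (hE : Clk E) (s : Site × ℕ) : {r | Relation.ReflTransGen (rel E) r s}.Finite := by
  induction s using hE.wf.induction with
  | _ s ih =>
    have f : {r | rel E r s}.Finite := by
      refine (fin_rings hE.reg (Icc (s.1.1 - 1) (s.1.1 + 1) ×ˢ Icc (s.1.2 - 1) (s.1.2 + 1))
        (ring E s.1 s.2)).subset fun r h => ⟨?_, h.2.le⟩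
      have := h.1
      simp only [Adj, abs_eq_max_neg, mem_product, mem_Icc] at this ⊢
      omega
    refine ((f.biUnion fun r h => ih r h).insert s).subset fun r h => ?_
    rcases Relation.ReflTransGen.cases_tail h with e | ⟨c, a, b⟩
    · exact Or.inl e.symm
    · exact Or.inr (Set.mem_biUnion b a)

variable {q : ℕ} [NeZero q] {β : ℝ} {σ₀ : Col q} {U : Site × ℕ → ℝ} {σ : ℝ → Col q}

theorem no_ring (hσ : IsPath β σ₀ E U σ) (hE : Regular E) {s t : ℝ} (hs : 0 ≤ s)
    (hst : s ≤ t) {x : Site} (h : ∀ n, ¬ (s < ring E x n ∧ ring E x n ≤ t)) : σ t x = σ s x := by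
  by_cases ht : t < ring E x 0
  · rw [(hσ x).1 t (hs.trans hst) ht, (hσ x).1 s hs (hst.trans_lt ht)]
  · obtain ⟨n, h1, h2⟩ := hE.exists_last (not_lt.1 ht)
    have h3 : ring E x n ≤ s := not_lt.1 fun h' => h n ⟨h', h1⟩
    exact eq_of_forall_ge_iff fun c =>
      ((hσ x).2 n t h1 h2 c).trans ((hσ x).2 n s h3 (hst.trans_lt h2) c).symm

theorem eq_run (pck : PCK) (hσ : IsPath β σ₀ E U σ) (hE : Clk E) {Λ : Finset Site}
    {A : Set (Site × ℕ)} (hA : ∀ r ∈ A, r.1 ∈ Λ) (cl : ∀ s ∈ A, ∀ r, rel E r s → r ∈ A)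
    (L : List (Site × ℕ)) : ∀ t, 0 ≤ t → ListFor Λ E t L → ∀ x,
      (∀ n, ring E x n ≤ t → (x, n) ∈ A) → σ t x = prun β U L σ₀ x := by
  induction L with
  | nil =>
    intro t ht hL y hy
    have : t < ring E y 0 := not_le.1 fun h => by
      simpa using (hL.2 (y, 0)).2 ⟨hA _ (hy 0 h), h⟩
    exact (hσ y).1 t ht this
  | cons r L ih =>
    intro t ht hL
    obtain ⟨hp, hm⟩ := hL
    rw [List.pairwise_cons] at hp
    have hr := (hm r).1 List.mem_cons_self
    obtain ⟨s, hs0, hs1, hs2⟩ : ∃ s, 0 ≤ s ∧ s < ring E r.1 r.2 ∧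
        ∀ r' ∈ L, ring E r'.1 r'.2 ≤ s := by
      cases L with
      | nil => exact ⟨0, le_rfl, hE.reg.ring_pos _ _, by simp⟩
      | cons r' L' =>
        refine ⟨ring E r'.1 r'.2, (hE.reg.ring_pos _ _).le, hp.1 r' List.mem_cons_self, ?_⟩
        intro r'' h
        rcases List.mem_cons.1 h with rfl | h
        · exact le_rfl
        · exact ((List.pairwise_cons.1 hp.2).1 r'' h).le
    have hL' : ListFor Λ E s L := by
      refine ⟨hp.2, fun r' => ⟨fun h => ⟨((hm r').1 (List.mem_cons_of_mem _ h)).1, hs2 r' h⟩,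
        fun h => ?_⟩⟩
      rcases List.mem_cons.1 ((hm r').2 ⟨h.1, h.2.trans (hs1.le.trans hr.2)⟩) with rfl | h'
      · exact absurd h.2 (not_le.2 hs1)
      · exact h'
    have key : ∀ t', s ≤ t' → t' ≤ t → ∀ y, y ≠ r.1 → (∀ n, ring E y n ≤ t' → (y, n) ∈ A) →
        σ t' y = prun β U L σ₀ y := by
      intro t' h1 h2 y hy hy'
      rw [no_ring hσ hE.reg hs0 h1]
      · exact ih s hs0 hL' y fun n h => hy' n (h.trans h1)
      · rintro n ⟨h3, h4⟩
        rcases List.mem_cons.1 ((hm (y, n)).2 ⟨hA _ (hy' n h4), h4.trans h2⟩) with rfl | h'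
        · exact hy rfl
        · exact absurd (hs2 _ h') (not_le.2 h3)
    intro y hy'
    simp only [prun, pupd]
    by_cases hy : y = r.1
    · subst hy
      have h2 : t < ring E r.1 (r.2 + 1) := by
        refine not_le.1 fun h => ?_
        have h3 := hE.reg.strictMono r.1 (Nat.lt_succ_self r.2)
        rcases List.mem_cons.1 ((hm (r.1, r.2 + 1)).2 ⟨hr.1, h⟩) with h' | h'
        · have := congrArg Prod.snd h'
          simp at this
        · exact lt_asymm h3 (hp.1 _ h')
      have e : hb β (σ (ring E r.1 r.2)) r.1 = hb β (prun β U L σ₀) r.1 :=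
        hb_congr β fun y a => by
          have ne : y ≠ r.1 := fun e => by simp [e, Adj] at a
          exact key _ hs1.le hr.2 y ne fun n h =>
            cl _ (hy' r.2 hr.2) _ ⟨a, lt_of_le_of_ne h (hE.dis _ _ ne _ _)⟩
      have k := (hσ r.1).2 r.2 t hr.2 h2
      rw [e] at k
      have u : U r ≤ 1 := by
        have := (k ⊤).1 le_top
        rwa [Iic_top, hb_sum] at this
      rw [Function.update_self]
      exact eq_of_forall_ge_iff fun c => (k c).trans
        ((pck q _ (hb_nonneg β _ _) (hb_sum β _ _)).1 _ u c).symm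
    · rw [Function.update_of_ne hy]
      exact key t (hs1.le.trans hr.2) le_rfl y hy hy'

end RLcd

open RLcd in
theorem rlcd : PCK → LCD := by
  intro pck q _ β t E K hE ht
  have f := (fin_rings hE.reg K t).biUnion fun s _ => fin_anc hE s
  refine ⟨f.toFinset.image Prod.fst, fun Λ hΛ L hL σ₀ U σ hσ x hx => ?_⟩
  refine eq_run pck hσ hE (fun r h => hΛ (mem_image_of_mem _ (f.mem_toFinset.2 h)))
    (fun s h r a => ?_) L t ht hL x fun n h => ?_
  · obtain ⟨c, b, d⟩ := Set.mem_iUnion₂.1 h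
    exact Set.mem_biUnion b (Relation.ReflTransGen.head a d)
  · exact Set.mem_biUnion (x := (x, n)) ⟨hx, h⟩ Relation.ReflTransGen.refl

end

end Pool.Agent.MP_cb84d8_pr.PT
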