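import Pool.Agent.MP_cb84d8_pr.PT.Basic

/-! PROJECT POTTS, row LIM: the free limit exists. -/

open Finset Filter Topology

namespace Pool.Agent.MP_cb84d8_pr.PT

noncomputable section
open Classical

theorem RLim.mono (i : IRR) (h : HOL) {v Q : ℝ} (hv : 0 < v) (hQ : 1 ≤ Q) {f : Finset Edge → ℝ}
    (hf : Monotone f) : Monotone fun G => fr v Q G f := fun G G' k =>
  (i.fr (one_pos.trans_le hQ) (ends_mono k) f).ge.trans
    (h.hol v v Q G G' ∅ ∅ _ _ f hv le_rfl hQ k subset_rfl subset_rfl (disjoint_empty_right _) hf)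

theorem rlim : IRR → HOL → LIM := by
  rintro i h v Q A hv hQ ⟨F, hF⟩
  have cv : ∀ f : Finset Edge → ℝ, Monotone f → (∀ ω, f ω ≤ 1 + F.card) →
      Tendsto (fun G => fr v Q G f) atTop (𝓝 (⨆ G, fr v Q G f)) := fun f hf hb =>
    tendsto_atTop_ciSup (RLim.mono i h hv hQ hf) ⟨1 + F.card, by
      rintro _ ⟨G, rfl⟩
      exact fk_le_const hv (one_pos.trans_le hQ) fun ω _ => hb ω⟩
  have c : ∀ ω : Finset Edge, ((ω ∩ F).card : ℝ) ≤ F.card := fun ω =>
    Nat.cast_le.2 (card_le_card inter_subset_right)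
  have a := cv (fun ω => ind (A ω) + (ω ∩ F).card) (fun ω ω' k => by
    rcases (inter_subset_inter_right (u := F) k).eq_or_ssubset with e | e
    · simp only [ind_congr (hF ω), ind_congr (hF ω'), e, le_refl]
    · have : ((ω ∩ F).card : ℝ) + 1 ≤ (ω' ∩ F).card := by exact_mod_cast card_lt_card e
      linarith [ind_le_one (A ω), ind_nonneg (A ω')]) fun ω => add_le_add (ind_le_one _) (c ω)
  have b := cv (fun ω => (ω ∩ F).card)
    (fun ω ω' k => Nat.cast_le.2 (card_le_card (inter_subset_inter_right k)))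
    fun ω => (c ω).trans (le_add_of_nonneg_left zero_le_one)
  have t : Tendsto (fun G => fr v Q G fun ω => ind (A ω)) atTop (𝓝 (prf v Q A)) :=
    tendsto_nhds_limUnder ⟨_, (a.sub b).congr fun G => by
      rw [fr, fr, fr, fk_add, add_sub_cancel_right]⟩
  exact ⟨t, fun k => (RLim.mono i h hv hQ fun ω ω' l => ind_mono (k ω ω' l)).ge_of_tendsto t⟩

end

end Pool.Agent.MP_cb84d8_pr.PT
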