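import Pool.Agent.MP_cb84d8_pr.PT.Basic

/-! Local observables in the ordered state. -/

open Finset Filter Topology MeasureTheory

namespace Pool.Agent.MP_cb84d8_pr.PT

noncomputable section
open Classical

namespace RLom
variable {q : ℕ} [NeZero q]

omit [NeZero q] in
theorem meas_cyl (K : Finset Site) (τ : Col q) : MeasurableSet (cyl K τ) := by
  have e : cyl K τ = ⋂ x ∈ K, (fun σ : Col q => σ x) ⁻¹' {τ x} := by
    ext σ
    simp [cyl]
  rw [e]
  exact K.measurableSet_biInter fun x _ => measurable_pi_apply x (measurableSet_singleton _)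

theorem expand {K : Finset Site} {f : Col q → ℝ} (h : Dep K f) :
    f = fun σ => ∑ τ ∈ pfill q K, f τ * (cyl K τ).indicator 1 σ := by
  funext σ
  have m : (fun x => if x ∈ K then σ x else 0) ∈ pfill q K := mem_pfill.2 fun x hx => if_neg hx
  rw [sum_eq_single_of_mem _ m]
  · rw [Set.indicator_of_mem (show σ ∈ cyl K _ from fun x hx => (if_pos hx).symm), Pi.one_apply,
      mul_one]
    exact h _ _ fun x hx => (if_pos hx).symm
  · intro τ hτ hne
    rw [Set.indicator_of_notMem, mul_zero]
    refine fun k => hne (funext fun x => ?_)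
    split_ifs with hx
    · exact (k x hx).symm
    · exact mem_pfill.1 hτ x hx

end RLom

theorem rlom : LOM := by
  intro q _ β μ ⟨hμ, N, hN, h⟩
  refine ⟨fun k => N k, tendsto_natCast_atTop_atTop.comp hN, fun K f hf => ?_⟩
  have i : ∀ τ ∈ pfill q K, Integrable (fun σ => f τ * (cyl K τ).indicator 1 σ) μ := fun τ _ =>
    ((integrable_const (1 : ℝ)).indicator (RLom.meas_cyl K τ)).const_mul _
  rw [RLom.expand hf]
  refine ⟨Finset.measurable_fun_sum _ fun τ _ =>
    (measurable_one.indicator (RLom.meas_cyl K τ)).const_mul _, integrable_finsetSum _ i, ?_⟩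
  rw [integral_finsetSum _ i]
  simp only [pav_sum, pav_cmul]
  refine tendsto_finsetSum _ fun τ _ => ?_
  rw [integral_const_mul, integral_indicator_one (RLom.meas_cyl K τ)]
  exact (h K τ).const_mul _

end

end Pool.Agent.MP_cb84d8_pr.PT
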