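import Pool.Agent.MP_cb84d8_pr.PT.Basic

/-! PROJECT POTTS: a short time window contains no exceptional time. -/

open Finset Filter Topology MeasureTheory ProbabilityTheory
open scoped ENNReal

namespace Pool.Agent.MP_cb84d8_pr.PT

noncomputable section
open Classical

namespace RNul

variable {q : ℕ} [NeZero q]

theorem no_ring {β : ℝ} {σ₀ : Col q} {E : Site → ℕ → ℝ} {U : Site × ℕ → ℝ}
    {σ : ℝ → Col q} (hσ : IsPath β σ₀ E U σ) (hE : Regular E) {s t : ℝ} (hs : 0 ≤ s)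
    (hst : s ≤ t) {x : Site} (h : ∀ n, ¬ (s < ring E x n ∧ ring E x n ≤ t)) : σ t x = σ s x := by
  by_cases ht : t < ring E x 0
  · rw [(hσ x).1 t (hs.trans hst) ht, (hσ x).1 s hs (hst.trans_lt ht)]
  · obtain ⟨n, h1, h2⟩ := hE.exists_last (not_lt.1 ht)
    have h3 : ring E x n ≤ s := not_lt.1 fun h' => h n ⟨h', h1⟩
    exact eq_of_forall_ge_iff fun c =>
      ((hσ x).2 n t h1 h2 c).trans ((hσ x).2 n s h3 (hst.trans_lt h2) c).symm

def ev (m N : ℤ) (ζ : Finset Site) (σ : Col q) : Prop :=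
  crossing (fun a => a ∈ box (N + 1) ∧ (σ a ≠ 0 ∨ a ∈ ζ)) m N

theorem dep_ev (m N : ℤ) (ζ : Finset Site) : Dep (box (N + 1)) (ev (q := q) m N ζ) := by
  intro σ σ' h
  unfold ev
  congr 1
  funext a
  exact propext (and_congr_right fun ha => by rw [h a ha])

def G (q : ℕ) [NeZero q] (β : ℝ) (m N : ℤ) (t δ : ℝ) (n : ℕ) :
    Set ((Site → ℕ → ℝ) × Col q × (Site × ℕ → ℝ)) :=
  ⋃ ζ ∈ (box (N + 1)).powerset, ⋃ L : List (Site × ℕ),
    ({E | ListFor (box n) E t L} ∩ ringSet (box (N + 1)) ζ t δ) ×ˢ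
      {p | ev m N ζ (prun β p.2 L p.1)}

theorem bad_subset (hl : LCD) (β : ℝ) {m N : ℤ} (h : m ≤ N) {t : ℝ} (ht : 0 ≤ t) (δ : ℝ) :
    bad q β m t δ ⊆ ⋃ n : ℕ, ⋂ k ≥ n, G q β m N t δ k := by
  rintro ⟨E, σ₀, U⟩ ⟨hE, σ, hσ, x, hx, hinf⟩
  obtain ⟨R, hR⟩ := hl q β t E (box (N + 1)) hE ht
  refine Set.mem_iUnion.2 ⟨R.sup fun x => x.1.natAbs + x.2.natAbs, Set.mem_iInter₂.2 fun k hk => ?_⟩
  have hRk : R ⊆ box k := fun z hz => by
    have := (le_sup (f := fun x : Site => x.1.natAbs + x.2.natAbs) hz).trans hk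
    rw [mem_box]
    omega
  obtain ⟨L, hL⟩ := exists_listFor hE.reg hE.dis (box k) t
  simp only [G, Set.mem_iUnion, Set.mem_prod, Set.mem_inter_iff, Set.mem_ofPred_eq]
  refine ⟨(box (N + 1)).filter fun x => E x ∈ window t δ, mem_powerset.2 (filter_subset _ _), L,
    ⟨hL, fun x hx => ?_⟩, ?_⟩
  · by_cases hw : E x ∈ window t δ <;> simp [mem_coe.1 hx, hw]
  · obtain ⟨y, hy, hy'⟩ := hinf.exists_notMem_finset (box N)
    refine crossing.mono (fun a _ ha => ⟨ha.1, ?_⟩)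
      (crossing_cut h (crossing_of_path (good := fun a => ∃ s, t ≤ s ∧ s ≤ t + δ ∧ σ s a ≠ 0)
        h hx hy' hy))
    by_cases hw : E a ∈ window t δ
    · exact Or.inr (mem_filter.2 ⟨ha.1, hw⟩)
    · left
      obtain ⟨s, hs1, hs2, hs⟩ := ha.2
      have := no_ring hσ hE.reg ht hs1 (x := a) fun n hn => hw ⟨n, hn.1, hn.2.trans hs2⟩
      rw [← hR _ hRk L hL σ₀ U σ hσ a ha.1, ← this]
      exact hs

theorem G_le (hr : RUN) {β : ℝ} {μ : Measure (Col q)} (hμ : IsOrdered β μ) (m N : ℤ) (t δ : ℝ)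
    (n : ℕ) : clockLaw.prod (μ.prod unifLaw) (G q β m N t δ n) ≤
      ENNReal.ofReal (ber (fun _ => oneClock.real (window t δ)) (box (N + 1)) fun ζ =>
        μ.real {σ | ev m N ζ σ}) := by
  have := hμ.1
  refine (measure_biUnion_finset_le _ _).trans ?_
  have hw : ∀ ζ : Finset Site, 0 ≤ (∏ _x ∈ ζ, oneClock.real (window t δ)) *
      ∏ _x ∈ box (N + 1) \ ζ, (1 - oneClock.real (window t δ)) := fun ζ =>
    mul_nonneg (prod_nonneg fun _ _ => measureReal_nonneg)
      (prod_nonneg fun _ _ => sub_nonneg.2 measureReal_le_one)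
  rw [ber, ENNReal.ofReal_sum_of_nonneg fun ζ _ => mul_nonneg (hw ζ) measureReal_nonneg]
  refine sum_le_sum fun ζ hζ => ?_
  rw [ENNReal.ofReal_mul (hw ζ), ← clock_ringSet (mem_powerset.1 hζ), ofReal_measureReal]
  refine (measure_iUnion_le _).trans ?_
  calc _ ≤ ∑' L : List (Site × ℕ),
        clockLaw ({E | ListFor (box n) E t L} ∩ ringSet (box (N + 1)) ζ t δ) *
          μ {σ | ev m N ζ σ} := by
        refine ENNReal.tsum_le_tsum fun L => ?_
        rw [Measure.prod_prod]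
        rcases ({E | ListFor (box n) E t L} ∩ ringSet (box (N + 1)) ζ t δ).eq_empty_or_nonempty with
          h | ⟨E, hE, -⟩
        · simp [h]
        · rw [(hr q β μ L _ _ hμ (ListFor.nodup hE) (dep_ev m N ζ)).2]
    _ ≤ _ := by
        rw [ENNReal.tsum_mul_right, ← measure_iUnion]
        · exact mul_le_mul_left (measure_mono (Set.iUnion_subset fun L => Set.inter_subset_right)) _
        · intro L L' hLL'
          exact Set.disjoint_left.2 fun E h1 h2 => hLL' (ListFor.unique h1.1 h2.1)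
        · exact fun L => (measurableSet_listFor _ _ _).inter (measurableSet_ringSet _ _ _ _)

end RNul

theorem rnul : STA → RUN → LCD → NUL := by
  intro hs hr hl q _ β t δ μ m hβ hμ hm ht hδ
  refine le_antisymm (ENNReal.le_of_forall_pos_le_add fun ε hε _ => ?_) zero_le
  obtain ⟨N, hN, hb⟩ := hs q β ε μ m hβ hμ hε hm
  have hb' := hb _ measureReal_nonneg hδ
  rw [zero_add, ← ENNReal.ofReal_coe_nnreal]
  refine (measure_mono (RNul.bad_subset hl β hN ht δ)).trans ?_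
  rw [Monotone.measure_iUnion fun a b hab =>
    Set.biInter_subset_biInter_left fun k (hk : b ≤ k) => hab.trans hk]
  exact iSup_le fun n => (measure_mono (Set.biInter_subset_of_mem (le_refl n))).trans
    ((RNul.G_le hr hμ m N t δ n).trans (ENNReal.ofReal_le_ofReal hb'))

end

end Pool.Agent.MP_cb84d8_pr.PT
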