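import Pool.Agent.MP_cb84d8_pr.PT.Basic

/-! PROJECT POTTS, row PCK: picking a colour with a uniform variable. -/

open Finset Filter Topology MeasureTheory

namespace Pool.Agent.MP_cb84d8_pr.PT

noncomputable section
open Classical

namespace PckA

variable {q : ℕ} [NeZero q] {p : Fin q → ℝ}

omit [NeZero q] in
theorem S_mono (h0 : ∀ c, 0 ≤ p c) {a b : Fin q} (h : a ≤ b) :
    ∑ c ∈ Iic a, p c ≤ ∑ c ∈ Iic b, p c :=
  sum_le_sum_of_subset_of_nonneg (Iic_subset_Iic.2 h) fun c _ _ => h0 c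

omit [NeZero q] in
theorem S_le (h0 : ∀ c, 0 ≤ p c) (h1 : ∑ c, p c = 1) (a : Fin q) : ∑ c ∈ Iic a, p c ≤ 1 :=
  h1 ▸ sum_le_sum_of_subset_of_nonneg (subset_univ _) fun c _ _ => h0 c

theorem le_iff (h0 : ∀ c, 0 ≤ p c) (h1 : ∑ c, p c = 1) (u : ℝ) (c : Fin q) :
    pick p u ≤ c ↔ u ≤ ∑ c' ∈ Iic c, p c' ∨ 1 < u := by
  unfold pick
  split_ifs with h
  · have h2 := (mem_filter.1 (min'_mem _ h)).2
    constructor
    · exact fun k => Or.inl (h2.trans (S_mono h0 k))
    · rintro (k | k)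
      · exact min'_le _ c (mem_filter.2 ⟨mem_univ c, k⟩)
      · exact absurd (h2.trans (S_le h0 h1 _)) (not_le.2 k)
  · refine iff_of_true (Fin.zero_le _) (Or.inr (not_le.1 fun k => h ⟨⊤, ?_⟩))
    rw [mem_filter, Iic_top, h1]
    exact ⟨mem_univ _, k⟩

theorem meas_le (h0 : ∀ c, 0 ≤ p c) (h1 : ∑ c, p c = 1) (c : Fin q) :
    MeasurableSet {u | pick p u ≤ c} := by
  simp only [le_iff h0 h1]
  exact measurableSet_Iic.union measurableSet_Ioi

theorem meas (h0 : ∀ c, 0 ≤ p c) (h1 : ∑ c, p c = 1) : Measurable (pick p) := by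
  refine measurable_to_countable' fun c => ?_
  have : pick p ⁻¹' {c} = {u | pick p u ≤ c} ∩ ⋂ c' : Set.Iio c, {u | pick p u ≤ c'}ᶜ := by
    ext u
    simp only [Set.mem_preimage, Set.mem_singleton_iff, Set.mem_inter_iff, Set.mem_iInter,
      Set.mem_compl_iff, Subtype.forall, Set.mem_Iio]
    exact ⟨fun e => ⟨e.le, fun a ha k => absurd (e ▸ k : c ≤ a) (not_le.2 ha)⟩,
      fun e => e.1.eq_or_lt.resolve_right fun k => e.2 _ k (le_refl (pick p u))⟩
  rw [this]
  exact (meas_le h0 h1 c).inter (MeasurableSet.iInter fun c' => (meas_le h0 h1 c').compl)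

omit [NeZero q] in
theorem uniq {m : Fin q → ℝ} (h : ∀ c, ∑ c' ∈ Iic c, m c' = ∑ c' ∈ Iic c, p c') (c : Fin q) :
    m c = p c := by
  induction c using WellFoundedLT.induction with
  | ind c ih =>
    have h1 := h c
    rw [← Iio_insert, sum_insert notMem_Iio_self, sum_insert notMem_Iio_self,
      sum_congr rfl fun a ha => ih a (mem_Iio.1 ha)] at h1
    exact add_right_cancel h1

theorem mass (h0 : ∀ c, 0 ≤ p c) (h1 : ∑ c, p c = 1) (c : Fin q) :
    ((volume.restrict (Set.Icc (0 : ℝ) 1)).map (pick p)).real {c} = p c := by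
  refine uniq (m := fun c => ((volume.restrict (Set.Icc (0 : ℝ) 1)).map (pick p)).real {c})
    (fun c => ?_) c
  have e : pick p ⁻¹' ((Iic c : Finset (Fin q)) : Set (Fin q)) ∩ Set.Icc (0 : ℝ) 1 =
      Set.Icc 0 (∑ c' ∈ Iic c, p c') := by
    ext u
    simp only [Set.mem_inter_iff, Set.mem_preimage, mem_coe, mem_Iic, le_iff h0 h1, Set.mem_Icc]
    exact ⟨fun k => ⟨k.2.1, k.1.resolve_right (not_lt.2 k.2.2)⟩,
      fun k => ⟨Or.inl k.2, k.1, k.2.trans (S_le h0 h1 c)⟩⟩
  rw [sum_measureReal_singleton, map_measureReal_apply (meas h0 h1) (MeasurableSet.of_discrete),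
    measureReal_restrict_apply (meas h0 h1 MeasurableSet.of_discrete), e, Real.volume_real_Icc,
    sub_zero, max_eq_left (sum_nonneg fun a _ => h0 a)]

end PckA

theorem rpck : PCK := by
  intro q _ p h0 h1
  refine ⟨fun u hu c => ?_, PckA.meas h0 h1, fun F => ?_⟩
  · rw [PckA.le_iff h0 h1, or_iff_left (not_lt.2 hu)]
  · rw [← integral_map (PckA.meas h0 h1).aemeasurable
      (measurable_of_finite F).aestronglyMeasurable, integral_fintype Integrable.of_finite]
    exact sum_congr rfl fun c _ => by rw [PckA.mass h0 h1, smul_eq_mul]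

end

end Pool.Agent.MP_cb84d8_pr.PT
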