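import Pool.Agent.MP_cb84d8_pr.PT.Basic

/-! PROJECT POTTS, row PES: the Edwards-Sokal coupling. -/

open Finset Filter Topology MeasureTheory

namespace Pool.Agent.MP_cb84d8_pr.PT

noncomputable section
open Classical

namespace RPes

variable {q : ℕ} [NeZero q]

/-- Colourings compatible with the open edges `ω`. -/
def cm (q : ℕ) [NeZero q] (Λ : Finset Site) (ω : Finset Edge) : Finset (Col q) :=
  (pfill q Λ).filter fun σ => ∀ e ∈ ω, σ e.1 = σ (tip e)

/-- The unnormalised sum. -/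
def eS (v : ℝ) (Λ : Finset Site) (G : Col q → Finset Edge → ℝ) : ℝ :=
  ∑ ω ∈ (touching Λ).powerset, v ^ ω.card * ∑ σ ∈ cm q Λ ω, G σ ω

theorem mem_cm {Λ : Finset Site} {ω : Finset Edge} {σ : Col q} :
    σ ∈ cm q Λ ω ↔ (∀ x, x ∉ Λ → σ x = 0) ∧ ∀ e ∈ ω, σ e.1 = σ (tip e) := by
  rw [cm, mem_filter, mem_pfill]

theorem sum_ber (β : ℝ) (Λ : Finset Site) (G : Col q → Finset Edge → ℝ) :
    ∑ σ ∈ pfill q Λ, pw β Λ σ * ber (fun _ => 1 - Real.exp (-β)) (touching Λ)
      (fun c => G σ (c.filter fun e => σ e.1 = σ (tip e))) = eS (Real.exp β - 1) Λ G := by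
  unfold eS cm
  simp only [sum_filter, mul_sum]
  rw [sum_comm]
  refine sum_congr rfl fun σ _ => ?_
  have w : pw β Λ σ = ∏ _e ∈ (touching Λ).filter fun e => σ e.1 = σ (tip e), Real.exp β := by
    rw [pw, prod_const, mul_comm, Real.exp_nat_mul]
  rw [ber_filter _ _ (fun e : Edge => σ e.1 = σ (tip e)), w]
  unfold ber
  have e : ((touching Λ).filter fun e => σ e.1 = σ (tip e)).powerset =
      (touching Λ).powerset.filter fun ω => ∀ e ∈ ω, σ e.1 = σ (tip e) := by
    ext ω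
    simp only [mem_powerset, mem_filter, subset_iff]
    exact ⟨fun h => ⟨fun x hx => (h hx).1, fun x hx => (h hx).2⟩,
      fun h x hx => ⟨h.1 hx, h.2 x hx⟩⟩
  simp only [mul_ite, mul_zero]
  rw [← sum_filter, ← e, mul_sum]
  refine sum_congr rfl fun ω hω => ?_
  rw [← mul_assoc]
  congr 1
  rw [← prod_sdiff (mem_powerset.1 hω), mul_comm (∏ _i ∈ ω, (1 - Real.exp (-β))),
    mul_mul_mul_comm, ← prod_mul_distrib, ← prod_mul_distrib]
  have k : Real.exp β * Real.exp (-β) = 1 := by rw [← Real.exp_add]; simp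
  have a : Real.exp β * (1 - (1 - Real.exp (-β))) = 1 := by linarith
  have b : Real.exp β * (1 - Real.exp (-β)) = Real.exp β - 1 := by linarith
  simp only [a, b, prod_const_one, one_mul, prod_const]

theorem Z_eq (β : ℝ) (Λ : Finset Site) :
    ∑ σ ∈ pfill q Λ, pw β Λ σ = eS (q := q) (Real.exp β - 1) Λ fun _ _ => 1 := by
  have := sum_ber (q := q) β Λ fun _ _ => 1
  simpa only [ber_const, mul_one] using this

theorem pes_eq (β : ℝ) (Λ : Finset Site) (G : Col q → Finset Edge → ℝ) :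
    pes β Λ G = eS (Real.exp β - 1) Λ G / eS (q := q) (Real.exp β - 1) Λ fun _ _ => 1 := by
  unfold pes pav
  rw [sum_ber, Z_eq]

/-- Exchange the colours `0` and `c` on the cluster of `z`. -/
def sw (ω : Finset Edge) (z : Site) (c : Fin q) (σ : Col q) : Col q :=
  fun y => if reach ω z y then Equiv.swap 0 c (σ y) else σ y

theorem sw_sw (ω : Finset Edge) (z : Site) (c : Fin q) (σ : Col q) :
    sw ω z c (sw ω z c σ) = σ := by
  funext y
  unfold sw
  split_ifs <;> simp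

theorem sw_mem {Λ : Finset Site} {ω : Finset Edge} {z : Site} (hz : ¬ exits Λ ω z) (c : Fin q) :
    ∀ σ ∈ cm q Λ ω, sw ω z c σ ∈ cm q Λ ω := by
  intro σ hσ
  rw [mem_cm] at hσ ⊢
  refine ⟨fun x hx => ?_, fun e he => ?_⟩
  · rw [sw, if_neg fun h => hz ⟨x, hx, h⟩]
    exact hσ.1 x hx
  · have h2 : reach ω z e.1 ↔ reach ω z (tip e) :=
      ⟨fun h => h.trans (reach_edge he), fun h => h.trans (reach_edge he).symm⟩
    simp only [sw, hσ.2 e he, h2]

theorem sum_col {Λ : Finset Site} {ω : Finset Edge} {z : Site} (hz : ¬ exits Λ ω z)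
    (f : Col q → ℝ) (hf : ∀ σ σ', (∀ y, ¬ reach ω z y → σ y = σ' y) → f σ = f σ') :
    ∑ σ ∈ cm q Λ ω, ind (σ z ≠ 0) * f σ = (1 - 1 / q) * ∑ σ ∈ cm q Λ ω, f σ := by
  have h1 : ∀ c : Fin q, ∑ σ ∈ cm q Λ ω, ind (σ z = 0) * f σ =
      ∑ σ ∈ cm q Λ ω, ind (σ z = c) * f σ := fun c => by
    refine sum_nbij' (sw ω z c) (sw ω z c) (sw_mem hz c) (sw_mem hz c) (fun σ _ => sw_sw ..)
      (fun σ _ => sw_sw ..) fun σ _ => ?_
    rw [hf (sw ω z c σ) σ fun y hy => if_neg hy, sw,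
      if_pos (show reach ω z z from Relation.ReflTransGen.refl)]
    congr 1
    refine ind_congr ?_
    rw [Equiv.swap_apply_eq_iff, Equiv.swap_apply_right]
  have h2 : (q : ℝ) * ∑ σ ∈ cm q Λ ω, ind (σ z = 0) * f σ = ∑ σ ∈ cm q Λ ω, f σ := by
    have := sum_congr (s₁ := (univ : Finset (Fin q))) rfl fun c _ => h1 c
    rw [sum_const, card_univ, Fintype.card_fin, nsmul_eq_mul, sum_comm] at this
    rw [this]
    refine sum_congr rfl fun σ _ => ?_
    rw [← sum_mul, sum_eq_single (σ z) (fun b _ hb => ind_neg hb.symm) (by simp), ind_pos rfl,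
      one_mul]
  have hq : (q : ℝ) ≠ 0 := by exact_mod_cast NeZero.ne q
  simp only [ne_eq, ind_not, sub_mul, one_mul, sum_sub_distrib]
  rw [← h2]
  field_simp

end RPes

open RPes in
theorem rpes : CARD → PES := by
  intro hc q _ β Λ hβ
  have hv : 0 < Real.exp β - 1 := by linarith [Real.add_one_lt_exp hβ.ne']
  refine ⟨fun G G' h => ?_, fun G G' => ?_, fun f => ?_, fun good z f h1 h2 => ?_⟩
  · rw [pes_eq, pes_eq]
    refine div_le_div_of_nonneg_right (sum_le_sum fun ω hω => ?_)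
      (by rw [← Z_eq]; exact (pZ_pos _ _).le)
    exact mul_le_mul_of_nonneg_left (sum_le_sum fun σ hσ =>
      h ω (mem_powerset.1 hω) σ (mem_cm.1 hσ).1 (mem_cm.1 hσ).2) (by positivity)
  · unfold pes
    simp only [ber_add, pav_add]
  · have k : ∀ ω, ((cm q Λ ω).card : ℝ) = (q : ℝ) ^ kk Λ ω := fun ω => by
      rw [hc (Fin q) 0 Λ ω (cm q Λ ω) fun σ => mem_cm, Fintype.card_fin, Nat.cast_pow]
    rw [pes_eq]
    unfold eS wr fk fw
    simp only [sum_const, nsmul_eq_mul, k, union_empty, mul_one, mul_assoc]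
  · rw [pes_eq, pes_eq, ← mul_div_assoc]
    congr 1
    unfold eS
    rw [mul_sum]
    refine sum_congr rfl fun ω _ => ?_
    rw [mul_left_comm]
    congr 1
    by_cases g : good ω
    · simp only [g, true_and, ind_pos trivial, one_mul]
      exact sum_col (h1 ω g) (fun σ => f σ ω) (h2 ω g)
    · simp [g, ind]

end

end Pool.Agent.MP_cb84d8_pr.PT
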