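import Pool.Agent.MP_cb84d8_pr.PT.Basic

/-! PROJECT POTTS: the recursion for the crossing probability. -/

open Finset Filter Topology MeasureTheory

namespace Pool.Agent.MP_cb84d8_pr.PT

noncomputable section
open Classical

namespace RRc

/-- Without a dual crossing of an annulus, one open cluster meets every path across it. -/
theorem blocking {N m m₁ : ℤ} (hm : 0 ≤ m) (hm₁ : m + 1 ≤ m₁) (hN : m₁ + 1 ≤ N) {ω : Finset Edge}
    (h : ∀ f ∈ box (m + 1), ¬ exits (box m₁) (dualOf (touching (box N)) ω) f) :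
    ∃ z ∈ box (m₁ + 1), ∀ x ∈ box m, ∀ y, y ∉ box (m₁ + 1) → ∀ P : Site → Prop,
      Relation.ReflTransGen (fun a b => Near a b ∧ P a ∧ P b) x y →
        ∃ w, P w ∧ reach ω z w ∧ ∃ e ∈ ω, e ∈ star w := by
  set D : Site → Prop := fun f => ∃ f₀ ∈ box (m + 1), reach (dualOf (touching (box N)) ω) f₀ f
    with hD
  have hDbox : ∀ f, D f → f ∈ box m₁ := by
    rintro f ⟨f₀, h0, hr⟩
    by_contra hc
    exact h f₀ h0 ⟨f, hc, hr⟩
  have hD0 : ∀ f ∈ box (m + 1), D f := fun f hf => ⟨f, hf, Relation.ReflTransGen.refl⟩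
  set B := (touching (box N)).filter fun e => ¬ (D (dual e).1 ↔ D e.1) with hB
  have hBbox : ∀ e : Edge, ¬ (D (dual e).1 ↔ D e.1) →
      e.1 ∈ box (m₁ + 1) ∧ tip e ∈ box (m₁ + 1) := by
    intro e he
    have : (dual e).1 ∈ box m₁ ∨ e.1 ∈ box m₁ := by
      by_cases h1 : D e.1
      · exact Or.inr (hDbox _ h1)
      · exact Or.inl (hDbox _ (by
          by_contra h2
          exact he (iff_of_false h2 h1)))
    obtain ⟨⟨i, j⟩, _ | _⟩ := e <;>
      simp only [mem_box, dual_true, dual_false, tip_true, tip_false] at this ⊢ <;> omega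
  have hBmem : ∀ e, e ∈ B ↔ ¬ (D (dual e).1 ↔ D e.1) := fun e => by
    rw [hB, mem_filter]
    exact ⟨fun h => h.2, fun h => ⟨mem_touching.2 (Or.inl (box_mono hN (hBbox e h).1)), h⟩⟩
  have hBω : ∀ e ∈ B, e ∈ ω := by
    intro e he
    by_contra hc
    have h1 : dual e ∈ dualOf (touching (box N)) ω := mem_dualOf.2 ⟨(mem_filter.1 he).1, hc⟩
    have h2 := reach_edge h1
    rw [tip_dual] at h2
    refine (hBmem e).1 he ⟨?_, ?_⟩
    · rintro ⟨f₀, h0, hr⟩
      exact ⟨f₀, h0, hr.trans h2⟩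
    · rintro ⟨f₀, h0, hr⟩
      exact ⟨f₀, h0, hr.trans h2.symm⟩
  have hgrad : ∀ e, sg (e ∈ B) = sg (D (dual e).1) * sg (D e.1) := by
    intro e
    rw [hBmem]
    by_cases h1 : D (dual e).1 <;> by_cases h2 : D e.1 <;> simp [sg, h1, h2]
  have hprod : ∏ k ∈ Ioc (-(m₁ + 1) - 1) 0, sg (((k, 0), true) ∈ B) = -1 := by
    have := tele (fun k => sg (D (k, 0))) (fun k => sg (((k, 0), true) ∈ B))
      (show -(m₁ + 1) - 1 ≤ 0 by omega) fun k _ _ => by
        rw [hgrad, dual_true, ← mul_assoc, sg_mul_self, one_mul]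
    rw [sg_pos (hD0 _ (by simp only [mem_box]; omega)),
      sg_neg (fun hc => by have := hDbox _ hc; simp only [mem_box] at this; omega), one_mul] at this
    exact this.symm
  obtain ⟨k₀, hk₀, hz⟩ : ∃ k₀ ∈ Ioc (-(m₁ + 1) - 1) 0, ∏ k ∈ Ioc (-(m₁ + 1) - 1) 0,
      sg (((k, 0), true) ∈ B.filter fun e => reach ω (k₀, 0) e.1) ≠ 1 := by
    by_contra hc
    push Not at hc
    rw [← prod_fiberwise_of_maps_to (t := (Ioc (-(m₁ + 1) - 1) 0).image fun k => reach ω (k, 0))
      (g := fun k => reach ω (k, 0)) (fun k hk => mem_image_of_mem _ hk), prod_eq_one] at hprod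
    · norm_num at hprod
    intro c hc'
    obtain ⟨k₀, hk₀, rfl⟩ := mem_image.1 hc'
    rw [← hc k₀ hk₀, prod_filter]
    refine prod_congr rfl fun k _ => ?_
    have : reach ω (k, 0) = reach ω (k₀, 0) ↔ reach ω (k₀, 0) (k, 0) :=
      ⟨fun h => h ▸ Relation.ReflTransGen.refl,
        fun h => funext fun y => propext ⟨fun h' => h.trans h', fun h' => h.symm.trans h'⟩⟩
    by_cases h1 : reach ω (k₀, 0) (k, 0) <;> simp [this, h1, sg]
  set E := B.filter fun e => reach ω (k₀, 0) e.1 with hE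
  have hEven : ∀ x, par E x = 1 := by
    intro x
    by_cases hx : reach ω (k₀, 0) x
    · refine par_of_grad (S := fun f => sg (D f)) (fun f => sg_mul_self _) fun e he => ?_
      rw [← hgrad]
      congr 1
      rw [hE, mem_filter]
      refine propext ⟨fun h => h.1, fun h => ⟨h, ?_⟩⟩
      rcases mem_star.1 he with rfl | rfl
      · exact hx
      · exact hx.trans (reach_edge (hBω e h)).symm
    · refine par_of_grad (S := fun _ => 1) (fun f => mul_one _) fun e he => ?_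
      rw [mul_one]
      refine sg_neg fun hc => hx ?_
      rw [hE, mem_filter] at hc
      rcases mem_star.1 he with rfl | rfl
      · exact hc.2
      · exact hc.2.trans (reach_edge (hBω e hc.1))
  obtain ⟨S, hS, hS1⟩ := exists_potential E (m₁ + 1)
    (fun e he => hBbox e ((hBmem e).1 (mem_filter.1 he).1)) hEven
  have hS0 : S (0, 0) ≠ 1 := by
    have := tele (fun k => S (k, 0)) (fun k => sg (((k, 0), true) ∈ E))
      (show -(m₁ + 1) - 1 ≤ 0 by omega) fun k _ _ => hS ((k, 0), true)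
    rw [this, hS1 _ (by simp only [mem_box]; omega), one_mul]
    exact hz
  have hSbox : ∀ f ∈ box m, S f = S (-m, -m) := by
    refine const_on_box S fun e h1 h2 => ?_
    have := hS (dual.symm e)
    rw [← tip_dual (dual.symm e), Equiv.apply_symm_apply] at this
    rw [this, sg_neg, mul_one]
    intro hc
    have := (hBmem _).1 (mem_filter.1 hc).1
    rw [← tip_dual (dual.symm e), Equiv.apply_symm_apply] at this
    exact this (iff_of_true (hD0 _ (box_mono (by omega) h1)) (hD0 _ (box_mono (by omega) h2)))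
  refine ⟨(k₀, 0), by simp only [mem_Ioc, mem_box] at hk₀ ⊢; omega, fun x hx y hy P hp => ?_⟩
  by_contra hc
  push Not at hc
  have hni : ∀ w, P w → ∀ e ∈ star w, sg (e ∈ E) = 1 := by
    intro w hw e he
    refine sg_neg fun h' => ?_
    rw [hE, mem_filter] at h'
    refine hc w hw ?_ e (hBω e h'.1) he
    rcases mem_star.1 he with rfl | rfl
    · exact h'.2
    · exact h'.2.trans (reach_edge (hBω e h'.1))
  have hstep : ∀ w, P w → S w = S (w.1 - 1, w.2) ∧ S w = S (w.1, w.2 - 1) ∧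
      S w = S (w.1 - 1, w.2 - 1) := by
    rintro ⟨i, j⟩ hw
    have a := hS ((i, j), true)
    have b := hS ((i, j), false)
    have c := hS ((i - 1, j), false)
    rw [hni _ hw _ (by simp [star]), mul_one] at a b c
    exact ⟨a, b, a.trans c⟩
  have hface : ∀ w, P w → ∀ f : Site, w.1 - 1 ≤ f.1 → f.1 ≤ w.1 → w.2 - 1 ≤ f.2 → f.2 ≤ w.2 →
      S w = S f := by
    rintro ⟨i, j⟩ hw ⟨u, v⟩ h1 h2 h3 h4
    have k := hstep _ hw
    simp only at h1 h2 h3 h4 k
    have : (u = i ∨ u = i - 1) ∧ (v = j ∨ v = j - 1) := by omega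
    rcases this with ⟨rfl | rfl, rfl | rfl⟩
    exacts [rfl, k.2.1, k.1, k.2.2]
  have hxy : S x = S y := by
    clear hy
    induction hp with
    | refl => rfl
    | @tail a b _ hab ih =>
      obtain ⟨hadj, ha, hb⟩ := hab
      simp only [Near, abs_le] at hadj
      rw [ih, hface a ha (min a.1 b.1, min a.2 b.2) (by simp only; omega) (by simp only; omega)
        (by simp only; omega) (by simp only; omega), hface b hb (min a.1 b.1, min a.2 b.2)
        (by simp only; omega) (by simp only; omega) (by simp only; omega) (by simp only; omega)]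
  rw [hS1 y hy, hSbox x hx, ← hSbox (0, 0) (by simp only [mem_box]; omega)] at hxy
  exact hS0 hxy

theorem col_eq {q : ℕ} {ω : Finset Edge} {σ : Col q} (hσ : ∀ e ∈ ω, σ e.1 = σ (tip e))
    {a b : Site} (h : reach ω a b) : σ a = σ b := by
  induction h with
  | refl => rfl
  | tail _ h ih =>
    obtain ⟨e, he, ⟨rfl, rfl⟩ | ⟨rfl, rfl⟩⟩ := h
    · exact ih.trans (hσ e he)
    · exact ih.trans (hσ e he).symm

end RRc

theorem rrc : PES → REC := by
  intro hP q _ β m m₁ m' N₀ N hβ hm h1 h2 h3 h4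
  have P := hP q β (box N) hβ
  have hex : ∀ ω : Finset Edge, ∃ z,
      (∀ f ∈ box (m + 1), ¬ exits (box m₁) (dualOf (touching (box N)) ω) f) →
      z ∈ box (m₁ + 1) ∧ ∀ x ∈ box m, ∀ y, y ∉ box (m₁ + 1) →
      ∀ P : Site → Prop, Relation.ReflTransGen (fun a b => Near a b ∧ P a ∧ P b) x y →
        ∃ w, P w ∧ reach ω z w ∧ ∃ e ∈ ω, e ∈ star w := by
    intro ω
    by_cases h : ∀ f ∈ box (m + 1), ¬ exits (box m₁) (dualOf (touching (box N)) ω) f
    · obtain ⟨z, hz⟩ := RRc.blocking hm h1 (show m₁ + 1 ≤ N by omega) h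
      exact ⟨z, fun _ => hz⟩
    · exact ⟨0, fun h' => absurd h' h⟩
  choose z hz using hex
  have h0 := P.col (fun ω =>
      (∀ f ∈ box (m + 1), ¬ exits (box m₁) (dualOf (touching (box N)) ω) f) ∧
        ¬ exits (box (m' - 1)) ω (z ω)) z
    (fun σ ω => ind (crossing (fun a => σ a ≠ 0 ∨ ∀ e ∈ ω, e ∉ star a) m' N₀))
    (fun ω h k => h.2 (exits_mono (box_mono (by omega)) subset_rfl k))
    (fun ω h σ σ' k => by
      have key : ∀ a, a ∉ box (m' - 1) → σ a = σ' a := fun a ha =>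
        k a fun h' => h.2 ⟨a, ha, h'⟩
      exact ind_congr ⟨fun h' => h'.mono fun a ha l => by rw [← key a ha]; exact l,
        fun h' => h'.mono fun a ha l => by rw [key a ha]; exact l⟩)
  have hq : (0 : ℝ) ≤ 1 - 1 / q := by
    have h1 : (1 : ℝ) ≤ q := by exact_mod_cast NeZero.one_le
    rw [sub_nonneg, div_le_one (by linarith)]
    exact h1
  have hC := mul_le_mul_of_nonneg_left (P.mono (fun σ ω => ind (
      (∀ f ∈ box (m + 1), ¬ exits (box m₁) (dualOf (touching (box N)) ω) f) ∧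
        ¬ exits (box (m' - 1)) ω (z ω)) *
      ind (crossing (fun a => σ a ≠ 0 ∨ ∀ e ∈ ω, e ∉ star a) m' N₀))
    (fun σ ω => ind (crossing (fun a => σ a ≠ 0 ∨ ∀ e ∈ ω, e ∉ star a) m' N₀))
    fun ω _ σ _ _ => mul_le_of_le_one_left (ind_nonneg _) (ind_le_one _)) hq
  rw [← h0] at hC
  refine le_trans ?_ (add_le_add le_rfl hC)
  rw [← P.edge, ← P.edge, ← P.add, ← P.add]
  refine P.mono _ _ fun ω _ σ hσ0 hσ => ?_
  have n1 := ind_nonneg (∃ f ∈ box (m + 1), exits (box m₁) (dualOf (touching (box N)) ω) f)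
  have n2 := ind_nonneg (∃ z ∈ box (m₁ + 1), exits (box (m' - 1)) ω z ∧ ¬ exits (box N) ω z)
  have n3 := mul_nonneg (ind_nonneg (((∀ f ∈ box (m + 1),
      ¬ exits (box m₁) (dualOf (touching (box N)) ω) f) ∧ ¬ exits (box (m' - 1)) ω (z ω)) ∧
        σ (z ω) ≠ 0))
    (ind_nonneg (crossing (fun a => σ a ≠ 0 ∨ ∀ e ∈ ω, e ∉ star a) m' N₀))
  by_cases hc : crossing (fun a => σ a ≠ 0 ∨ ∀ e ∈ ω, e ∉ star a) m N₀
  · rw [ind_pos hc]
    by_cases hA : ∃ f ∈ box (m + 1), exits (box m₁) (dualOf (touching (box N)) ω) f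
    · rw [ind_pos hA]
      linarith
    have hd : ∀ f ∈ box (m + 1), ¬ exits (box m₁) (dualOf (touching (box N)) ω) f :=
      fun f hf k => hA ⟨f, hf, k⟩
    have hc' := hc.grow (show m ≤ m' by omega) h3
    obtain ⟨x, hx, y, hy, hp⟩ := hc
    obtain ⟨w, hw, hr, e, he, hew⟩ := (hz ω hd).2 x hx y
      (fun h => hy (box_mono (by omega) h)) _ hp
    have hw' : σ w ≠ 0 := hw.1.resolve_right fun h => h e he hew
    have hσz : σ (z ω) ≠ 0 := by rw [RRc.col_eq hσ hr]; exact hw'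
    by_cases hB : exits (box (m' - 1)) ω (z ω)
    · have : ∃ z ∈ box (m₁ + 1), exits (box (m' - 1)) ω z ∧ ¬ exits (box N) ω z :=
        ⟨z ω, (hz ω hd).1, hB, fun ⟨u, a, b⟩ => hσz ((RRc.col_eq hσ b).trans (hσ0 u a))⟩
      rw [ind_pos this]
      linarith
    · rw [ind_pos hc', ind_pos (show ((∀ f ∈ box (m + 1),
        ¬ exits (box m₁) (dualOf (touching (box N)) ω) f) ∧ ¬ exits (box (m' - 1)) ω (z ω)) ∧
          σ (z ω) ≠ 0 from ⟨⟨hd, hB⟩, hσz⟩)]
      linarith
  · rw [ind_neg hc]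
    linarith

end

end Pool.Agent.MP_cb84d8_pr.PT
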