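import Pool.Agent.MP_cb84d8_pr.PT.Basic

/-! Row RUN: the ordered state is invariant under updates with fresh uniform variables. -/

open Finset Filter Topology MeasureTheory

namespace Pool.Agent.MP_cb84d8_pr.PT

noncomputable section
open Classical

namespace RRun

variable {q : ℕ} [NeZero q]

/-- The four neighbours. -/
def nbr (x : Site) : Finset Site :=
  {(x.1 + 1, x.2), (x.1 - 1, x.2), (x.1, x.2 + 1), (x.1, x.2 - 1)}

theorem mem_nbr {x y : Site} (h : Adj y x) : y ∈ nbr x := by
  obtain ⟨a, b⟩ := y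
  simp only [Adj, abs_eq_max_neg] at h
  simp only [nbr, mem_insert, mem_singleton, Prod.mk.injEq]
  omega

theorem meas_pick (hP : PCK) (β : ℝ) (x : Site) :
    Measurable fun p : Col q × ℝ => pick (hb β p.1 x) p.2 := by
  let ex : (nbr x → Fin q) → Col q := fun s y => if h : y ∈ nbr x then s ⟨y, h⟩ else 0
  have m : Measurable fun p : (nbr x → Fin q) × ℝ => pick (hb β (ex p.1) x) p.2 :=
    measurable_from_prod_countable_right fun s =>
      (hP q _ (hb_nonneg β (ex s) x) (hb_sum β (ex s) x)).2.1
  have r : Measurable fun p : Col q × ℝ => ((fun y : nbr x => p.1 y), p.2) :=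
    (measurable_pi_lambda _ fun y => (measurable_pi_apply y.1).comp measurable_fst).prodMk
      measurable_snd
  have e : (fun p : Col q × ℝ => pick (hb β p.1 x) p.2) =
      fun p => pick (hb β (ex fun y : nbr x => p.1 y) x) p.2 := funext fun p => by
    rw [hb_congr β (σ := p.1) (σ' := ex fun y : nbr x => p.1 y) fun y hy => by
      simp only [ex, dif_pos (mem_nbr hy)]]
  rw [e]
  exact m.comp r

theorem meas_run (hP : PCK) (β : ℝ) (L : List (Site × ℕ)) :
    Measurable fun p : Col q × (Site × ℕ → ℝ) => prun β p.2 L p.1 := by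
  induction L with
  | nil => exact measurable_fst
  | cons r L ih =>
    exact measurable_update'.comp (ih.prodMk ((meas_pick hP β r.1).comp
      (ih.prodMk ((measurable_pi_apply r).comp measurable_snd))))

theorem run_upd (β : ℝ) {r : Site × ℕ} {L : List (Site × ℕ)} (h : r ∉ L) (U : Site × ℕ → ℝ)
    (u : ℝ) (τ : Col q) : prun β (Function.update U r u) L τ = prun β U L τ := by
  induction L with
  | nil => rfl
  | cons s L ih =>
    simp only [prun]
    rw [ih fun h' => h (List.mem_cons_of_mem _ h'),
      Function.update_of_ne fun e : s = r => h (e ▸ List.mem_cons_self)]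

theorem run_cons (hP : PCK) (β : ℝ) {r : Site × ℕ} {L : List (Site × ℕ)} (h : r ∉ L) (τ : Col q)
    {F : Col q → ℝ} (mF : Measurable F) (hF : ∀ ξ, |F ξ| ≤ 1) :
    ∫ U, F (prun β U (r :: L) τ) ∂unifLaw = ∫ U, pheat β r.1 F (prun β U L τ) ∂unifLaw := by
  have h1 := (meas_run (q := q) hP β (r :: L)).comp (measurable_prodMk_left (x := τ))
  have hm : Measurable fun U => F (prun β U (r :: L) τ) := mF.comp h1
  have e := infinitePi_update (volume.restrict (Set.Icc (0 : ℝ) 1)) r
  unfold unifLaw
  conv_lhs => rw [← e]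
  rw [integral_map measurable_update'.aemeasurable hm.aestronglyMeasurable, integral_prod]
  · refine integral_congr_ae (Eventually.of_forall fun U => ?_)
    simp only [prun, run_upd β h, Function.update_self]
    exact (hP q _ (hb_nonneg β _ r.1) (hb_sum β _ r.1)).2.2
      fun c => F (Function.update (prun β U L τ) r.1 c)
  · exact Integrable.of_bound (hm.comp measurable_update').aestronglyMeasurable 1
      (Eventually.of_forall fun _ => hF _)

theorem abs_heat (β : ℝ) (x : Site) {F : Col q → ℝ} (hF : ∀ ξ, |F ξ| ≤ 1) (ξ : Col q) :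
    |pheat β x F ξ| ≤ 1 := by
  refine (abs_sum_le_sum_abs _ _).trans ((sum_le_sum fun c _ => ?_).trans (hb_sum β ξ x).le)
  rw [abs_mul, abs_of_nonneg (hb_nonneg β ξ x c)]
  exact mul_le_of_le_one_right (hb_nonneg β ξ x c) (hF _)

omit [NeZero q] in
theorem dep_heat (β : ℝ) (x : Site) {K : Finset Site} {F : Col q → ℝ} (hF : Dep K F) :
    Dep (K ∪ nbr x) (pheat β x F) := fun σ σ' h => by
  unfold pheat
  rw [hb_congr β fun y hy => h y (mem_union_right _ (mem_nbr hy))]
  refine sum_congr rfl fun c _ => congrArg _ (hF _ _ fun y hy => ?_)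
  rw [Function.update_apply, Function.update_apply, h y (mem_union_left _ hy)]

end RRun

open RRun in
theorem rrun : PCK → INV → LOM → RUN := by
  intro hP hI hL q _ β μ L K A hμ hn hA
  obtain ⟨N, hN, lim⟩ := hL q β μ hμ
  have := hμ.1
  have heat : ∀ (x : Site) (K : Finset Site) (f : Col q → ℝ), Dep K f →
      ∫ σ, pheat β x f σ ∂μ = ∫ σ, f σ ∂μ := fun x K f hf => by
    refine tendsto_nhds_unique ((lim _ _ (dep_heat β x hf)).2.2.congr' ?_) (lim K f hf).2.2
    filter_upwards [hN.eventually_ge_atTop (|x.1| + |x.2|)] with k hk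
    refine hI q β _ x f (mem_box.2 ?_)
    simp only [abs_eq_max_neg] at hk
    omega
  have key : ∀ L : List (Site × ℕ), L.Nodup → ∀ (K : Finset Site) (f : Col q → ℝ), Dep K f →
      (∀ ξ, |f ξ| ≤ 1) → ∫ σ, ∫ U, f (prun β U L σ) ∂unifLaw ∂μ = ∫ σ, f σ ∂μ := by
    intro L
    induction L with
    | nil => intro _ K f _ _; simp [prun]
    | cons r L ih =>
      intro hn K f hf bf
      rw [List.nodup_cons] at hn
      simp only [run_cons hP β hn.1 _ (lim K f hf).1 bf]
      rw [ih hn.2 _ _ (dep_heat β r.1 hf) (abs_heat β r.1 bf), heat r.1 K f hf]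
  have e : ∀ σ, {σ | A σ}.indicator (1 : Col q → ℝ) σ = if A σ then 1 else 0 := fun σ => by
    simp [Set.indicator_apply]
  have d : Dep K ({σ | A σ}.indicator (1 : Col q → ℝ)) := fun σ σ' h => by
    rw [e, e, hA σ σ' h]
  have b : ∀ ξ, |{σ | A σ}.indicator (1 : Col q → ℝ) ξ| ≤ 1 := fun ξ => by
    rw [e]
    split_ifs <;> simp
  have mf := (lim K _ d).1
  have mA : MeasurableSet {σ | A σ} := by
    have := mf (measurableSet_singleton 1)
    convert this using 1
    ext σ
    simp [e]
  have mB : MeasurableSet {p : Col q × (Site × ℕ → ℝ) | A (prun β p.2 L p.1)} :=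
    meas_run hP β L mA
  refine ⟨mB, (measureReal_eq_measureReal_iff (measure_ne_top _ _) (measure_ne_top _ _)).1 ?_⟩
  rw [← integral_indicator_one mA, ← integral_indicator_one mB, ← key L hn K _ d b,
    integral_prod _ ((integrable_const _).indicator mB)]
  rfl

end

end Pool.Agent.MP_cb84d8_pr.PT
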