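import Pool.Agent.MP_cb84d8_pr.PT.Basic

/-! PROJECT POTTS: the row on sprinkling. -/

open Finset

namespace Pool.Agent.MP_cb84d8_pr.PT

noncomputable section
open Classical

namespace SprA

/-- Sprinkled sites are dominated by sites all of whose edges are closed. -/
theorem core (p r : ℝ) (p0 : 0 ≤ p) (p1 : p ≤ 1) (r0 : 0 ≤ r) (r1 : r ≤ (1 - √p) ^ 4)
    (Λ S : Finset Site) (hS : S ⊆ Λ) (G : Finset Site → ℝ) (hG : Monotone G)
    (G' : Finset Edge → ℝ)
    (h : ∀ (ζ : Finset Site) (c : Finset Edge), (∀ x ∈ ζ, ∀ e ∈ c, e ∉ star x) → G ζ ≤ G' c) :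
    ber (fun _ => r) S G ≤ ber (fun _ => p) (touching Λ) G' := by
  have s0 : 0 ≤ √p := Real.sqrt_nonneg _
  have s1 : √p ≤ 1 := Real.sqrt_le_one.2 p1
  set H := touching Λ ×ˢ (univ : Finset Bool) with hH
  have g1 := ber_group (fun _ => √p) hstar (fun x h => ∀ a ∈ hstar x, a ∉ h)
    (fun x h => by simp only [mem_inter]; tauto) (fun x => (1 - √p) ^ (hstar x).card) S
    (fun x _ => (ber_none √p (hstar x)).symm.trans
      (ber_congr _ fun c _ => by split_ifs <;> rfl))
    (fun x _ y _ hxy => disjoint_left.2 fun a ha hb =>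
      hxy ((mem_hstar.1 ha).symm.trans (mem_hstar.1 hb))) H
    (fun x hx a ha => by
      rw [hstar, mem_filter, mem_product] at ha
      exact mem_product.2 ⟨mem_biUnion.2 ⟨x, hS hx, ha.1.1⟩, mem_univ _⟩) G
  have g2 := ber_group (fun _ => √p) (fun e : Edge => {(e, false), (e, true)})
    (fun e h => (e, false) ∈ h ∧ (e, true) ∈ h) (fun e h => by simp) (fun _ => p)
    (touching Λ) (fun e _ => by
      rw [ber_insert _ (by simp), ← insert_empty_eq (e, true), ber_insert _ (by simp),
        ber_insert _ (by simp)]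
      simp [ber_empty, Real.mul_self_sqrt p0])
    (fun x _ y _ hxy => by simp [hxy.symm]) H
    (fun e he a ha => by
      simp only [mem_insert, mem_singleton] at ha
      rcases ha with rfl | rfl <;> exact mem_product.2 ⟨he, mem_univ _⟩) G'
  refine le_trans (ber_mono_param (q' := fun x => (1 - √p) ^ (hstar x).card)
    (fun x _ => ⟨r0, r1.trans ?_, pow_le_one₀ (by linarith) (by linarith)⟩) hG) ?_
  · refine pow_le_pow_of_le_one (by linarith) (by linarith) (le_trans ?_
      (show (star x).card ≤ 4 from card_le_four))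
    refine card_le_card_of_injOn Prod.fst (fun a ha => (mem_product.1 (mem_filter.1 ha).1).1) ?_
    rintro ⟨e, b⟩ h1 ⟨e', b'⟩ h2 (rfl : e = e')
    have h1 := mem_hstar.1 h1
    have h2 := mem_hstar.1 h2
    have := tip_ne e
    cases b <;> cases b' <;> simp_all [hend]
  · rw [← g1]
    refine le_trans ?_ (le_of_eq g2)
    refine ber_mono (fun _ _ => ⟨s0, s1⟩) fun k _ => h _ _ fun x hx e he hs => ?_
    simp only [mem_filter] at hx he
    rcases mem_star.1 hs with rfl | rfl
    · exact hx.2 (e, false) (mem_hstar.2 rfl) he.2.1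
    · exact hx.2 (e, true) (mem_hstar.2 rfl) he.2.2

end SprA

theorem rspr : SPR := by
  intro q _ β r m N₀ N S hβ hS r0 r1
  have e0 := Real.exp_pos (-β)
  have e1 : Real.exp (-β) ≤ 1 := Real.exp_le_one_iff.2 (by linarith)
  refine pav_mono fun σ _ => SprA.core _ r (by linarith) (by linarith) r0 r1 _ S hS _ ?_ _ ?_
  · exact fun a b hab => ind_mono fun k => k.mono fun x _ l => l.imp id fun l' => hab l'
  · exact fun ζ c h => ind_mono fun k => k.mono fun x _ l =>
      l.imp id fun l' e he => h x l' e (mem_filter.1 he).1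

end

end Pool.Agent.MP_cb84d8_pr.PT
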