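import Pool.Agent.MP_cb84d8_pr.PT.Basic

/-! PROJECT POTTS, row SQR: the eighth root trick. -/

open Finset

namespace Pool.Agent.MP_cb84d8_pr.PT

noncomputable section
open Classical

namespace RSqr

theorem mem_half {j : Bool} {s t : ℤ} {a b c : Bool} {z : Site} : z ∈ half j s t a b c ↔
    (s - 1 ≤ z.1 ∧ z.1 ≤ t + 1 ∧ s - 1 ≤ z.2 ∧ z.2 ≤ t + 1) ∧
    (if a then z.1 else z.2) = (if b then t + (if j then 1 else 0) else s - (if j then 1 else 0)) ∧
    s ≤ (if a then z.2 else z.1) ∧ (if a then z.2 else z.1) ≤ t ∧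
    if c then s + t ≤ 2 * (if a then z.2 else z.1) else 2 * (if a then z.2 else z.1) ≤ s + t := by
  rw [half, mem_filter, mem_gsq]

/-- The last visit to `S`. -/
theorem last {S : Finset Site} {ω : Finset Edge} {x y : Site} (hy : y ∉ S) (h : reach ω x y) :
    (x ∉ S ∧ reach (ω \ touching S) x y) ∨
      ∃ u ∈ S, ∃ w, w ∉ S ∧ lnk ω u w ∧ reach (ω \ touching S) w y := by
  induction h using Relation.ReflTransGen.head_induction_on with
  | refl => exact Or.inl ⟨hy, Relation.ReflTransGen.refl⟩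
  | @head u w l _ ih =>
    refine ih.elim (fun k => ?_) Or.inr
    by_cases hu : u ∈ S
    · exact Or.inr ⟨u, hu, w, k.1, l, k.2⟩
    · obtain ⟨e, he, l⟩ := l
      refine Or.inl ⟨hu, Relation.ReflTransGen.head ⟨e, mem_sdiff.2 ⟨he, fun m => ?_⟩, l⟩ k.2⟩
      rw [mem_touching] at m
      rcases l with ⟨rfl, rfl⟩ | ⟨rfl, rfl⟩
      · exact m.elim hu k.1
      · exact m.elim k.1 hu

theorem side {s t : ℤ} {e : Edge} {u w : Site} (hu : u ∈ gsq s t) (hw : w ∉ gsq s t)
    (l : (e.1 = u ∧ tip e = w) ∨ (e.1 = w ∧ tip e = u)) :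
    ∃ a b c, u ∈ half false s t a b c ∧ w ∈ half true s t a b c := by
  obtain ⟨⟨p, q⟩, d⟩ := e
  cases d
  · by_cases k : s + t ≤ 2 * q
    · rcases l with ⟨rfl, rfl⟩ | ⟨rfl, rfl⟩
      · refine ⟨true, true, true, ?_⟩
        simp [mem_half, mem_gsq] at hu hw ⊢
        omega
      · refine ⟨true, false, true, ?_⟩
        simp [mem_half, mem_gsq] at hu hw ⊢
        omega
    · rcases l with ⟨rfl, rfl⟩ | ⟨rfl, rfl⟩
      · refine ⟨true, true, false, ?_⟩
        simp [mem_half, mem_gsq] at hu hw ⊢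
        omega
      · refine ⟨true, false, false, ?_⟩
        simp [mem_half, mem_gsq] at hu hw ⊢
        omega
  · by_cases k : s + t ≤ 2 * p
    · rcases l with ⟨rfl, rfl⟩ | ⟨rfl, rfl⟩
      · refine ⟨false, true, true, ?_⟩
        simp [mem_half, mem_gsq] at hu hw ⊢
        omega
      · refine ⟨false, false, true, ?_⟩
        simp [mem_half, mem_gsq] at hu hw ⊢
        omega
    · rcases l with ⟨rfl, rfl⟩ | ⟨rfl, rfl⟩
      · refine ⟨false, true, false, ?_⟩
        simp [mem_half, mem_gsq] at hu hw ⊢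
        omega
      · refine ⟨false, false, false, ?_⟩
        simp [mem_half, mem_gsq] at hu hw ⊢
        omega

theorem cover {j : Bool} {s t r : ℤ} (hr : 1 ≤ r) {ω : Finset Edge}
    (h : ∃ z ∈ gsq s t, exits (gsq (s - r) (t + r)) ω z) :
    ∃ i ∈ (univ : Finset (Bool × Bool × Bool)), arm j s t r i.1 i.2.1 i.2.2 ω := by
  obtain ⟨z, hz, y, hy, k⟩ := h
  have hy' : y ∉ gsq s t := fun m => hy (by rw [mem_gsq] at m ⊢; omega)
  obtain ⟨u, hu, w, hw, ⟨e, he, l⟩, m⟩ := (last hy' k).resolve_left fun m => m.1 hz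
  obtain ⟨a, b, c, k1, k2⟩ := side hu hw l
  refine ⟨(a, b, c), mem_univ _, ?_⟩
  cases j
  · refine ⟨u, k1, y, hy, Relation.ReflTransGen.head ⟨e, mem_sdiff.2 ⟨he, fun n => ?_⟩, l⟩
      (m.mono (sdiff_subset_sdiff subset_rfl (filter_subset _ _)))⟩
    have n' := (mem_filter.1 n).2
    rcases l with ⟨-, rfl⟩ | ⟨rfl, -⟩
    · exact hw n'.2
    · exact hw n'.1
  · exact ⟨w, k2, y, hy, m⟩

/-- Symmetries of the square permute the arms. -/
theorem sym {pr : Ev → ℝ} (H : Fn0 pr) {φ : Site ≃ Site} {ψ : Edge ≃ Edge} (h : Aut φ ψ)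
    {j : Bool} {s t r : ℤ} {a b c a' b' c' : Bool}
    (h0 : ∀ x, φ x ∈ gsq s t ↔ x ∈ gsq s t)
    (h1 : ∀ x, φ x ∈ gsq (s - r) (t + r) ↔ x ∈ gsq (s - r) (t + r))
    (h2 : ∀ x, φ x ∈ half j s t a' b' c' ↔ x ∈ half j s t a b c) :
    pr (arm j s t r a b c) = pr (arm j s t r a' b' c') := by
  rw [← H.inv φ ψ h _ (loc_arm j s t r a' b' c')]
  refine Fn0.congr fun ω => ?_
  have e1 : (gsq (s - r) (t + r)).map φ.toEmbedding = gsq (s - r) (t + r) := by
    ext x
    obtain ⟨x, rfl⟩ := φ.surjective x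
    rw [h1, mem_map_equiv, Equiv.symm_apply_apply]
  have e2 : (ω \ rem j s t).map ψ.toEmbedding = ω.map ψ.toEmbedding \ rem j s t := by
    ext e
    obtain ⟨e, rfl⟩ := ψ.surjective e
    have : ψ e ∈ rem j s t ↔ e ∈ rem j s t := by
      rcases h e with ⟨c, d⟩ | ⟨c, d⟩ <;> cases j <;>
        simp only [rem, inn, mem_filter, mem_touching, c, d, h0, if_true, Bool.false_eq_true,
          if_false] <;> tauto
    simp only [mem_map_equiv, Equiv.symm_apply_apply, mem_sdiff, this]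
  have e3 : ∀ z, exits (gsq (s - r) (t + r)) (ω.map ψ.toEmbedding \ rem j s t) (φ z) ↔
      exits (gsq (s - r) (t + r)) (ω \ rem j s t) z := fun z => by
    rw [← h.exits (ω := ω \ rem j s t), e1, e2]
  refine ⟨fun ⟨z, k, l⟩ => ⟨φ z, (h2 z).2 k, (e3 z).2 l⟩, fun ⟨z, k, l⟩ => ?_⟩
  obtain ⟨z, rfl⟩ := φ.surjective z
  exact ⟨z, (h2 z).1 k, (e3 z).1 l⟩

theorem same {pr : Ev → ℝ} (H : Fn0 pr) (j : Bool) (s t r : ℤ) (a b c : Bool) :
    pr (arm j s t r a b c) = pr (arm j s t r true true true) := by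
  have w : ∀ b c, pr (arm j s t r false b c) = pr (arm j s t r true b c) := fun b c =>
    sym H aut_swap (fun x => by simp [mem_gsq]; omega) (fun x => by simp [mem_gsq]; omega)
      fun x => by cases c <;> simp [mem_half] <;> omega
  have g0 : ∀ x, reflS (s + t) x ∈ gsq s t ↔ x ∈ gsq s t := fun x => by
    simp only [mem_gsq, reflS_apply]; omega
  have g1 : ∀ x, reflS (s + t) x ∈ gsq (s - r) (t + r) ↔ x ∈ gsq (s - r) (t + r) := fun x => by
    simp only [mem_gsq, reflS_apply]; omega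
  have u : ∀ c, pr (arm j s t r true false c) = pr (arm j s t r true true c) := fun c =>
    sym H (aut_refl (s + t)) g0 g1 fun x => by
      cases c <;> cases j <;> simp [mem_half, reflS_apply] <;> omega
  have v : ∀ b, pr (arm j s t r false b false) = pr (arm j s t r false b true) := fun b =>
    sym H (aut_refl (s + t)) g0 g1 fun x => by
      cases b <;> cases j <;> simp [mem_half, reflS_apply] <;> omega
  have x : pr (arm j s t r true true false) = pr (arm j s t r true true true) := by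
    rw [← w, v, w]
  cases a <;> cases b <;> cases c <;> simp only [w, u, x]

theorem fkg {pr : Ev → ℝ} (H : Fn0 pr) {ι : Type} (I : Finset ι) (B : ι → Ev) (p : ℝ)
    (l : ∀ i, Loc (B i)) (m : ∀ i, Inc (B i)) (e : ∀ i, pr (B i) = p) (hp : p ≤ 1) :
    (1 - p) ^ I.card ≤ pr fun ω => ¬ ∃ i ∈ I, B i ω := by
  induction I using Finset.induction_on with
  | empty => simp [H.one]
  | insert x I hx ih =>
    simp only [mem_insert, exists_eq_or_imp, not_or, card_insert_of_notMem hx]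
    refine le_trans ?_ (H.fkg _ _ (l x).not (loc_ex fun i _ => l i).not
      (fun ω ω' h k n => k (m x _ _ h n)) fun ω ω' h k ⟨i, a, n⟩ => k ⟨i, a, m i _ _ h n⟩)
    rw [H.compl (l x), e, pow_succ']
    exact mul_le_mul_of_nonneg_left ih (by linarith)

end RSqr

open RSqr in
theorem rsqr : SQR := by
  intro pr H j s t r a b c _ hr
  have k := RSqr.fkg H (univ : Finset (Bool × Bool × Bool)) (fun i => arm j s t r i.1 i.2.1 i.2.2)
    (pr (arm j s t r a b c)) (fun _ => loc_arm ..) (fun _ => inc_arm _ _ _ _ _ _ _)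
    (fun _ => (same H ..).trans (same H ..).symm) (H.le_one (loc_arm ..))
  exact k.trans (H.mono (loc_ex fun _ _ => loc_arm ..).not
    (loc_ex fun z _ => loc_exits _ z).not fun ω n m => n (cover hr m))

end

end Pool.Agent.MP_cb84d8_pr.PT
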