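import Pool.Agent.MP_cb84d8_pr.PT.Basic

/-! PROJECT POTTS: the static bound for the ordered state (row STA). -/

open Finset Filter Topology MeasureTheory

namespace Pool.Agent.MP_cb84d8_pr.PT

noncomputable section
open Classical

namespace RSta

theorem cr_mono {g g' : Site → Prop} {m N : ℤ} (h : ∀ a, g a → g' a) (k : crossing g m N) :
    crossing g' m N := by
  obtain ⟨x, hx, y, hy, p⟩ := k
  refine ⟨x, hx, y, hy, ?_⟩
  clear hy
  induction p with
  | refl => exact Relation.ReflTransGen.refl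
  | tail _ l ih => exact ih.tail ⟨l.1, ⟨h _ l.2.1.1, l.2.1.2⟩, h _ l.2.2.1, l.2.2.2⟩

theorem eps_le_one (β : ℝ) : eps β ≤ 1 := by
  have h1 : √(1 - Real.exp (-β)) ≤ 1 := Real.sqrt_le_one.2 (by linarith [Real.exp_pos (-β)])
  have h2 := Real.sqrt_nonneg (1 - Real.exp (-β))
  exact pow_le_one₀ (by linarith) (by linarith)

theorem int_ind {α : Type} [MeasurableSpace α] (μ : Measure α) (A : α → Prop)
    (h : Measurable fun σ => ind (A σ)) : ∫ σ, ind (A σ) ∂μ = μ.real {σ | A σ} := by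
  have hm : MeasurableSet {σ | A σ} := by
    have : {σ | A σ} = (fun σ => ind (A σ)) ⁻¹' {1} := by
      ext σ
      by_cases k : A σ <;> simp [ind, k]
    rw [this]
    exact h (measurableSet_singleton _)
  rw [← integral_indicator_one hm]
  refine integral_congr_ae (Eventually.of_forall fun σ => ?_)
  by_cases k : A σ <;> simp [ind, k]

theorem pav_ber {q : ℕ} [NeZero q] (β r : ℝ) (Λ S : Finset Site) (G : Col q → Finset Site → ℝ) :
    pav β Λ (fun σ => ber (fun _ => r) S (G σ)) =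
      ber (fun _ => r) S fun ζ => pav β Λ fun σ => G σ ζ := by
  unfold ber
  rw [pav_sum]
  exact sum_congr rfl fun ζ _ => pav_cmul _

end RSta

open RSta in
theorem rsta : SML → SPR → LOM → STA := by
  intro hS hP hL q _ β δ μ m hβ hμ hδ hm
  obtain ⟨N₀, h₀, N₁, h₁⟩ := hS q β δ m hβ hδ hm
  obtain ⟨N, hN, hl⟩ := hL q β μ hμ
  refine ⟨N₀, h₀, fun r r0 r1 => ?_⟩
  have dep : ∀ ζ : Finset Site, Dep (box (N₀ + 1)) fun σ : Col q =>
      ind (crossing (fun a => a ∈ box (N₀ + 1) ∧ (σ a ≠ 0 ∨ a ∈ ζ)) m N₀) := fun ζ σ σ' h => by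
    beta_reduce
    congr 2
    funext a
    exact propext (and_congr_right fun k => by rw [h a k])
  have lim : Tendsto (fun k => ber (fun _ => r) (box (N₀ + 1)) fun ζ => pav β (box (N k))
      fun σ : Col q => ind (crossing (fun a => a ∈ box (N₀ + 1) ∧ (σ a ≠ 0 ∨ a ∈ ζ)) m N₀)) atTop
      (𝓝 (ber (fun _ => r) (box (N₀ + 1)) fun ζ => μ.real {σ |
        crossing (fun a => a ∈ box (N₀ + 1) ∧ (σ a ≠ 0 ∨ a ∈ ζ)) m N₀})) := by
    unfold ber
    refine tendsto_finsetSum _ fun ζ _ => Tendsto.const_mul _ ?_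
    obtain ⟨a, -, c⟩ := hl _ _ (dep ζ)
    rw [int_ind μ _ a] at c
    exact c
  refine le_of_tendsto lim ?_
  filter_upwards [hN.eventually_ge_atTop N₁, hN.eventually_ge_atTop (N₀ + 1)] with k k1 k2
  rw [← pav_ber]
  refine le_trans (pav_mono fun σ _ => ber_mono (fun _ _ => ⟨r0, r1.trans (eps_le_one β)⟩)
    fun ζ _ => ind_mono (cr_mono fun a l => l.2)) ?_
  exact (hP q β r m N₀ (N k) _ (beta_pos hβ).1 (fun _ l => box_mono k2 l) r0 r1).trans (h₁ _ k1)

end

end Pool.Agent.MP_cb84d8_pr.PT
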