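import Pool.Agent.MP_cb84d8_pr.PT.Basic

/-! The number of inner clusters is supermodular. -/

open Finset

namespace Pool.Agent.MP_cb84d8_pr.PT

noncomputable section
open Classical

namespace RSup

theorem ex (Λ : Finset Site) (ω : Finset Edge) : ∃ S : Finset (Site → ZMod 2),
    ∀ σ, σ ∈ S ↔ (∀ x, x ∉ Λ → σ x = 0) ∧ ∀ e ∈ ω, σ e.1 = σ (tip e) := by
  have h : Set.Finite {σ : Site → ZMod 2 |
      (∀ x, x ∉ Λ → σ x = 0) ∧ ∀ e ∈ ω, σ e.1 = σ (tip e)} :=
    Set.Finite.of_finite_image (f := fun σ (x : Λ) => σ x) (Set.toFinite _)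
      fun σ hσ τ hτ h => funext fun x => by
        by_cases hx : x ∈ Λ
        · exact congrFun h ⟨x, hx⟩
        · rw [hσ.1 x hx, hτ.1 x hx]
  exact ⟨h.toFinset, fun σ => h.mem_toFinset⟩

end RSup

theorem rsup : CARD → SUP := by
  intro h Λ Λ' a b hΛ
  obtain ⟨A, hA⟩ := RSup.ex Λ a
  obtain ⟨B, hB⟩ := RSup.ex Λ' b
  obtain ⟨C, hC⟩ := RSup.ex Λ (a ∩ b)
  obtain ⟨D, hD⟩ := RSup.ex Λ' (a ∪ b)
  have key : (A ×ˢ B).card ≤ D.card * C.card := by
    refine card_le_mul_card_image_of_maps_to (f := fun p => p.1 + p.2) (fun p hp => ?_) _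
      fun s _ => ?_
    · obtain ⟨h1, h2⟩ := mem_product.1 hp
      rw [hA] at h1
      rw [hB] at h2
      refine (hC _).2 ⟨fun x hx => ?_, fun e he => ?_⟩
      · rw [Pi.add_apply, h1.1 x hx, h2.1 x fun h' => hx (hΛ h'), add_zero]
      · rw [Pi.add_apply, Pi.add_apply, h1.2 e (mem_inter.1 he).1, h2.2 e (mem_inter.1 he).2]
    · rcases ((A ×ˢ B).filter fun p => p.1 + p.2 = s).eq_empty_or_nonempty with e | ⟨p₀, h0⟩
      · rw [e]
        exact Nat.zero_le _
      obtain ⟨h1, h2⟩ := mem_filter.1 h0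
      obtain ⟨h3, h4⟩ := mem_product.1 h1
      rw [hA] at h3
      rw [hB] at h4
      refine card_le_card_of_injOn (fun p => p.1 - p₀.1) (fun p hp => ?_) fun p hp p' hp' e => ?_
      · obtain ⟨k1, k2⟩ := mem_filter.1 (mem_coe.1 hp)
        obtain ⟨k3, k4⟩ := mem_product.1 k1
        rw [hA] at k3
        rw [hB] at k4
        have e : p.1 - p₀.1 = p₀.2 - p.2 := by
          rw [sub_eq_sub_iff_add_eq_add, k2, add_comm, h2]
        refine mem_coe.2 ((hD _).2 ⟨fun x hx => ?_, fun c hc => ?_⟩)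
        · change (p.1 - p₀.1) x = 0
          rw [e, Pi.sub_apply, h4.1 x hx, k4.1 x hx, sub_zero]
        · change (p.1 - p₀.1) c.1 = (p.1 - p₀.1) (tip c)
          rcases mem_union.1 hc with hc | hc
          · rw [Pi.sub_apply, Pi.sub_apply, h3.2 c hc, k3.2 c hc]
          · rw [e, Pi.sub_apply, Pi.sub_apply, h4.2 c hc, k4.2 c hc]
      · have e1 : p.1 = p'.1 := sub_left_injective e
        have e2 := (mem_filter.1 (mem_coe.1 hp)).2.trans (mem_filter.1 (mem_coe.1 hp')).2.symm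
        rw [e1] at e2
        exact Prod.ext e1 (add_left_cancel e2)
  rw [card_product, h _ 0 Λ a A hA, h _ 0 Λ' b B hB, h _ 0 Λ (a ∩ b) C hC,
    h _ 0 Λ' (a ∪ b) D hD, ZMod.card, ← pow_add, ← pow_add] at key
  have := (Nat.pow_le_pow_iff_right (by omega)).1 key
  omega

end

end Pool.Agent.MP_cb84d8_pr.PT
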