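import Pool.Agent.MP_cb84d8_pr.PT.Basic

/-! PROJECT POTTS, row TIG: large finite clusters are rare, uniformly in the volume. -/

open Finset Filter Topology MeasureTheory

namespace Pool.Agent.MP_cb84d8_pr.PT

noncomputable section
open Classical

namespace Tig

variable {v Q : ℝ}

/-- The wired measures decrease with the volume. -/
theorem dom (I : IRR) (H : HOL) (C : COND) (hv : 0 < v) (hQ : 1 ≤ Q) {Λ Λ' : Finset Site}
    (h : Λ' ⊆ Λ) {f : Finset Edge → ℝ} (hf : Monotone f) (hl : ∀ ω, f ω = f (ω ∩ touching Λ')) :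
    wr v Q Λ f ≤ wr v Q Λ' f := by
  have hQ0 : 0 < Q := by linarith
  have k := C v Q (wr v Q Λ' f) (touching Λ) (touching Λ') Λ f (fun _ => 1) hv hQ0
    (touching_mono h) (fun _ => zero_le_one) fun ξ hξ => by
      have d : Disjoint ξ (touching Λ') :=
        Finset.disjoint_left.2 fun e he => (mem_sdiff.1 (hξ he)).2
      refine (H.hol v v Q _ _ ξ ξ Λ Λ' f hv le_rfl hQ subset_rfl h subset_rfl d.symm hf).trans ?_
      refine (fk_of_kk (Λ' := Λ') (ξ' := ∅) hQ0 0 fun ω _ => ?_).le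
      rw [union_empty, add_zero]
      exact I.far Λ' ω ξ d
  rw [fk_const hv hQ0, mul_one] at k
  refine le_trans (le_of_eq (fk_congr fun ω _ => ?_)) k
  rw [mul_one]
  exact hl ω

/-- The probability, in the volume `N`, to leave the box `m`. -/
def b (v Q : ℝ) (z : Site) (m N : ℤ) : ℝ := wr v Q (box N) fun ω => ind (exits (box m) ω z)

theorem b_vol (I : IRR) (H : HOL) (C : COND) (hv : 0 < v) (hQ : 1 ≤ Q) (z : Site) {m N : ℤ}
    (h : m ≤ N) : b v Q z m N ≤ b v Q z m m :=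
  dom I H C hv hQ (box_mono h) (fun _ _ k => ind_mono (exits_mono subset_rfl k))
    fun _ => ind_congr exits_loc

theorem b_box (hv : 0 < v) (hQ : 1 ≤ Q) (z : Site) {m m' : ℤ} (h : m ≤ m') (N : ℤ) :
    b v Q z m' N ≤ b v Q z m N :=
  fk_mono hv (by linarith) fun _ _ => ind_mono (exits_mono (box_mono h) subset_rfl)

theorem b_nonneg (hv : 0 < v) (hQ : 1 ≤ Q) (z : Site) (m N : ℤ) : 0 ≤ b v Q z m N :=
  fk_nonneg hv (by linarith) fun _ _ => ind_nonneg _

theorem point (K : Finset Site) {m N : ℤ} (h : m ≤ N) (ω : Finset Edge) :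
    ind (∃ z ∈ K, exits (box m) ω z ∧ ¬ exits (box N) ω z) ≤
      ∑ z ∈ K, (ind (exits (box m) ω z) - ind (exits (box N) ω z)) := by
  have p : ∀ z ∈ K, 0 ≤ ind (exits (box m) ω z) - ind (exits (box N) ω z) := fun z _ =>
    sub_nonneg.2 (ind_mono (exits_mono (box_mono h) subset_rfl))
  by_cases k : ∃ z ∈ K, exits (box m) ω z ∧ ¬ exits (box N) ω z
  · rw [ind_pos k]
    obtain ⟨z, hz, a, c⟩ := k
    refine le_trans (le_of_eq ?_) (single_le_sum p hz)
    rw [ind_pos a, ind_neg c, sub_zero]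
  · rw [ind_neg k]
    exact sum_nonneg p

end Tig

theorem rtig : IRR → HOL → COND → TIG := by
  intro I H C v Q ε K hv hQ hε
  have hQ0 : 0 < Q := by linarith
  let d : ℤ → ℝ := fun N => ∑ z ∈ K, Tig.b v Q z N N
  have hb : BddBelow (Set.range d) :=
    ⟨0, by rintro _ ⟨N, rfl⟩; exact sum_nonneg fun z _ => Tig.b_nonneg hv hQ z N N⟩
  obtain ⟨m₀, h0⟩ : ∃ m₀, d m₀ < iInf d + ε := exists_lt_of_ciInf_lt (by linarith)
  refine ⟨m₀, fun m hm => ⟨m, fun N hN => ?_⟩⟩
  have h1 : iInf d ≤ d N := ciInf_le hb N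
  have h2 : ∑ z ∈ K, Tig.b v Q z m N ≤ d m₀ := sum_le_sum fun z _ =>
    (Tig.b_box hv hQ z hm N).trans (Tig.b_vol I H C hv hQ z (hm.trans hN))
  refine (fk_mono hv hQ0 fun ω _ => Tig.point K hN ω).trans ?_
  rw [fk_sum, sum_congr rfl fun z _ => fk_sub, sum_sub_distrib]
  show ∑ z ∈ K, Tig.b v Q z m N - d N ≤ ε
  linarith

end

end Pool.Agent.MP_cb84d8_pr.PT
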