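import Pool.Agent.MP_cb84d8_pr.PT.Basic

/-! PROJECT POTTS: alternating arms are separated. -/

open Finset

namespace Pool.Agent.MP_cb84d8_pr.PT

noncomputable section
open Classical

namespace RTop

theorem sg_symm (η η' : Finset Edge) (e : Edge) :
    sg (e ∈ symmDiff η η') = sg (e ∈ η) * sg (e ∈ η') := by
  by_cases a : e ∈ η <;> by_cases b : e ∈ η' <;> simp [sg, mem_symmDiff, a, b]

theorem par_symm (η η' : Finset Edge) (x : Site) :
    par (symmDiff η η') x = par η x * par η' x := by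
  simp only [par_eq, sg_symm]
  ring

theorem par_one (e : Edge) (x : Site) : par {e} x = sg (e.1 = x) * sg (tip e = x) := by
  simp [par]

theorem path_par {ω : Finset Edge} {a b : Site} (h : reach ω a b) :
    ∃ η ⊆ ω, ∀ x, par η x = sg (a = x) * sg (b = x) := by
  induction h with
  | refl => exact ⟨∅, empty_subset _, fun x => by rw [sg_mul_self]; simp [par]⟩
  | @tail u w _ l ih =>
    obtain ⟨η, s, p⟩ := ih
    obtain ⟨e, he, l⟩ := l
    refine ⟨symmDiff η {e}, fun f hf => ?_, fun x => ?_⟩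
    · rcases mem_symmDiff.1 hf with k | k
      · exact s k.1
      · exact mem_singleton.1 k.1 ▸ he
    · rw [par_symm, p, par_one]
      have := sg_mul_self (u = x)
      rcases l with ⟨c, d⟩ | ⟨c, d⟩ <;> rw [c, d]
      · linear_combination (sg (a = x) * sg (w = x)) * this
      · linear_combination (sg (a = x) * sg (w = x)) * this

theorem reach_inn {n : ℤ} {a : Site} (h : a ∈ box n) : reach (inn (-n) n) (-n, -n) a := by
  obtain ⟨i, j⟩ := a
  simp only [mem_box] at h
  have h1 : ∀ k, -n ≤ k → k ≤ n → reach (inn (-n) n) (-n, -n) (-n, k) := fun k hk => by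
    induction k, hk using Int.leInduction with
    | base => exact fun _ => Relation.ReflTransGen.refl
    | succ k hk ih =>
      exact fun l => (ih (by omega)).trans (reach_edge (e := ((-n, k), true))
        (by simp only [mem_inn, mem_gsq, tip_true]; omega))
  have h2 : ∀ k, -n ≤ k → k ≤ n → reach (inn (-n) n) (-n, -n) (k, j) := fun k hk => by
    induction k, hk using Int.leInduction with
    | base => exact fun _ => h1 j h.2.2.1 h.2.2.2
    | succ k hk ih =>
      exact fun l => (ih (by omega)).trans (reach_edge (e := ((k, j), false))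
        (by simp only [mem_inn, mem_gsq, tip_false]; omega))
  exact h2 i h.1 h.2.1

/-- `ρ` joins `a` in the box to `p`. -/
def Rad (n : ℤ) (ρ : Edge) (p : Site) : Prop :=
  ∃ a ∈ box n, (ρ.1 = a ∧ tip ρ = p) ∨ (ρ.1 = p ∧ tip ρ = a)

theorem key {n R : ℤ} {ω ζ : Finset Edge} (hR : n + 1 ≤ R)
    (hω : ∀ e ∈ ω, e.1 ∈ box R ∧ tip e ∈ box R)
    (hζ : ∀ e ∈ ζ, dual.symm e ∉ ω ∧ dual.symm e ∉ touching (box n)) {ρ ρ' : Edge} {p p' : Site}
    (h : Rad n ρ p) (h' : Rad n ρ' p') (hp : reach (ω \ touching (box n)) p p') :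
    ∃ S : Site → ℝ, (∀ d, exits (box R) ζ d → S d = 1) ∧ ∀ e ∈ touching (box n),
      e ∉ inn (-n) n → S e.1 = S (dual e).1 * (sg (e = ρ) * sg (e = ρ')) := by
  obtain ⟨a, ha, h⟩ := h
  obtain ⟨a', ha', h'⟩ := h'
  obtain ⟨γ, sγ, pγ⟩ := path_par hp
  obtain ⟨π, sπ, pπ⟩ := path_par ((reach_inn ha).symm.trans (reach_inn ha'))
  have t : ρ ∈ touching (box n) :=
    mem_touching.2 (h.elim (fun k => Or.inl (k.1 ▸ ha)) fun k => Or.inr (k.2 ▸ ha))
  have t' : ρ' ∈ touching (box n) :=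
    mem_touching.2 (h'.elim (fun k => Or.inl (k.1 ▸ ha')) fun k => Or.inr (k.2 ▸ ha'))
  have sub : ∀ e ∈ symmDiff (symmDiff γ π) (symmDiff {ρ} {ρ'}),
      e ∈ ω ∨ e ∈ touching (box n) := fun e he => by
    simp only [mem_symmDiff, mem_singleton] at he
    have a1 : e ∈ γ → e ∈ ω := fun k => (mem_sdiff.1 (sγ k)).1
    have a2 : e ∈ π → e ∈ touching (box n) := fun k => (mem_filter.1 (sπ k)).1
    have a3 : e = ρ → e ∈ touching (box n) := fun k => k ▸ t
    have a4 : e = ρ' → e ∈ touching (box n) := fun k => k ▸ t'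
    tauto
  obtain ⟨S, hS, hS1⟩ := exists_potential _ R (fun e he => (sub e he).elim (hω e) fun k =>
    ⟨box_mono hR (ends_touching k).1, box_mono hR (ends_touching k).2⟩) fun x => by
      rw [par_symm, par_symm, par_symm, pγ, pπ, par_one, par_one]
      have e : ∀ u v w z : ℝ, u * u = 1 → v * v = 1 → w * w = 1 → z * z = 1 →
          u * v * (w * z) * (w * u * (z * v)) = 1 := fun u v w z b c d e => by
        calc _ = (u * u) * (v * v) * (w * w) * (z * z) := by ring
          _ = 1 := by rw [b, c, d, e]; norm_num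
      have := e _ _ _ _ (sg_mul_self (p = x)) (sg_mul_self (p' = x)) (sg_mul_self (a = x))
        (sg_mul_self (a' = x))
      rcases h with ⟨c, d⟩ | ⟨c, d⟩ <;> rcases h' with ⟨c', d'⟩ | ⟨c', d'⟩ <;>
        rw [c, d, c', d', ← this] <;> ring
  refine ⟨S, ?_, fun e he hi => ?_⟩
  · rintro d ⟨y, hy, hd⟩
    have step : ∀ e ∈ ζ, S (tip e) = S e.1 := fun e he => by
      have := hS (dual.symm e)
      rw [← tip_dual (dual.symm e), Equiv.apply_symm_apply] at this
      rw [this, sg_neg fun k => (sub _ k).elim (hζ e he).1 (hζ e he).2, mul_one]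
    rw [← hS1 y hy]
    clear hy
    induction hd with
    | refl => rfl
    | tail _ l ih =>
      obtain ⟨e, he, l⟩ := l
      have := step e he
      rcases l with ⟨c, d⟩ | ⟨c, d⟩ <;> rw [c, d] at this <;> rw [ih, this]
  · rw [hS e, sg_symm, sg_symm, sg_symm, sg_neg fun k => (mem_sdiff.1 (sγ k)).2 he,
      sg_neg fun k => hi (sπ k)]
    simp only [mem_singleton, one_mul]

theorem prod_hit {a b u : ℤ} (h : a < u) (h' : u ≤ b) (f : ℤ → ℝ) (h1 : f u = -1)
    (h2 : ∀ k, a < k → k ≤ b → k ≠ u → f k = 1) : ∏ k ∈ Ioc a b, f k = -1 := by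
  rw [prod_eq_single_of_mem u (mem_Ioc.2 ⟨h, h'⟩)
    fun k hk => h2 k (mem_Ioc.1 hk).1 (mem_Ioc.1 hk).2, h1]

end RTop

open RTop in
theorem rtop : TOP := by
  rintro n R ω ζ ⟨i, _⟩ ⟨_, j⟩ ⟨l, _⟩ ⟨u, _⟩ ⟨_, w⟩ ⟨z, _⟩ hn hR hω hζ d1 d2 d3 e1 e2 e3 p1 p2 p3
  simp only [half, mem_filter, if_true, Bool.false_eq_true, if_false] at d1 d2 d3 p1 p2 p3
  obtain ⟨-, rfl, a1, -, a2⟩ := d1
  obtain ⟨-, rfl, -, b1, b2⟩ := d2
  obtain ⟨-, rfl, -, c1, c2⟩ := d3
  obtain ⟨-, rfl, -, u1, u2⟩ := p1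
  obtain ⟨-, rfl, w1, -, w2⟩ := p2
  obtain ⟨-, rfl, z1, -, z2⟩ := p3
  simp only [add_zero, sub_zero] at e1 e2 e3
  have r1 : Rad n ((u, n), true) (u, n + 1) :=
    ⟨(u, n), by simp only [mem_box]; omega, Or.inl ⟨rfl, rfl⟩⟩
  have r2 : Rad n ((n, w), false) (n + 1, w) :=
    ⟨(n, w), by simp only [mem_box]; omega, Or.inl ⟨rfl, rfl⟩⟩
  have r3 : Rad n ((z, -n - 1), true) (z, -n - 1) :=
    ⟨(z, -n), by simp only [mem_box]; omega, Or.inr ⟨rfl, by simp⟩⟩
  have V : ∀ (S : Site → ℝ) (c : Edge → ℝ), (∀ e ∈ touching (box n), e ∉ inn (-n) n →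
      S e.1 = S (dual e).1 * c e) → ∀ a y, -n - 1 ≤ a → a ≤ n → (y = n ∨ y = -n - 1) →
      S (n, y) = S (a, y) * ∏ k ∈ Ioc a n, c ((k, y), true) := fun S c h a y k1 k2 k3 =>
    tele (fun k => S (k, y)) _ k2 fun k _ _ => h ((k, y), true)
      (by simp only [mem_touching, mem_box, tip_true]; omega)
      (by simp only [mem_inn, mem_gsq, tip_true]; omega)
  have H : ∀ (S : Site → ℝ) (c : Edge → ℝ), (∀ e ∈ touching (box n), e ∉ inn (-n) n →
      S e.1 = S (dual e).1 * c e) → ∀ a b, -n - 1 ≤ a → a ≤ b → b ≤ n →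
      S (n, b) = S (n, a) * ∏ k ∈ Ioc a b, c ((n, k), false) := fun S c h a b k1 k2 k3 =>
    tele (fun k => S (n, k)) _ k2 fun k _ _ => h ((n, k), false)
      (by simp only [mem_touching, mem_box, tip_false]; omega)
      (by simp only [mem_inn, mem_gsq, tip_false]; omega)
  refine ⟨fun h => ?_, fun h => ?_, fun h => ?_⟩
  · obtain ⟨S, s1, s2⟩ := key hR hω hζ r1 r2 h
    have t1 := V S _ s2 i n a1 (by omega) (Or.inl rfl)
    have t2 := H S _ s2 j n (by omega) b1 le_rfl
    rw [s1 _ e1, prod_hit (u := u) (by omega) u1 _ (by simp [sg])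
      fun k _ _ hk => by simp [sg, hk]] at t1
    rw [s1 _ e2, prod_eq_one fun k hk => by
      have : k ≠ w := by simp only [mem_Ioc] at hk; omega
      simp [sg, this]] at t2
    linarith
  · obtain ⟨S, s1, s2⟩ := key hR hω hζ r1 r3 h
    have t1 := V S _ s2 i n a1 (by omega) (Or.inl rfl)
    have t2 := H S _ s2 j n (by omega) b1 le_rfl
    have : n ≠ -n - 1 := by omega
    rw [s1 _ e1, prod_hit (u := u) (by omega) u1 _ (by simp [sg, this])
      fun k _ _ hk => by simp [sg, hk, this]] at t1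
    rw [s1 _ e2, prod_eq_one fun k hk => by simp [sg]] at t2
    linarith
  · obtain ⟨S, s1, s2⟩ := key hR hω hζ r2 r3 h
    have t1 := V S _ s2 l (-n - 1) (by omega) c1 (Or.inr rfl)
    have t2 := H S _ s2 (-n - 1) j le_rfl (by omega) b1
    rw [s1 _ e3, prod_eq_one fun k hk => by
      have : k ≠ z := by simp only [mem_Ioc] at hk; omega
      simp [sg, this]] at t1
    rw [s1 _ e2, prod_hit (u := w) (by omega) (by omega) _ (by simp [sg])
      fun k _ _ hk => by simp [sg, hk]] at t2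
    linarith

end

end Pool.Agent.MP_cb84d8_pr.PT
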