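import Pool.Agent.MP_cb84d8_pr.PT.Basic

/-! PROJECT POTTS: almost surely there is no infinite backward chain of rings. -/

open Finset Filter Topology MeasureTheory

namespace Pool.Agent.MP_cb84d8_pr.PT

noncomputable section
open Classical

namespace RWf

/-- The sites with a ring in the window percolate from the box of size `m`. -/
def perc (m : ℤ) (t δ : ℝ) : Set (Site → ℕ → ℝ) :=
  {E | ∃ x ∈ box m, {y | Relation.ReflTransGen
    (fun a b => Adj a b ∧ E a ∈ window t δ ∧ E b ∈ window t δ) x y}.Infinite}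

theorem perc_null {m : ℤ} (hm : 0 ≤ m) {t δ : ℝ} (hδ : oneClock.real (window t δ) ≤ eps0) :
    clockLaw (perc m t δ) = 0 := by
  refine le_antisymm (ENNReal.le_of_forall_pos_le_add fun ε hε _ => ?_) zero_le
  obtain ⟨N, hN, hb⟩ := static_bound hm (show (0 : ℝ) < ε from hε)
  have hb' := hb (fun _ => oneClock.real (window t δ)) fun _ => ⟨measureReal_nonneg, hδ⟩
  have h1 : ber (fun _ => oneClock.real (window t δ)) (box N) (fun ζ =>
      if MP_cb84d8_pr.crossing (fun a => a ∉ box N ∨ a ∈ ζ) m N then 1 else 0) ≤ ε := by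
    refine le_trans (const_le_avg fun σ hσ => ber_mono
      (fun _ _ => ⟨measureReal_nonneg, measureReal_le_one⟩) fun ζ _ => ?_) hb'
    split_ifs with a b
    · exact le_rfl
    · exact absurd (a.mono fun x _ hx => hx.imp_left fun k => mem_fill.1 hσ x k) b
    · exact zero_le_one
    · exact le_rfl
  have h2 : perc m t δ ⊆ ⋃ ζ ∈ (box N).powerset.filter
      (fun ζ => MP_cb84d8_pr.crossing (fun a => a ∉ box N ∨ a ∈ ζ) m N), ringSet (box N) ζ t δ := by
    rintro E ⟨x, hx, hinf⟩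
    obtain ⟨y, hy, hy'⟩ := hinf.exists_notMem_finset (box N)
    simp only [Set.mem_iUnion]
    refine ⟨(box N).filter fun x => E x ∈ window t δ,
      mem_filter.2 ⟨mem_powerset.2 (filter_subset _ _), ?_⟩, fun x hx => ?_⟩
    · have key : ∀ a, E a ∈ window t δ →
          a ∉ box N ∨ a ∈ (box N).filter fun x => E x ∈ window t δ := fun a ha =>
        (Classical.em (a ∈ box N)).symm.imp_right fun k => mem_filter.2 ⟨k, ha⟩
      exact MP_cb84d8_pr.crossing_of_path hN hx hy'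
        (rtg_mono (fun a b hab => ⟨hab.1, key a hab.2.1, key b hab.2.2⟩) hy)
    · by_cases hw : E x ∈ window t δ <;> simp [mem_coe.1 hx, hw]
  have hw : ∀ ζ : Finset Site, 0 ≤ (∏ _x ∈ ζ, oneClock.real (window t δ)) *
      ∏ _x ∈ box N \ ζ, (1 - oneClock.real (window t δ)) := fun ζ =>
    mul_nonneg (prod_nonneg fun _ _ => measureReal_nonneg)
      (prod_nonneg fun _ _ => sub_nonneg.2 measureReal_le_one)
  rw [zero_add, ← ENNReal.ofReal_coe_nnreal]
  refine (measure_mono h2).trans ((measure_biUnion_finset_le _ _).trans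
    (le_trans (le_of_eq ?_) (ENNReal.ofReal_le_ofReal h1)))
  rw [sum_congr rfl fun ζ hζ => clock_ringSet (mem_powerset.1 (mem_filter.1 hζ).1) t δ,
    ← ENNReal.ofReal_sum_of_nonneg fun ζ _ => hw ζ, sum_filter, ber]
  simp only [mul_ite, mul_one, mul_zero]

theorem chain {E : Site → ℕ → ℝ} (hE : Regular E) {f : ℕ → Site × ℕ}
    (hf : ∀ n, rel E (f (n + 1)) (f n)) {d : ℝ} (hd : 0 < d) :
    ∃ k m : ℕ, k * d ≤ ring E (f 0).1 (f 0).2 ∧ E ∈ perc m (k * d) d := by
  have hτ : StrictAnti fun n => ring E (f n).1 (f n).2 := strictAnti_nat_of_succ_lt fun n => (hf n).2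
  obtain ⟨n₀, h0⟩ : ∃ n₀, ∀ n, ⌈ring E (f n₀).1 (f n₀).2 / d⌉₊ ≤ ⌈ring E (f n).1 (f n).2 / d⌉₊ :=
    ⟨_, fun a => Function.argmin_le (fun n => ⌈ring E (f n).1 (f n).2 / d⌉₊) a⟩
  obtain ⟨k, hk⟩ := Nat.exists_eq_succ_of_ne_zero
    (Nat.ceil_pos.2 (div_pos (hE.ring_pos (f n₀).1 (f n₀).2) hd)).ne'
  have h1 : ∀ n, k * d < ring E (f n).1 (f n).2 := fun n =>
    (lt_div_iff₀ hd).1 (Nat.lt_ceil.1 (by have := h0 n; omega))
  have h2 : ring E (f n₀).1 (f n₀).2 ≤ k * d + d := by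
    have := (div_le_iff₀ hd).1 (Nat.ceil_le.1 hk.le)
    push_cast at this
    linarith
  have h3 : ∀ n, E (f (n₀ + n)).1 ∈ window (k * d) d := fun n =>
    ⟨(f (n₀ + n)).2, h1 _, (hτ.antitone (Nat.le_add_right _ _)).trans h2⟩
  refine ⟨k, (f n₀).1.1.natAbs + (f n₀).1.2.natAbs, (h1 0).le, (f n₀).1, ?_, fun hC => ?_⟩
  · rw [mem_box]
    omega
  choose M hM using fun x => hE.2 x (ring E (f 0).1 (f 0).2)
  refine Set.infinite_range_of_injective (f := fun n => f (n₀ + n)) (fun a b e => ?_)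
    ((hC.biUnion fun y _ => (Set.finite_singleton y).prod (Set.finite_Iio (M y))).subset ?_)
  · exact Nat.add_left_cancel (hτ.injective (congrArg (fun r : Site × ℕ => ring E r.1 r.2) e))
  rintro _ ⟨n, rfl⟩
  refine Set.mem_biUnion (x := (f (n₀ + n)).1) ?_ ⟨rfl, (hE.strictMono _).lt_iff_lt.1
    ((hτ.antitone (Nat.zero_le _)).trans_lt (hM _))⟩
  induction n with
  | zero => exact Relation.ReflTransGen.refl
  | succ n ih =>
    refine Relation.ReflTransGen.tail ih ⟨?_, h3 n, h3 (n + 1)⟩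
    have := (hf (n₀ + n)).1
    unfold Adj at this ⊢
    rwa [abs_sub_comm, abs_sub_comm (f (n₀ + n)).1.2]

end RWf

theorem rwf : WF := by
  choose δ hδ0 hδ using fun T : ℕ => window_small (Nat.cast_nonneg T) eps0_pos
  have h1 : ∀ᵐ E ∂clockLaw, ∀ T k m : ℕ, k * δ T ≤ T → E ∉ RWf.perc m (k * δ T) (δ T) := by
    refine ae_all_iff.2 fun T => ae_all_iff.2 fun k => ae_all_iff.2 fun m => ?_
    by_cases h : k * δ T ≤ T
    · simp only [h, forall_const]
      exact measure_eq_zero_iff_ae_notMem.1 (RWf.perc_null (Int.natCast_nonneg m) (hδ T _ h))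
    · simp [h]
  filter_upwards [h1, ae_regular, ae_distinct] with E a b c
  refine ⟨b, c, wellFounded_iff_isEmpty_descending_chain.2 ⟨fun ⟨f, hf⟩ => ?_⟩⟩
  obtain ⟨T, hT⟩ := exists_nat_ge (ring E (f 0).1 (f 0).2)
  obtain ⟨k, m, h2, h3⟩ := RWf.chain b hf (hδ0 T)
  exact a T k m (h2.trans hT) h3

end

end Pool.Agent.MP_cb84d8_pr.PT
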