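import Pool.Agent.MP_cb84d8_pr.PT.Basic

/-! PROJECT POTTS, row ZH: the argument of Zhang. -/

open Finset Filter Topology MeasureTheory

namespace Pool.Agent.MP_cb84d8_pr.PT

noncomputable section
open Classical

theorem zh_root {p : ℝ} (h : (1 - p) ^ 8 ≤ (1 / 16 : ℝ) ^ 8) : 15 / 16 ≤ p := by
  by_contra k
  have k' : (1 / 16 : ℝ) < 1 - p := by linarith [not_le.1 k]
  exact absurd h (not_le.2 (pow_lt_pow_left₀ k' (by norm_num) (by norm_num)))

theorem zh_loc (K Λ : Finset Site) : Loc fun ω => ¬ ∃ z ∈ K, exits Λ ω z :=
  (loc_ex fun z _ => loc_exits Λ z).not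

/-- An arm only looks at the edges that meet the large square. -/
theorem zh_arm_inter (j : Bool) (s t r : ℤ) (a b c : Bool) (ω : Finset Edge) :
    arm j s t r a b c (ω ∩ touching (gsq (s - r) (t + r))) ↔ arm j s t r a b c ω := by
  unfold arm
  refine exists_congr fun z => and_congr_right fun _ => ?_
  rw [exits_loc (ω := ω \ rem j s t), show (ω \ rem j s t) ∩ touching (gsq (s - r) (t + r)) =
    (ω ∩ touching (gsq (s - r) (t + r))) \ rem j s t by ext; simp; tauto]

theorem zh_out_arm (n r : ℤ) (a b c : Bool) (ω : Finset Edge) :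
    arm true (-n) n r a b c ω ↔ arm true (-n) n r a b c (ω \ touching (box n)) := by
  unfold arm
  rw [show (ω \ touching (box n)) \ rem true (-n) n = ω \ rem true (-n) n by
    show (ω \ touching (box n)) \ touching (box n) = ω \ touching (box n)
    exact sdiff_idem _ _]

theorem zh_out_darm (n r : ℤ) (a b c : Bool) (ω : Finset Edge) :
    darm n r a b c ω ↔ darm n r a b c (ω \ touching (box n)) := by
  unfold darm arm
  have e : ∀ F : Finset Edge, du F (ω \ touching (box n)) \ rem false (-n - 1) n =
      du F ω \ rem false (-n - 1) n := fun F => by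
    show du F (ω \ touching (box n)) \ inn (-n - 1) n = du F ω \ inn (-n - 1) n
    ext e
    obtain ⟨e, rfl⟩ := dual.surjective e
    simp only [du, Finset.mem_sdiff, Finset.mem_filter, Equiv.symm_apply_apply, dual_touching]
    tauto
  rw [e]

theorem zh_out (n r : ℤ) : Out (touching (box n)) (six n r) := fun ω => by
  unfold six
  rw [← zh_out_arm, ← zh_out_arm, ← zh_out_arm, ← zh_out_darm, ← zh_out_darm, ← zh_out_darm]

theorem rzh : ZO → SQR → CNT → ZH := by
  intro zo sqr cnt pr h0 h1 h2 ε hε
  by_contra hn
  have hθ : ∀ r : ℤ, ε ≤ pr fun ω => exits (box r) ω 0 := fun r =>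
    (not_le.1 fun k => hn ⟨r, k⟩).le
  obtain ⟨n, hn0, hk⟩ := zo pr h0 h1 ε hε hθ ((1 / 16) ^ 8) (by positivity)
  have A : ∀ r : ℤ, 1 ≤ r → ∀ a b c, 15 / 16 ≤ pr (arm true (-n) n r a b c) := by
    intro r hr a b c
    refine zh_root ((sqr pr h0 true (-n) n r a b c (by omega) hr).trans ?_)
    have := hk (n + r)
    rwa [← gsq_box, ← gsq_box, show -(n + r) = -n - r by ring] at this
  have B : ∀ r : ℤ, 1 ≤ r → ∀ a b c, 15 / 16 ≤ pr (darm n r a b c) := by
    intro r hr a b c
    have b1 : 15 / 16 ≤ pr (arm false (-n - 1) n r a b c) := by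
      refine zh_root ((sqr pr h0 false (-n - 1) n r a b c (by omega) hr).trans ?_)
      refine (h0.mono (zh_loc _ _) (zh_loc _ _) ?_).trans (hk (n + 1 + r))
      rintro ω k ⟨z, hz, l⟩
      refine k ⟨z, ?_, exits_mono ?_ subset_rfl l⟩
      · rw [← gsq_box, mem_gsq] at hz
        rw [mem_gsq]
        omega
      · intro y hy
        rw [← gsq_box, mem_gsq]
        rw [mem_gsq] at hy
        omega
    have b2 := h2 (touching (gsq (-n - 1 - r) (n + r))) _ (inc_arm false (-n - 1) n r a b c)
    rw [Fn0.congr (pr := pr) (zh_arm_inter false (-n - 1) n r a b c)] at b2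
    exact b1.trans b2
  obtain ⟨c, hc, hi⟩ := h1.ins (touching (box n))
  refine cnt pr h0 n (c * (10 / 16)) hn0 (by positivity) fun r hr => ?_
  refine le_trans (mul_le_mul_of_nonneg_left ?_ hc.le) (hi _ (loc_six n r) (zh_out n r))
  have l1 := loc_arm true (-n) n r false true true
  have l2 := loc_arm true (-n) n r true true false
  have l3 := loc_arm true (-n) n r false false false
  have l4 := loc_darm n r false true false
  have l5 := loc_darm n r true true true
  have l6 := loc_darm n r false false true
  have m5 := h0.and_ge l5 l6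
  have m4 := h0.and_ge l4 (l5.and l6)
  have m3 := h0.and_ge l3 (l4.and (l5.and l6))
  have m2 := h0.and_ge l2 (l3.and (l4.and (l5.and l6)))
  have m1 := h0.and_ge l1 (l2.and (l3.and (l4.and (l5.and l6))))
  have e : pr (six n r) = pr fun ω => arm true (-n) n r false true true ω ∧
      arm true (-n) n r true true false ω ∧ arm true (-n) n r false false false ω ∧
        darm n r false true false ω ∧ darm n r true true true ω ∧ darm n r false false true ω := rfl
  rw [e]
  linarith [A r hr false true true, A r hr true true false, A r hr false false false,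
    B r hr false true false, B r hr true true true, B r hr false false true]

end

end Pool.Agent.MP_cb84d8_pr.PT
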