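import Pool.Agent.MP_cb84d8_pr.PT.RCard
import Pool.Agent.MP_cb84d8_pr.PT.RSup
import Pool.Agent.MP_cb84d8_pr.PT.RIrr
import Pool.Agent.MP_cb84d8_pr.PT.RHol
import Pool.Agent.MP_cb84d8_pr.PT.RCond
import Pool.Agent.MP_cb84d8_pr.PT.RDua
import Pool.Agent.MP_cb84d8_pr.PT.RLim
import Pool.Agent.MP_cb84d8_pr.PT.RFn0
import Pool.Agent.MP_cb84d8_pr.PT.RFn1
import Pool.Agent.MP_cb84d8_pr.PT.RFn2
import Pool.Agent.MP_cb84d8_pr.PT.RZo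
import Pool.Agent.MP_cb84d8_pr.PT.RSqr
import Pool.Agent.MP_cb84d8_pr.PT.RTop
import Pool.Agent.MP_cb84d8_pr.PT.RBkc
import Pool.Agent.MP_cb84d8_pr.PT.REnc
import Pool.Agent.MP_cb84d8_pr.PT.RCnt
import Pool.Agent.MP_cb84d8_pr.PT.RZh
import Pool.Agent.MP_cb84d8_pr.PT.RFin
import Pool.Agent.MP_cb84d8_pr.PT.RTig
import Pool.Agent.MP_cb84d8_pr.PT.RPes
import Pool.Agent.MP_cb84d8_pr.PT.RRc
import Pool.Agent.MP_cb84d8_pr.PT.RSml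
import Pool.Agent.MP_cb84d8_pr.PT.RSpr
import Pool.Agent.MP_cb84d8_pr.PT.RLom
import Pool.Agent.MP_cb84d8_pr.PT.RSta
import Pool.Agent.MP_cb84d8_pr.PT.RPck
import Pool.Agent.MP_cb84d8_pr.PT.RInv
import Pool.Agent.MP_cb84d8_pr.PT.RRun
import Pool.Agent.MP_cb84d8_pr.PT.RWf
import Pool.Agent.MP_cb84d8_pr.PT.RExp
import Pool.Agent.MP_cb84d8_pr.PT.RLcd
import Pool.Agent.MP_cb84d8_pr.PT.RNul
import Pool.Agent.MP_cb84d8_pr.PT.RMain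
import Pool.Agent.MP_cb84d8_pr.PT.RExo

/-! PROJECT POTTS: assembly. -/

namespace Pool.Agent.MP_cb84d8_pr.PT

theorem potts : MAIN :=
  Rows.all ⟨rcard, rsup, rirr, rhol, rcond, rdua, rlim, rfn0, rfn1, rfn2, rzo, rsqr, rtop, rbkc,
    renc, rcnt, rzh, rfin, rtig, rpes, rrc, rsml, rspr, rlom, rsta, rpck, rinv, rrun, rwf,
    rexp, rlcd, rnul, rmain⟩

end Pool.Agent.MP_cb84d8_pr.PT
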