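import Pool.Agent.MP_cb84d8_pr.Defs

/-!
The Potts model on the square lattice, its ordered state and the heat-bath Glauber dynamics.
-/

open MeasureTheory Filter Topology

namespace Pool.Agent.MP_cb84d8_pr.PT

noncomputable section
open Classical

/-- Colourings of the square lattice with `q` colours. -/
abbrev Col (q : ℕ) := Site → Fin q

variable {q : ℕ} [NeZero q]

/-- The box `[-N, N]²`. -/
def sq (N : ℕ) : Finset Site := Finset.Icc (-(N : ℤ)) N ×ˢ Finset.Icc (-(N : ℤ)) N

/-- The Boltzmann weight: `exp (β ·` number of edges meeting `Λ` whose ends have one colour`)`. -/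
def pw (β : ℝ) (Λ : Finset Site) (σ : Col q) : ℝ :=
  Real.exp (β * ((touching Λ).filter fun e => σ e.1 = σ (tip e)).card)

/-- The colourings with colour `0` outside `Λ`. -/
def pfill (q : ℕ) [NeZero q] (Λ : Finset Site) : Finset (Col q) :=
  Finset.univ.image fun (s : Λ → Fin q) x => if h : x ∈ Λ then s ⟨x, h⟩ else 0

/-- The mean of `f` for the Potts measure in `Λ` with boundary colour `0`. -/
def pav (β : ℝ) (Λ : Finset Site) (f : Col q → ℝ) : ℝ :=
  (∑ σ ∈ pfill q Λ, pw β Λ σ * f σ) / ∑ σ ∈ pfill q Λ, pw β Λ σ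

/-- The colourings that agree with `τ` on `K`. -/
def cyl (K : Finset Site) (τ : Col q) : Set (Col q) := {σ | ∀ x ∈ K, σ x = τ x}

/-- `μ` is a limit of Potts measures with boundary colour `0` along boxes that grow to `ℤ²`. -/
def IsOrdered (β : ℝ) (μ : Measure (Col q)) : Prop :=
  IsProbabilityMeasure μ ∧ ∃ N : ℕ → ℕ, Tendsto N atTop atTop ∧ ∀ (K : Finset Site) (τ : Col q),
    Tendsto (fun k => pav β (sq (N k)) ((cyl K τ).indicator 1)) atTop (𝓝 (μ.real (cyl K τ)))

/-- The number of neighbours of `x` with colour `c`. -/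
def nb (σ : Col q) (x : Site) (c : Fin q) : ℕ :=
  (({(x.1 + 1, x.2), (x.1 - 1, x.2), (x.1, x.2 + 1), (x.1, x.2 - 1)} : Finset Site).filter
    fun y => σ y = c).card

/-- The heat-bath probability of the colour `c` at `x`. -/
def hb (β : ℝ) (σ : Col q) (x : Site) (c : Fin q) : ℝ :=
  Real.exp (β * nb σ x c) / ∑ c', Real.exp (β * nb σ x c')

/-- `σ` is a path of the heat-bath dynamics with initial state `σ₀`, waiting times `E` and update
variables `U`: the colour at `x` is `σ₀ x` until the first ring at `x`, and from ring number `n` to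
the next one it is the least colour `c` such that `U (x, n)` is at most the heat-bath probability
of the colours up to `c`, computed from the neighbours at the time of the ring. -/
def IsPath (β : ℝ) (σ₀ : Col q) (E : Site → ℕ → ℝ) (U : Site × ℕ → ℝ) (σ : ℝ → Col q) : Prop :=
  ∀ x : Site, (∀ t, 0 ≤ t → t < ring E x 0 → σ t x = σ₀ x) ∧
    ∀ (n : ℕ) (t : ℝ), ring E x n ≤ t → t < ring E x (n + 1) → ∀ c : Fin q,
      (σ t x ≤ c ↔ U (x, n) ≤ ∑ c' ∈ Finset.Iic c, hb β (σ (ring E x n)) x c')

/-- Neighbours in the matching lattice: each coordinate differs by at most one, so that the four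
diagonal neighbours count as well as the four nearest neighbours. -/
def Near (x y : Site) : Prop := |x.1 - y.1| ≤ 1 ∧ |x.2 - y.2| ≤ 1

/-- The set `A` has an infinite component in the matching lattice. -/
def HasInf (A : Set Site) : Prop :=
  ∃ x, {y | Relation.ReflTransGen (fun a b => Near a b ∧ a ∈ A ∧ b ∈ A) x y}.Infinite

end

end Pool.Agent.MP_cb84d8_pr.PT
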