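import Pool.Agent.MP_cb84d8_pr.PT.Basic

/-! PROJECT POTTS, row CARD: compatible colourings are functions on the inner clusters. -/

open Finset

namespace Pool.Agent.MP_cb84d8_pr.PT

noncomputable section
open Classical

namespace RCard

variable (Λ : Finset Site) (ω : Finset Edge)

def cl (x : Site) : Finset Site := Λ.filter (reach ω x)

def KK : Finset (Finset Site) := (Λ.filter fun x => ¬ exits Λ ω x).image (cl Λ ω)

variable {Λ ω}

theorem cl_eq {x y : Site} (h : reach ω x y) : cl Λ ω x = cl Λ ω y :=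
  filter_congr fun _ _ => ⟨fun k => h.symm.trans k, fun k => h.trans k⟩

theorem reach_of_cl {x y : Site} (hy : y ∈ Λ) (h : cl Λ ω y = cl Λ ω x) : reach ω x y := by
  have : y ∈ cl Λ ω y := mem_filter.2 ⟨hy, Relation.ReflTransGen.refl⟩
  rw [h] at this
  exact (mem_filter.1 this).2

theorem mem_KK {x : Site} : cl Λ ω x ∈ KK Λ ω ↔ ¬ exits Λ ω x := by
  constructor
  · intro h
    obtain ⟨y, hy, e⟩ := mem_image.1 h
    rintro ⟨z, hz, k⟩
    exact (mem_filter.1 hy).2 ⟨z, hz, (reach_of_cl (mem_filter.1 hy).1 e).symm.trans k⟩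
  · intro h
    refine mem_image.2 ⟨x, mem_filter.2 ⟨?_, h⟩, rfl⟩
    by_contra k
    exact h ⟨x, k, Relation.ReflTransGen.refl⟩

theorem col_eq {C : Type} {σ : Site → C} (h : ∀ e ∈ ω, σ e.1 = σ (tip e)) {x y : Site}
    (k : reach ω x y) : σ x = σ y := by
  induction k with
  | refl => rfl
  | tail _ l ih =>
    obtain ⟨e, he, l⟩ := l
    rcases l with ⟨a, b⟩ | ⟨a, b⟩
    · rw [ih, ← a, ← b, h e he]
    · rw [ih, ← a, ← b, h e he]

/-- The colour of a cluster. -/
def colr {C : Type} (o : C) (g : KK Λ ω → C) (k : Finset Site) : C :=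
  if h : k ∈ KK Λ ω then g ⟨k, h⟩ else o

end RCard

open RCard in
theorem rcard : CARD := by
  intro C _ o Λ ω S hS
  have hk : Fintype.card (KK Λ ω → C) = Fintype.card C ^ kk Λ ω := by
    rw [Fintype.card_fun, Fintype.card_coe]
    rfl
  rw [← hk, ← card_univ]
  symm
  refine card_bij (fun g _ x => colr o g (cl Λ ω x)) (fun g _ => (hS _).2 ⟨fun x hx => ?_,
    fun e he => ?_⟩) (fun g _ g' _ h => funext fun k => ?_) fun σ hσ => ?_
  · exact dif_neg fun k => mem_KK.1 k ⟨x, hx, Relation.ReflTransGen.refl⟩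
  · rw [cl_eq (reach_edge he)]
  · obtain ⟨k, hk⟩ := k
    obtain ⟨x, -, rfl⟩ := mem_image.1 hk
    have := congrFun h x
    simp only [colr] at this
    rwa [dif_pos hk, dif_pos hk] at this
  · obtain ⟨h₁, h₂⟩ := (hS σ).1 hσ
    have : ∀ k : KK Λ ω, ∃ y ∈ Λ, cl Λ ω y = k := fun k =>
      let ⟨y, hy, e⟩ := mem_image.1 k.2; ⟨y, (mem_filter.1 hy).1, e⟩
    choose r hr hr' using this
    refine ⟨fun k => σ (r k), mem_univ _, funext fun x => ?_⟩
    simp only [colr]
    split_ifs with h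
    · exact (col_eq h₂ (reach_of_cl (hr _) (hr' ⟨_, h⟩))).symm
    · obtain ⟨y, hy, k⟩ := not_not.1 (mt mem_KK.2 h)
      rw [col_eq h₂ k, h₁ y hy]

end

end Pool.Agent.MP_cb84d8_pr.PT
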