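import Pool.Agent.MP_cb84d8_pr.PT.RWin

/-! PROJECT POTTS: from time windows to all times. -/

open Finset Filter Topology MeasureTheory

namespace Pool.Agent.MP_cb84d8_pr.PT

noncomputable section
open Classical

theorem rmain : WF → EXP → NUL → MAIN := by
  intro wf ex nul q _ β δ μ hβ hδ hμ
  have := hμ.1
  have he := eps_pos (beta_pos hβ).1
  have hd : 0 < eps β - δ := sub_pos.2 hδ
  have h1 : ∀ᵐ ω ∂clockLaw.prod (μ.prod unifLaw), ∀ k m : ℕ,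
      ω ∉ bad q β m (k * (eps β - δ)) (eps β) :=
    ae_all_iff.2 fun k => ae_all_iff.2 fun m =>
      measure_eq_zero_iff_ae_notMem.1 (nul q β _ _ μ m hβ hμ (Int.natCast_nonneg m)
        (by positivity) (window_le (by positivity) he.le))
  have h2 : ∀ᵐ ω ∂clockLaw.prod (μ.prod unifLaw), Clk ω.1 :=
    Measure.quasiMeasurePreserving_fst.ae wf
  have h3 : ∀ᵐ U ∂unifLaw, ∀ r, U r ≤ 1 := ae_all_iff.2 fun r =>
    (measurePreserving_eval_infinitePi (fun _ : Site × ℕ => volume.restrict (Set.Icc (0 : ℝ) 1))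
      r).quasiMeasurePreserving.ae ((ae_restrict_mem measurableSet_Icc).mono fun _ h => h.2)
  have h4 : ∀ᵐ ω ∂clockLaw.prod (μ.prod unifLaw), ∀ r, ω.2.2 r ≤ 1 :=
    Measure.quasiMeasurePreserving_snd.ae (Measure.quasiMeasurePreserving_snd.ae h3)
  filter_upwards [h1, h2, h4] with ω hω hc hu
  refine ⟨ex q β _ _ _ hc hu, fun σ hσ t ht => ?_⟩
  rintro ⟨x, hx⟩
  have a : (⌊t / (eps β - δ)⌋₊ : ℝ) * (eps β - δ) ≤ t := by
    rw [← le_div_iff₀ hd]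
    exact Nat.floor_le (by positivity)
  have b : t ≤ (⌊t / (eps β - δ)⌋₊ : ℝ) * (eps β - δ) + (eps β - δ) := by
    have := Nat.lt_floor_add_one (t / (eps β - δ))
    rw [div_lt_iff₀ hd] at this
    linarith
  have c : ∀ z, (∃ s, t ≤ s ∧ s ≤ t + δ ∧ σ s z ≠ 0) → ∃ s, ⌊t / (eps β - δ)⌋₊ * (eps β - δ) ≤ s ∧
      s ≤ ⌊t / (eps β - δ)⌋₊ * (eps β - δ) + eps β ∧ σ s z ≠ 0 :=
    fun z ⟨s, s1, s2, s3⟩ => ⟨s, a.trans s1, by linarith, s3⟩
  refine hω ⌊t / (eps β - δ)⌋₊ (x.1.natAbs + x.2.natAbs) ⟨hc, σ, hσ, x, ?_,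
    hx.mono fun y hy => rtg_mono (fun u v k => ⟨k.1, c u k.2.1, c v k.2.2⟩) hy⟩
  rw [mem_box]
  omega

end

end Pool.Agent.MP_cb84d8_pr.PT
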