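import Pool.Agent.MP_cb84d8_pr.PT.Basic

/-! PROJECT POTTS: crossings by sites that are coloured or isolated are unlikely. -/

open Finset Filter Topology MeasureTheory

namespace Pool.Agent.MP_cb84d8_pr.PT

noncomputable section
open Classical

namespace RSml

theorem step (hp : PES) (hf : FIN) (ht : TIG) (hr : REC) (q : ℕ) [NeZero q] (β : ℝ)
    (hβ : Real.log (1 + √q) ≤ β) (K : ℕ) : ∀ m : ℤ, 0 ≤ m → ∀ δ : ℝ, 0 < δ →
    ∃ N₀, m ≤ N₀ ∧ ∃ N₁, ∀ N, N₁ ≤ N → th q β m N₀ N ≤ (1 - 1 / (q : ℝ)) ^ K + δ := by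
  obtain ⟨h0, h1, h2⟩ := beta_pos hβ
  have hv : 0 < Real.exp β - 1 := (Real.sqrt_pos.2 (by linarith)).trans_le h1
  have hq : (0 : ℝ) < q := by linarith
  have r0 : 0 ≤ 1 - 1 / (q : ℝ) := sub_nonneg.2 ((div_le_one hq).2 h2)
  have r1 : 1 - 1 / (q : ℝ) ≤ 1 := sub_le_self _ (by positivity)
  induction K with
  | zero =>
    intro m _ δ hδ
    refine ⟨m, le_rfl, 0, fun N _ => ?_⟩
    have P := hp q β (box N) h0
    have a : th q β m m N ≤ pes (q := q) β (box N) fun _ _ => 1 :=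
      P.mono _ _ fun _ _ _ _ _ => ind_le_one _
    rw [P.edge fun _ => 1, wr, fk_const hv hq] at a
    rw [pow_zero]
    linarith
  | succ K ih =>
    intro m hm δ hδ
    have hd : 0 < δ / 3 := by positivity
    obtain ⟨m₁, a₁, b₁⟩ := hf (Real.exp β - 1) q (δ / 3) m h2 h1 hd hm
    obtain ⟨m₀, b₀⟩ := ht (Real.exp β - 1) q (δ / 3) (box (m₁ + 1)) hv h2 hd
    obtain ⟨N₂, b₂⟩ := b₀ (max (m₀ + 1) (m₁ + 2) - 1) (by omega)
    obtain ⟨N₀, a₃, N₁, b₃⟩ := ih (max (m₀ + 1) (m₁ + 2)) (by omega) (δ / 3) hd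
    refine ⟨N₀, by omega, max (max N₁ N₂) (max (m₀ + 1) (m₁ + 2)), fun N hN => ?_⟩
    have a := hr q β m m₁ (max (m₀ + 1) (m₁ + 2)) N₀ N h0 hm a₁ (by omega) a₃ (by omega)
    have b := b₁ N (by omega)
    have c := b₂ N (by omega)
    have d := mul_le_mul_of_nonneg_left (b₃ N (by omega)) r0
    have e := mul_le_mul_of_nonneg_right r1 hd.le
    rw [pow_succ']
    rw [mul_add] at d
    linarith

end RSml

theorem rsml : PES → FIN → TIG → REC → SML := by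
  intro hp hf ht hr q _ β δ m hβ hδ hm
  have h2 := (beta_pos hβ).2.2
  obtain ⟨K, hK⟩ := exists_pow_lt_of_lt_one (half_pos hδ)
    (show 1 - 1 / (q : ℝ) < 1 from sub_lt_self _ (by positivity))
  obtain ⟨N₀, a, N₁, b⟩ := RSml.step hp hf ht hr q β hβ K m hm (δ / 2) (half_pos hδ)
  exact ⟨N₀, a, N₁, fun N hN => by linarith [b N hN]⟩

end

end Pool.Agent.MP_cb84d8_pr.PT
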