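import Pool.Agent.MP_cb84d8_pr.PT.Basic

/-! PROJECT POTTS: a clock rings in a window of length `δ` with probability at most `δ`. -/

open Finset Filter Topology MeasureTheory ProbabilityTheory
open scoped ENNReal

namespace Pool.Agent.MP_cb84d8_pr.PT

noncomputable section
open Classical

namespace RWin

theorem ratio (i : ℕ) {A B : Set (ℕ → ℝ)} (hA : MeasurableSet A) (hB : MeasurableSet B)
    {c : ℝ} (h : ∀ x, expMeasure 1 {u | Function.update x i u ∈ A} ≤
      ENNReal.ofReal c * expMeasure 1 {u | Function.update x i u ∈ B}) :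
    oneClock A ≤ ENNReal.ofReal c * oneClock B := by
  unfold oneClock
  rw [← infinitePi_update (expMeasure 1) i, Measure.map_apply measurable_update' hA,
    Measure.map_apply measurable_update' hB, Measure.prod_apply (measurable_update' hA),
    Measure.prod_apply (measurable_update' hB), ← lintegral_const_mul' _ _ ENNReal.ofReal_ne_top]
  exact lintegral_mono fun x => h x

theorem memoryless {a δ : ℝ} (ha : 0 ≤ a) (hδ : 0 ≤ δ) :
    expMeasure 1 (Set.Ioc a (a + δ)) ≤ ENNReal.ofReal δ * expMeasure 1 (Set.Ioi a) := by
  have e1 := Real.exp_le_one_iff.2 (neg_nonpos.2 ha)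
  have e0 := Real.exp_pos (-a)
  rw [← Set.compl_Iic, prob_compl_eq_one_sub measurableSet_Iic, ← Set.Iic_sdiff_Iic,
    measure_sdiff (Set.Iic_subset_Iic.2 (by linarith)) measurableSet_Iic.nullMeasurableSet
      (measure_ne_top _ _), exp_Iic _ ha, exp_Iic _ (by linarith), ← ENNReal.ofReal_one,
    ← ENNReal.ofReal_sub _ (by linarith), ← ENNReal.ofReal_sub _ (by linarith),
    ← ENNReal.ofReal_mul hδ]
  refine ENNReal.ofReal_le_ofReal ?_
  have := Real.add_one_le_exp (-δ)
  rw [neg_add, Real.exp_add]
  nlinarith

def S (n : ℕ) (e : ℕ → ℝ) : ℝ := ∑ k ∈ range n, e k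

theorem meas_S (n : ℕ) : Measurable (S n) :=
  Finset.measurable_sum _ fun k _ => measurable_pi_apply k

theorem S_update {k n : ℕ} (h : k ≤ n) (x : ℕ → ℝ) (u : ℝ) :
    S k (Function.update x n u) = S k x :=
  sum_congr rfl fun j hj => Function.update_of_ne (by have := mem_range.1 hj; omega) _ _

theorem S_succ (n : ℕ) (x : ℕ → ℝ) (u : ℝ) : S (n + 1) (Function.update x n u) = S n x + u := by
  rw [← S_update le_rfl x u]
  simp only [S, sum_range_succ, Function.update_self]

def B (t : ℝ) (n : ℕ) : Set (ℕ → ℝ) := {e | (∀ k, k ≤ n → S k e ≤ t) ∧ t < S (n + 1) e}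

theorem meas_B (t : ℝ) (n : ℕ) : MeasurableSet (B t n) := by
  have := meas_S
  unfold B
  measurability

end RWin

open RWin in
theorem window_le {t δ : ℝ} (ht : 0 ≤ t) (hδ : 0 ≤ δ) : oneClock.real (window t δ) ≤ δ := by
  refine ENNReal.toReal_le_of_le_ofReal hδ ?_
  calc oneClock (window t δ) ≤ oneClock (⋃ n, B t n ∩ {e | S (n + 1) e ≤ t + δ}) := by
        refine measure_mono_ae ?_
        filter_upwards [ae_pos] with e he
        rintro ⟨n, h1, h2⟩
        have ex : ∃ n, t < S (n + 1) e := ⟨n, h1⟩
        refine Set.mem_iUnion.2 ⟨Nat.find ex, ⟨fun k hk => ?_, Nat.find_spec ex⟩, ?_⟩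
        · rcases k with _ | k
          · simpa [S] using ht
          · exact not_lt.1 (Nat.find_min ex hk)
        · exact (sum_le_sum_of_subset_of_nonneg (range_subset_range.2
            (Nat.succ_le_succ (Nat.find_min' ex h1))) fun k _ _ => (he k).le).trans h2
    _ ≤ ∑' n, ENNReal.ofReal δ * oneClock (B t n) := by
        refine (measure_iUnion_le _).trans (ENNReal.tsum_le_tsum fun n => ratio n
          ((meas_B t n).inter (measurableSet_le (meas_S _) measurable_const)) (meas_B t n)
          fun x => ?_)
        by_cases h : ∀ k, k ≤ n → S k x ≤ t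
        · have h' : ∀ u, ∀ k, k ≤ n → S k (Function.update x n u) ≤ t := fun u k hk =>
            (S_update hk x u).symm ▸ h k hk
          refine (measure_mono fun u hu => ?_).trans ((memoryless (a := t - S n x)
            (sub_nonneg.2 (h n le_rfl)) hδ).trans (mul_le_mul_right (measure_mono fun u hu => ?_) _))
          · have a := hu.1.2
            have b : S (n + 1) (Function.update x n u) ≤ t + δ := hu.2
            rw [S_succ] at a b
            exact ⟨by linarith, by linarith⟩
          · refine ⟨h' u, ?_⟩
            rw [S_succ]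
            have : t - S n x < u := hu
            linarith
        · refine le_trans (le_of_eq ?_) zero_le
          refine measure_mono_null (fun u hu => h fun k hk => ?_) measure_empty
          exact S_update hk x u ▸ hu.1.1 k hk
    _ ≤ _ := by
        rw [ENNReal.tsum_mul_left, ← measure_iUnion _ (meas_B t)]
        · exact mul_le_of_le_one_right' prob_le_one
        · refine pairwise_disjoint_on _ |>.2 fun m n h => Set.disjoint_left.2 fun e a b => ?_
          exact absurd a.2 (not_lt.2 (b.1 _ h))

end

end Pool.Agent.MP_cb84d8_pr.PT
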