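import Pool.Agent.MP_cb84d8_pr.PT.Basic

/-! PROJECT POTTS: a zero-one law for long connections. -/

open Finset

namespace Pool.Agent.MP_cb84d8_pr.PT

noncomputable section
open Classical

namespace RZo

/-- No site of the small box is joined to the outside of the large one. -/
def D (k r : ℤ) : Ev := fun ω => ¬ ∃ z ∈ box k, exits (box r) ω z

/-- The translate of an event. -/
def T (n : ℤ) (A : Ev) : Ev := fun ω => A (ω.map (shiftE (n, 0)).toEmbedding)

theorem loc (k r : ℤ) : Loc (D k r) := (loc_ex fun z _ => loc_exits _ z).not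

theorem dec (k r : ℤ) : Dec (D k r) := fun _ _ h a ⟨z, b, c⟩ =>
  a ⟨z, b, exits_mono subset_rfl h c⟩

theorem mono {k K r R : ℤ} (hk : k ≤ K) (hr : r ≤ R) (ω : Finset Edge) : D K r ω → D k R ω :=
  fun a ⟨z, b, c⟩ => a ⟨z, box_mono hk b, exits_mono (box_mono hr) subset_rfl c⟩

theorem shift {k n r R : ℤ} (hn : 0 ≤ n) (hr : r + n ≤ R) (ω : Finset Edge) :
    D (k + n) r ω → T n (D k R) ω := fun a ⟨z, b, y, c, d⟩ => by
  obtain ⟨z, rfl⟩ := (shiftS (n, 0)).surjective z
  obtain ⟨y, rfl⟩ := (shiftS (n, 0)).surjective y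
  refine a ⟨z, ?_, y, fun e => c ?_, (aut_shift _).reach.1 d⟩
  · simp only [mem_box, shiftS_apply, Prod.fst_add, Prod.snd_add] at b ⊢
    omega
  · simp only [mem_box, shiftS_apply, Prod.fst_add, Prod.snd_add] at e ⊢
    omega

theorem out (k r : ℤ) (F : Finset Edge) : ∃ n, 0 ≤ n ∧ Out F (T n (D k r)) := by
  obtain ⟨M, hM⟩ := (F.image fun e => r - e.1.1).exists_le
  refine ⟨max M 0 + 1, by omega, fun ω => not_congr (exists_congr fun z => and_congr_right
    fun _ => ?_)⟩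
  rw [exits_loc, exits_loc (ω := (ω \ F).map _)]
  congr! 1
  ext e
  obtain ⟨e, rfl⟩ := (shiftE (max M 0 + 1, 0)).surjective e
  simp only [mem_inter, mem_map_equiv, Equiv.symm_apply_apply, mem_sdiff]
  refine and_congr_left fun h => (and_iff_left fun he => ?_).symm
  have := hM _ (mem_image_of_mem _ he)
  have h1 : e.1.1 ≤ (tip e).1 := by
    unfold tip
    split_ifs <;> simp
  simp only [mem_touching, shift1, shift2, mem_box, shiftS_apply, Prod.fst_add] at h
  omega

variable {pr : Ev → ℝ} (h : Fn0 pr)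
include h

theorem gap {A B : Ev} (a : Loc A) (b : Loc B) (k : ∀ ω, A ω → B ω) :
    pr (fun ω => B ω ∧ ¬ A ω) = pr B - pr A := by
  rw [h.add B A b a, Fn0.congr (pr := pr) (A := fun ω => B ω ∧ A ω) (B := A)
    fun ω => ⟨And.right, fun l => ⟨k ω l, l⟩⟩]
  ring

theorem step (h' : Fn1 pr) {k : ℤ} (hk : 0 ≤ k) {a b η : ℝ} (hη : 0 < η)
    (ha : ∀ r, pr (D k r) ≤ a) (hb : ∀ r, pr (D k r) ≤ b) :
    ∃ K, 0 ≤ K ∧ ∀ r, pr (D K r) ≤ a * b + 3 * η := by
  have bd : BddAbove (Set.range fun r => pr (D k r)) := ⟨a, by rintro _ ⟨r, rfl⟩; exact ha r⟩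
  obtain ⟨r, hr⟩ := exists_lt_of_lt_ciSup (sub_lt_self (⨆ r, pr (D k r)) hη)
  have hs : ∀ R, pr (D k R) - pr (D k r) ≤ η := fun R => by linarith [le_ciSup bd R]
  obtain ⟨F, hF⟩ := h'.mix _ (loc k r) (dec k r) η hη
  obtain ⟨n, hn, ho⟩ := out k r F
  refine ⟨k + n, by omega, fun R => ?_⟩
  have lt : ∀ r, Loc (T n (D k r)) := fun r => (loc k r).map _
  have et : ∀ r, pr (T n (D k r)) = pr (D k r) := fun r => h.inv _ _ (aut_shift _) _ (loc k r)
  have l1 := (loc k r).and (lt r)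
  have l2 := (loc k (max r (R + n))).and (loc k r).not
  have l3 := (lt (max r (R + n))).and (lt r).not
  have e1 := hF _ (lt r) ho
  have e2 := gap h (loc k r) (loc k (max r (R + n))) (mono le_rfl (le_max_left _ _))
  have e3 := gap h (lt r) (lt (max r (R + n))) fun ω => mono le_rfl (le_max_left _ _) _
  have e4 := h.mono (loc (k + n) R) (l1.or (l2.or l3)) fun ω d => by
    have d1 : D k (max r (R + n)) ω := mono (by omega) (by omega) ω d
    have d2 : T n (D k (max r (R + n))) ω := shift hn (le_max_right _ _) ω d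
    tauto
  have e5 := h.or_le l1 (l2.or l3)
  have e6 := h.or_le l2 l3
  rw [et] at e1
  rw [et, et] at e3
  have p0 := h.nn _ (loc k r)
  have e7 := mul_le_mul (ha r) (hb r) p0 (p0.trans (ha r))
  have e8 := mul_le_mul_of_nonneg_left (h.le_one (loc k r)) hη.le
  linarith [hs (max r (R + n))]

end RZo

open RZo in
theorem rzo : ZO := by
  intro pr h h' θ hθ hp ε hε
  have h1 : ∀ k r, 0 ≤ k → pr (D k r) ≤ 1 - θ := fun k r hk => by
    have := h.mono (loc k r) (loc_exits (box r) 0).not fun ω a b =>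
      a ⟨0, mem_box.2 ⟨by simpa, by simpa, by simpa, by simpa⟩, b⟩
    rw [h.compl (loc_exits _ _)] at this
    linarith [hp r]
  have h2 : 0 < 1 - θ / 2 := by linarith [(hp 0).trans (h.le_one (loc_exits _ _))]
  have h3 : ∀ n : ℕ, ∃ k, 0 ≤ k ∧ ∀ r, pr (D k r) ≤ (1 - θ / 2) ^ n := fun n => by
    induction n with
    | zero => exact ⟨0, le_rfl, fun r => (h.le_one (loc 0 r)).trans_eq (pow_zero _).symm⟩
    | succ n ih =>
      obtain ⟨k, hk, hb⟩ := ih
      obtain ⟨K, a, b⟩ := step h h' hk (η := θ * (1 - θ / 2) ^ n / 6) (by positivity)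
        (fun r => h1 k r hk) hb
      exact ⟨K, a, fun r => (b r).trans_eq (by ring)⟩
  obtain ⟨n, hn⟩ := exists_pow_lt_of_lt_one hε (show 1 - θ / 2 < 1 by linarith)
  obtain ⟨k, a, b⟩ := h3 n
  exact ⟨k, a, fun r => (b r).trans hn.le⟩

end

end Pool.Agent.MP_cb84d8_pr.PT
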