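import Pool.Agent.MP_cb84d8_pr.Main
import Pool.Agent.MP_cb84d8_pr.PT.Defs

/-! PROJECT POTTS: definitions and the statements of the rows. -/

open Finset Filter Topology MeasureTheory

namespace Pool.Agent.MP_cb84d8_pr.PT

noncomputable section
open Classical

def ind (P : Prop) : ℝ := if P then 1 else 0

/-! ### A. The random-cluster model in finite volume -/

/-- The number of clusters of `ω` inside `Λ` that are not joined to the outside. -/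
def kk (Λ : Finset Site) (ω : Finset Edge) : ℕ :=
  ((Λ.filter fun x => ¬ exits Λ ω x).image fun x => Λ.filter (reach ω x)).card

def fw (v Q : ℝ) (Λ : Finset Site) (ξ ω : Finset Edge) : ℝ := v ^ ω.card * Q ^ kk Λ (ω ∪ ξ)

/-- Random edges in `F`, fixed open edges `ξ`, everything outside `Λ` wired. -/
def fk (v Q : ℝ) (F : Finset Edge) (Λ : Finset Site) (ξ : Finset Edge) (f : Finset Edge → ℝ) : ℝ :=
  (∑ ω ∈ F.powerset, fw v Q Λ ξ ω * f ω) / ∑ ω ∈ F.powerset, fw v Q Λ ξ ω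

def ends (F : Finset Edge) : Finset Site := F.image Prod.fst ∪ F.image tip

/-- Free boundary condition. -/
def fr (v Q : ℝ) (F : Finset Edge) (f : Finset Edge → ℝ) : ℝ := fk v Q F (ends F) ∅ f

/-- Wired boundary condition. -/
def wr (v Q : ℝ) (Λ : Finset Site) (f : Finset Edge → ℝ) : ℝ := fk v Q (touching Λ) Λ ∅ f

/-- Automorphisms of the lattice. -/
def Aut (φ : Site ≃ Site) (ψ : Edge ≃ Edge) : Prop :=
  ∀ e, ((ψ e).1 = φ e.1 ∧ tip (ψ e) = φ (tip e)) ∨ ((ψ e).1 = φ (tip e) ∧ tip (ψ e) = φ e.1)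

def CARD : Prop := ∀ (C : Type) [Fintype C] (o : C) (Λ : Finset Site) (ω : Finset Edge)
  (S : Finset (Site → C)),
  (∀ σ, σ ∈ S ↔ (∀ x, x ∉ Λ → σ x = o) ∧ ∀ e ∈ ω, σ e.1 = σ (tip e)) →
    S.card = Fintype.card C ^ kk Λ ω

def SUP : Prop := ∀ (Λ Λ' : Finset Site) (a b : Finset Edge), Λ' ⊆ Λ →
  kk Λ a + kk Λ' b ≤ kk Λ (a ∩ b) + kk Λ' (a ∪ b)

structure IRR : Prop where
  big : ∀ (Λ Λ' : Finset Site) (ω : Finset Edge), ends ω ⊆ Λ' → Λ' ⊆ Λ →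
    kk Λ ω = kk Λ' ω + (Λ \ Λ').card
  far : ∀ (Λ : Finset Site) (ω ξ : Finset Edge), Disjoint ξ (touching Λ) → kk Λ (ω ∪ ξ) = kk Λ ω
  one : ∀ (Λ : Finset Site) (c : Site) (ω : Finset Edge), c ∉ Λ → ends ω ⊆ insert c Λ →
    kk (insert c Λ) ω = kk Λ ω + 1
  aut : ∀ φ ψ, Aut φ ψ → ∀ (Λ : Finset Site) (ω : Finset Edge),
    kk (Λ.map φ.toEmbedding) (ω.map ψ.toEmbedding) = kk Λ ω

structure HOL : Prop where
  hol : ∀ (v v' Q : ℝ) (F F' ξ ξ' : Finset Edge) (Λ Λ' : Finset Site) (f : Finset Edge → ℝ),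
    0 < v → v ≤ v' → 1 ≤ Q → F ⊆ F' → Λ' ⊆ Λ → ξ ⊆ ξ' → Disjoint F ξ' → Monotone f →
      fk v Q F Λ ξ f ≤ fk v' Q F' Λ' ξ' f
  fkg : ∀ (v Q : ℝ) (F : Finset Edge) (Λ : Finset Site) (f g : Finset Edge → ℝ), 0 < v → 1 ≤ Q →
    Antitone f → Antitone g →
      fk v Q F Λ ∅ f * fk v Q F Λ ∅ g ≤ fk v Q F Λ ∅ fun ω => f ω * g ω

/-- Conditioning on the edges outside `F₀`. -/
def COND : Prop := ∀ (v Q c : ℝ) (F F₀ : Finset Edge) (Λ : Finset Site) (f g : Finset Edge → ℝ),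
  0 < v → 0 < Q → F₀ ⊆ F → (∀ ξ, 0 ≤ g ξ) → (∀ ξ ⊆ F \ F₀, fk v Q F₀ Λ ξ f ≤ c) →
    fk v Q F Λ ∅ (fun ω => f (ω ∩ F₀) * g (ω \ F₀)) ≤ c * fk v Q F Λ ∅ fun ω => g (ω \ F₀)

def DUA : Prop := ∀ (Q : ℝ) (N : ℤ) (H : Finset Edge → ℝ), 1 ≤ Q → 0 ≤ N →
  wr √Q Q (box N) (fun ω => H (dualOf (touching (box N)) ω)) =
    fr √Q Q ((touching (box N)).map dual.toEmbedding) H

/-! ### B. The free limit and the absence of percolation -/

abbrev Ev := Finset Edge → Prop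

def Loc (A : Ev) : Prop := ∃ F, ∀ ω, A ω ↔ A (ω ∩ F)

def Out (E : Finset Edge) (A : Ev) : Prop := ∀ ω, A ω ↔ A (ω \ E)

def Inc (A : Ev) : Prop := ∀ ω ω', ω ⊆ ω' → A ω → A ω'

def Dec (A : Ev) : Prop := ∀ ω ω', ω ⊆ ω' → A ω' → A ω

/-- The dual configuration inside `F`. -/
def du (F ω : Finset Edge) : Finset Edge := F.filter fun e => dual.symm e ∉ ω

structure Fn0 (pr : Ev → ℝ) : Prop where
  one : pr (fun _ => True) = 1
  nn : ∀ A, Loc A → 0 ≤ pr A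
  add : ∀ A B, Loc A → Loc B → pr A = pr (fun ω => A ω ∧ B ω) + pr fun ω => A ω ∧ ¬ B ω
  cnt : ∀ (ι : Type) (I : Finset ι) (A : ι → Ev) (M : ℕ), (∀ i ∈ I, Loc (A i)) →
    (∀ ω, (I.filter fun i => A i ω).card ≤ M) → ∑ i ∈ I, pr (A i) ≤ M
  inv : ∀ φ ψ, Aut φ ψ → ∀ A, Loc A → pr (fun ω => A (ω.map ψ.toEmbedding)) = pr A
  fkg : ∀ A B, Loc A → Loc B → Dec A → Dec B → pr A * pr B ≤ pr fun ω => A ω ∧ B ω

structure Fn1 (pr : Ev → ℝ) : Prop where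
  ins : ∀ E, ∃ c, 0 < c ∧ ∀ A, Loc A → Out E A → c * pr A ≤ pr fun ω => A ω ∧ E ⊆ ω
  mix : ∀ D, Loc D → Dec D → ∀ ε, 0 < ε → ∃ F, ∀ G, Loc G → Out F G →
    pr (fun ω => D ω ∧ G ω) ≤ (pr D + ε) * pr G

def Fn2 (pr : Ev → ℝ) : Prop :=
  ∀ F A, Inc A → pr (fun ω => A (ω ∩ F)) ≤ pr fun ω => A (du F ω)

/-- The probability of an event in the free limit. -/
def prf (v Q : ℝ) (A : Ev) : ℝ := limUnder atTop fun G => fr v Q G fun ω => ind (A ω)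

def LIM : Prop := ∀ (v Q : ℝ) (A : Ev), 0 < v → 1 ≤ Q → Loc A →
  Tendsto (fun G => fr v Q G fun ω => ind (A ω)) atTop (𝓝 (prf v Q A)) ∧
    (Inc A → ∀ G, fr v Q G (fun ω => ind (A ω)) ≤ prf v Q A)

def FN0 : Prop := ∀ v Q : ℝ, 0 < v → 1 ≤ Q → Fn0 (prf v Q)

def FN1 : Prop := ∀ v Q : ℝ, 0 < v → 1 ≤ Q → Fn1 (prf v Q)

def FN2 : Prop := ∀ Q : ℝ, 1 ≤ Q → Fn2 (prf √Q Q)

def gsq (s t : ℤ) : Finset Site := Icc s t ×ˢ Icc s t

/-- The edges inside a square. -/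
def inn (s t : ℤ) : Finset Edge :=
  (touching (gsq s t)).filter fun e => e.1 ∈ gsq s t ∧ tip e ∈ gsq s t

def rem (j : Bool) (s t : ℤ) : Finset Edge := if j then touching (gsq s t) else inn s t

/-- The eight half sides of a square (`j = false`) or of the layer around it (`j = true`): `a` says
that the side is vertical, `b` that it is the top or right one, `c` that it is the upper or right
half. -/
def half (j : Bool) (s t : ℤ) (a b c : Bool) : Finset Site :=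
  (gsq (s - 1) (t + 1)).filter fun z =>
    (if a then z.1 else z.2) = (if b then t + (if j then 1 else 0) else s - (if j then 1 else 0)) ∧
    s ≤ (if a then z.2 else z.1) ∧ (if a then z.2 else z.1) ≤ t ∧
    if c then s + t ≤ 2 * (if a then z.2 else z.1) else 2 * (if a then z.2 else z.1) ≤ s + t

def arm (j : Bool) (s t r : ℤ) (a b c : Bool) (ω : Finset Edge) : Prop :=
  ∃ z ∈ half j s t a b c, exits (gsq (s - r) (t + r)) (ω \ rem j s t) z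

def darm (n r : ℤ) (a b c : Bool) (ω : Finset Edge) : Prop :=
  arm false (-n - 1) n r a b c (du (touching (gsq (-n - 1 - r) (n + r))) ω)

/-- Six alternating arms. -/
def six (n r : ℤ) (ω : Finset Edge) : Prop :=
  arm true (-n) n r false true true ω ∧ arm true (-n) n r true true false ω ∧
    arm true (-n) n r false false false ω ∧ darm n r false true false ω ∧
      darm n r true true true ω ∧ darm n r false false true ω

def ZO : Prop := ∀ pr, Fn0 pr → Fn1 pr → ∀ θ : ℝ, 0 < θ →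
  (∀ r : ℤ, θ ≤ pr fun ω => exits (box r) ω 0) → ∀ ε : ℝ, 0 < ε → ∃ k : ℤ, 0 ≤ k ∧
    ∀ r : ℤ, pr (fun ω => ¬ ∃ z ∈ box k, exits (box r) ω z) ≤ ε

def SQR : Prop := ∀ pr, Fn0 pr → ∀ (j : Bool) (s t r : ℤ) (a b c : Bool), s ≤ t → 1 ≤ r →
  (1 - pr (arm j s t r a b c)) ^ 8 ≤
    pr fun ω => ¬ ∃ z ∈ gsq s t, exits (gsq (s - r) (t + r)) ω z

def TOP : Prop := ∀ (n R : ℤ) (ω ζ : Finset Edge) (d₁ d₂ d₃ p₁ p₂ p₃ : Site), 0 ≤ n → n + 1 ≤ R →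
  (∀ e ∈ ω, e.1 ∈ box R ∧ tip e ∈ box R) →
  (∀ e ∈ ζ, dual.symm e ∉ ω ∧ dual.symm e ∉ touching (box n)) →
  d₁ ∈ half false (-n - 1) n false true false → d₂ ∈ half false (-n - 1) n true true true →
  d₃ ∈ half false (-n - 1) n false false true →
  exits (box R) ζ d₁ → exits (box R) ζ d₂ → exits (box R) ζ d₃ →
  p₁ ∈ half true (-n) n false true true → p₂ ∈ half true (-n) n true true false →
  p₃ ∈ half true (-n) n false false false →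
    ¬ reach (ω \ touching (box n)) p₁ p₂ ∧ ¬ reach (ω \ touching (box n)) p₁ p₃ ∧
      ¬ reach (ω \ touching (box n)) p₂ p₃

/-- The counting lemma of Burton and Keane for blocks. -/
def BKC : Prop := ∀ (ι : Type) (I : Finset ι) (E : ι → Finset Edge) (ω : Finset Edge)
  (Y : Finset Site), (∀ i ∈ I, ∀ j ∈ I, i ≠ j → Disjoint (ends (E i)) (ends (E j))) →
  (∀ i ∈ I, E i ⊆ ω ∧ ∀ a ∈ ends (E i), ∀ b ∈ ends (E i), reach (E i) a b) →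
  (∀ i ∈ I, ∃ y : Fin 3 → Site, (∀ k, y k ∈ Y ∧ ∃ a ∈ ends (E i), reach (ω \ E i) a (y k)) ∧
    ∀ k l, k ≠ l → ¬ reach (ω \ E i) (y k) (y l)) → I.card ≤ Y.card

/-- One block. -/
def ENC : Prop := ∀ (n r L : ℤ) (x : Site) (ω : Finset Edge), 0 ≤ n →
  |x.1| + n + 1 ≤ L → |x.2| + n + 1 ≤ L → 2 * L + 2 ≤ r →
  six n r (ω.map (shiftE (-x)).toEmbedding) →
    ∃ y : Fin 3 → Site, (∀ k, y k ∈ box (L + 1) \ box L ∧
      ∃ a ∈ ends ((touching (box n)).map (shiftE x).toEmbedding),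
        reach ((ω ∩ touching (box L)) \ (touching (box n)).map (shiftE x).toEmbedding) a (y k)) ∧
      ∀ k l, k ≠ l →
        ¬ reach ((ω ∩ touching (box L)) \ (touching (box n)).map (shiftE x).toEmbedding) (y k) (y l)

def CNT : Prop := ∀ pr, Fn0 pr → ∀ (n : ℤ) (c : ℝ), 0 ≤ n → 0 < c →
  ¬ ∀ r, 1 ≤ r → c ≤ pr fun ω => six n r ω ∧ touching (box n) ⊆ ω

def ZH : Prop := ∀ pr, Fn0 pr → Fn1 pr → Fn2 pr → ∀ ε : ℝ, 0 < ε →
  ∃ r : ℤ, pr (fun ω => exits (box r) ω 0) ≤ ε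

def FIN : Prop := ∀ (v Q ε : ℝ) (m : ℤ), 1 ≤ Q → √Q ≤ v → 0 < ε → 0 ≤ m →
  ∃ m₁, m + 1 ≤ m₁ ∧ ∀ N, m₁ + 1 ≤ N → wr v Q (box N) (fun ω =>
    ind (∃ f ∈ box (m + 1), exits (box m₁) (dualOf (touching (box N)) ω) f)) ≤ ε

def TIG : Prop := ∀ (v Q ε : ℝ) (K : Finset Site), 0 < v → 1 ≤ Q → 0 < ε →
  ∃ m₀ : ℤ, ∀ m, m₀ ≤ m → ∃ N₀ : ℤ, ∀ N, N₀ ≤ N → wr v Q (box N) (fun ω =>
    ind (∃ z ∈ K, exits (box m) ω z ∧ ¬ exits (box N) ω z)) ≤ ε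

/-! ### C. The Edwards-Sokal coupling -/

/-- A path of good sites in the matching lattice, outside the box of size `m - 1`, joins the box of
size `m` to the outside of the box of size `N`. -/
def crossing (good : Site → Prop) (m N : ℤ) : Prop :=
  ∃ x ∈ box m, ∃ y, y ∉ box N ∧ Relation.ReflTransGen
    (fun a b => Near a b ∧ (good a ∧ a ∉ box (m - 1)) ∧ (good b ∧ b ∉ box (m - 1))) x y

section
variable {q : ℕ} [NeZero q]

def pes (β : ℝ) (Λ : Finset Site) (G : Col q → Finset Edge → ℝ) : ℝ :=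
  pav β Λ fun σ => ber (fun _ => 1 - Real.exp (-β)) (touching Λ) fun c =>
    G σ (c.filter fun e => σ e.1 = σ (tip e))

def th (q : ℕ) [NeZero q] (β : ℝ) (m N₀ N : ℤ) : ℝ :=
  pes (q := q) β (box N) fun σ ω => ind (crossing (fun a => σ a ≠ 0 ∨ ∀ e ∈ ω, e ∉ star a) m N₀)

def eps (β : ℝ) : ℝ := (1 - √(1 - Real.exp (-β))) ^ 4

/-- `f` depends on the colours in `K` only. -/
def Dep {α : Type} (K : Finset Site) (f : Col q → α) : Prop :=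
  ∀ σ σ', (∀ x ∈ K, σ x = σ' x) → f σ = f σ'

def pick (p : Fin q → ℝ) (u : ℝ) : Fin q :=
  if h : (univ.filter fun c => u ≤ ∑ c' ∈ Iic c, p c').Nonempty then
    (univ.filter fun c => u ≤ ∑ c' ∈ Iic c, p c').min' h else 0

def pupd (β : ℝ) (x : Site) (u : ℝ) (ξ : Col q) : Col q :=
  Function.update ξ x (pick (hb β ξ x) u)

def prun (β : ℝ) (U : Site × ℕ → ℝ) : List (Site × ℕ) → Col q → Col q
  | [], ξ => ξ
  | r :: L, ξ => pupd β r.1 (U r) (prun β U L ξ)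

def pheat (β : ℝ) (x : Site) (F : Col q → ℝ) (ξ : Col q) : ℝ :=
  ∑ c, hb β ξ x c * F (Function.update ξ x c)

end

structure Pes (q : ℕ) [NeZero q] (β : ℝ) (Λ : Finset Site) : Prop where
  mono : ∀ G G' : Col q → Finset Edge → ℝ, (∀ ω ⊆ touching Λ, ∀ σ : Col q,
    (∀ x, x ∉ Λ → σ x = 0) → (∀ e ∈ ω, σ e.1 = σ (tip e)) → G σ ω ≤ G' σ ω) →
      pes β Λ G ≤ pes β Λ G'
  add : ∀ G G' : Col q → Finset Edge → ℝ,
    pes β Λ (fun σ ω => G σ ω + G' σ ω) = pes β Λ G + pes β Λ G'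
  edge : ∀ f : Finset Edge → ℝ,
    pes (q := q) β Λ (fun _ ω => f ω) = wr (Real.exp β - 1) q Λ f
  col : ∀ (good : Ev) (z : Finset Edge → Site) (f : Col q → Finset Edge → ℝ),
    (∀ ω, good ω → ¬ exits Λ ω (z ω)) →
    (∀ ω, good ω → ∀ σ σ', (∀ y, ¬ reach ω (z ω) y → σ y = σ' y) → f σ ω = f σ' ω) →
      pes β Λ (fun σ ω => ind (good ω ∧ σ (z ω) ≠ 0) * f σ ω) =
        (1 - 1 / q) * pes β Λ fun σ ω => ind (good ω) * f σ ω

def PES : Prop := ∀ (q : ℕ) [NeZero q] (β : ℝ) (Λ : Finset Site), 0 < β → Pes q β Λ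

def REC : Prop := ∀ (q : ℕ) [NeZero q] (β : ℝ) (m m₁ m' N₀ N : ℤ), 0 < β → 0 ≤ m → m + 1 ≤ m₁ →
  m₁ + 2 ≤ m' → m' ≤ N₀ → m' ≤ N →
  th q β m N₀ N ≤ wr (Real.exp β - 1) q (box N) (fun ω =>
      ind (∃ f ∈ box (m + 1), exits (box m₁) (dualOf (touching (box N)) ω) f)) +
    wr (Real.exp β - 1) q (box N) (fun ω =>
      ind (∃ z ∈ box (m₁ + 1), exits (box (m' - 1)) ω z ∧ ¬ exits (box N) ω z)) +
    (1 - 1 / q) * th q β m' N₀ N

def SML : Prop := ∀ (q : ℕ) [NeZero q] (β δ : ℝ) (m : ℤ), Real.log (1 + √q) ≤ β → 0 < δ → 0 ≤ m →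
  ∃ N₀, m ≤ N₀ ∧ ∃ N₁, ∀ N, N₁ ≤ N → th q β m N₀ N ≤ δ

def SPR : Prop := ∀ (q : ℕ) [NeZero q] (β r : ℝ) (m N₀ N : ℤ) (S : Finset Site), 0 < β →
  S ⊆ box N → 0 ≤ r → r ≤ eps β →
  pav (q := q) β (box N) (fun σ => ber (fun _ => r) S fun ζ =>
    ind (crossing (fun a => σ a ≠ 0 ∨ a ∈ ζ) m N₀)) ≤ th q β m N₀ N

def LOM : Prop := ∀ (q : ℕ) [NeZero q] (β : ℝ) (μ : Measure (Col q)), IsOrdered β μ →
  ∃ N : ℕ → ℤ, Tendsto N atTop atTop ∧ ∀ (K : Finset Site) (f : Col q → ℝ), Dep K f →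
    Measurable f ∧ Integrable f μ ∧
      Tendsto (fun k => pav β (box (N k)) f) atTop (𝓝 (∫ σ, f σ ∂μ))

def STA : Prop := ∀ (q : ℕ) [NeZero q] (β δ : ℝ) (μ : Measure (Col q)) (m : ℤ),
  Real.log (1 + √q) ≤ β → IsOrdered β μ → 0 < δ → 0 ≤ m → ∃ N₀, m ≤ N₀ ∧ ∀ r, 0 ≤ r → r ≤ eps β →
    ber (fun _ => r) (box (N₀ + 1)) (fun ζ => μ.real {σ |
      crossing (fun a => a ∈ box (N₀ + 1) ∧ (σ a ≠ 0 ∨ a ∈ ζ)) m N₀}) ≤ δ

/-! ### D. The dynamics -/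

def PCK : Prop := ∀ (q : ℕ) [NeZero q] (p : Fin q → ℝ), (∀ c, 0 ≤ p c) → ∑ c, p c = 1 →
  (∀ u, u ≤ 1 → ∀ c, pick p u ≤ c ↔ u ≤ ∑ c' ∈ Iic c, p c') ∧ Measurable (pick p) ∧
    ∀ F : Fin q → ℝ, ∫ u, F (pick p u) ∂(volume.restrict (Set.Icc (0 : ℝ) 1)) = ∑ c, p c * F c

def INV : Prop := ∀ (q : ℕ) [NeZero q] (β : ℝ) (Λ : Finset Site) (x : Site) (F : Col q → ℝ),
  x ∈ Λ → pav β Λ (pheat β x F) = pav β Λ F

def RUN : Prop := ∀ (q : ℕ) [NeZero q] (β : ℝ) (μ : Measure (Col q)) (L : List (Site × ℕ))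
  (K : Finset Site) (A : Col q → Prop), IsOrdered β μ → L.Nodup → Dep K A →
    MeasurableSet {p : Col q × (Site × ℕ → ℝ) | A (prun β p.2 L p.1)} ∧
      μ.prod unifLaw {p | A (prun β p.2 L p.1)} = μ {σ | A σ}

/-- An earlier ring at a neighbour. -/
def rel (E : Site → ℕ → ℝ) (r s : Site × ℕ) : Prop :=
  Adj r.1 s.1 ∧ ring E r.1 r.2 < ring E s.1 s.2

structure Clk (E : Site → ℕ → ℝ) : Prop where
  reg : Regular E
  dis : ∀ x y, x ≠ y → ∀ n m, ring E x n ≠ ring E y m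
  wf : WellFounded (rel E)

def WF : Prop := ∀ᵐ E ∂clockLaw, Clk E

def EXP : Prop := ∀ (q : ℕ) [NeZero q] (β : ℝ) (σ₀ : Col q) (E : Site → ℕ → ℝ)
  (U : Site × ℕ → ℝ), Clk E → (∀ r, U r ≤ 1) → ∃ σ, IsPath β σ₀ E U σ

def LCD : Prop := ∀ (q : ℕ) [NeZero q] (β t : ℝ) (E : Site → ℕ → ℝ) (K : Finset Site), Clk E →
  0 ≤ t → ∃ R : Finset Site, ∀ Λ, R ⊆ Λ → ∀ L, ListFor Λ E t L →
    ∀ (σ₀ : Col q) U σ, IsPath β σ₀ E U σ → ∀ x ∈ K, σ t x = prun β U L σ₀ x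

/-- For some path the sites that are coloured in the time window have an infinite cluster that meets
the box of size `m`. -/
def bad (q : ℕ) [NeZero q] (β : ℝ) (m : ℤ) (t δ : ℝ) :
    Set ((Site → ℕ → ℝ) × Col q × (Site × ℕ → ℝ)) :=
  {ω | Clk ω.1 ∧ ∃ σ, IsPath β ω.2.1 ω.1 ω.2.2 σ ∧ ∃ x ∈ box m,
    {y | Relation.ReflTransGen (fun a b => Near a b ∧ (∃ s, t ≤ s ∧ s ≤ t + δ ∧ σ s a ≠ 0) ∧
      ∃ s, t ≤ s ∧ s ≤ t + δ ∧ σ s b ≠ 0) x y}.Infinite}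

def NUL : Prop := ∀ (q : ℕ) [NeZero q] (β t δ : ℝ) (μ : Measure (Col q)) (m : ℤ),
  Real.log (1 + √q) ≤ β → IsOrdered β μ → 0 ≤ m → 0 ≤ t → oneClock.real (window t δ) ≤ eps β →
    clockLaw.prod (μ.prod unifLaw) (bad q β m t δ) = 0

def EXO : Prop := ∀ (q : ℕ) [NeZero q] (β : ℝ), ∃ μ : Measure (Col q), IsOrdered β μ

def MAIN : Prop := ∀ (q : ℕ) [NeZero q] (β δ : ℝ) (μ : Measure (Col q)),
  Real.log (1 + √q) ≤ β → δ < eps β → IsOrdered β μ → ∀ᵐ ω ∂clockLaw.prod (μ.prod unifLaw),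
    (∃ σ : ℝ → Col q, IsPath β ω.2.1 ω.1 ω.2.2 σ) ∧
      ∀ σ : ℝ → Col q, IsPath β ω.2.1 ω.1 ω.2.2 σ → ∀ t : ℝ, 0 ≤ t →
        ¬ HasInf {x | ∃ s, t ≤ s ∧ s ≤ t + δ ∧ σ s x ≠ 0}

/-- The rows. -/
structure Rows : Prop where
  card : CARD
  sup : CARD → SUP
  irr : IRR
  hol : SUP → HOL
  cond : COND
  dua : CARD → IRR → DUA
  lim : IRR → HOL → LIM
  fn0 : IRR → HOL → LIM → FN0
  fn1 : IRR → HOL → COND → LIM → FN1
  fn2 : IRR → HOL → DUA → LIM → FN0 → FN2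
  zo : ZO
  sqr : SQR
  top : TOP
  bkc : BKC
  enc : TOP → ENC
  cnt : BKC → ENC → CNT
  zh : ZO → SQR → CNT → ZH
  fin : HOL → DUA → LIM → FN0 → FN1 → FN2 → ZH → FIN
  tig : IRR → HOL → COND → TIG
  pes : CARD → PES
  rc : PES → REC
  sml : PES → FIN → TIG → REC → SML
  spr : SPR
  lom : LOM
  sta : SML → SPR → LOM → STA
  pck : PCK
  inv : INV
  run : PCK → INV → LOM → RUN
  wf : WF
  exp : PCK → EXP
  lcd : PCK → LCD
  nul : STA → RUN → LCD → NUL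
  main : WF → EXP → NUL → MAIN

theorem Rows.all (h : Rows) : MAIN := by
  have H := h.hol (h.sup h.card)
  have L := h.lim h.irr H
  have D := h.dua h.card h.irr
  have F0 := h.fn0 h.irr H L
  have P := h.pes h.card
  exact h.main h.wf (h.exp h.pck) (h.nul (h.sta (h.sml P (h.fin H D L F0 (h.fn1 h.irr H h.cond L)
    (h.fn2 h.irr H D L F0) (h.zh h.zo h.sqr (h.cnt h.bkc (h.enc h.top)))) (h.tig h.irr H h.cond)
    (h.rc P)) h.spr h.lom) (h.run h.pck h.inv h.lom) (h.lcd h.pck))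

end

end Pool.Agent.MP_cb84d8_pr.PT
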